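import Pool.Agent.Lib.MP_7f333f_an.RP.Limits

set_option autoImplicit false
set_option linter.unusedSectionVars false

/-!
Minimal invariant sets of tuples of vectors; a Roelcke precompact group acting isometrically on a
combinatorial space either has a nonzero vector with a totally bounded orbit or contains a sequence
which tends weakly to zero.
-/

namespace Pool.Agent.Comb7f333f

open Filter Topology Equiv

section Minimal

variable {G : Subgroup (Perm ℕ)}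

variable {𝓕 : Set (Finset ℕ)} {X : Type*} [NormedAddCommGroup X] [NormedSpace ℝ X]
  [CompleteSpace X] {e : ℕ → X}

/-- The coordinates of the terms of a sequence of vectors. -/
noncomputable def kap (e : ℕ → X) (y : ℕ → X) : ℕ × ℕ → ℝ := fun p => ef e p.2 (y p.1)

variable (h : IsRegular 𝓕) (hX : IsCombSpace 𝓕 e) {N : Seminorm ℝ X} {c C : ℝ} (hc : 0 < c)
  (hC : 0 < C) (hN : ∀ x, c * ‖x‖ ≤ N x ∧ N x ≤ C * ‖x‖)

/-- The action on sequences of vectors. -/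
def actS (Φ : G →* isomGroup N) (g : G) (y : ℕ → X) : ℕ → X := fun i => (Φ g : X ≃ₗ[ℝ] X) (y i)

include h hX in
theorem kap_injective : Function.Injective (kap e) := by
  intro y y' hyy
  funext i
  exact eq_of_ef h hX _ _ fun k => congrFun hyy (i, k)

theorem actS_mul (Φ : G →* isomGroup N) (g g' : G) (y : ℕ → X) :
    actS Φ (g * g') y = actS Φ g (actS Φ g' y) := by
  funext i
  simp only [actS]
  rw [map_mul, isom_mul]

theorem actS_one (Φ : G →* isomGroup N) (y : ℕ → X) : actS Φ 1 y = y := by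
  funext i
  simp only [actS]
  rw [map_one, isom_one]

/-- The vector has a totally bounded orbit. -/
def TBOrbit (Φ : G →* isomGroup N) (x : X) : Prop :=
  ∀ ε : ℝ, 0 < ε → ∃ D : Set X, D.Finite ∧ ∀ g : G, ∃ d ∈ D,
    N ((Φ g : X ≃ₗ[ℝ] X) x - d) ≤ ε

include h hX hc hC hN

theorem kap_act_tendsto (Φ : G →* isomGroup N) (g : G) (y : ℕ → ℕ → X) (y0 : ℕ → X)
    (B : ℕ → ℝ) (hB : ∀ j i, ‖y j i‖ ≤ B i)
    (hy : Tendsto (fun j => kap e (y j)) atTop (𝓝 (kap e y0))) :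
    Tendsto (fun j => kap e (actS Φ g (y j))) atTop (𝓝 (kap e (actS Φ g y0))) := by
  rw [tendsto_pi_nhds] at hy ⊢
  rintro ⟨i, k⟩
  set L : X →L[ℝ] X := ((Φ g : X ≃ₗ[ℝ] X) : X →ₗ[ℝ] X).mkContinuous (C / c)
    (fun x => isom_norm_le hc hN (Φ g) x) with hL
  exact tendsto_functional_of_ef' h hX (fun j => y j i) (y0 i) (B i) (fun j => hB j i)
    (fun k => hy (i, k)) ((ef e k).comp L)

/-- A sequence of the group which tends weakly to zero, if there are no nonzero vectors with a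
totally bounded orbit. -/
theorem exists_null_sequence (hR : RoelckePrecompact G) {Φ : G →* isomGroup N}
    (hΦ : ContHom Φ) (hTB : ∀ x, TBOrbit Φ x → x = 0) :
    ∃ γ : ℕ → G, ∀ x k, Tendsto (fun j => ef e k ((Φ (γ j) : X ≃ₗ[ℝ] X) x)) atTop (𝓝 0) := by
  classical
  have hsep := separable_of_isCombSpace hX
  set xs : ℕ → X := TopologicalSpace.denseSeq X with hxs
  set Z : Set (ℕ × ℕ → ℝ) := closure (Set.range fun g : G => kap e (actS Φ g xs)) with hZ
  have hbox : ∀ g : G, kap e (actS Φ g xs) ∈ Set.pi Set.univ fun p : ℕ × ℕ =>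
      Set.Icc (-(C / c * ‖xs p.1‖)) (C / c * ‖xs p.1‖) := fun g p _ =>
    abs_le.mp ((abs_ef_le h hX p.2 _).trans (isom_norm_le hc hN _ _))
  have hcompbox : IsCompact (Set.pi Set.univ fun p : ℕ × ℕ =>
    Set.Icc (-(C / c * ‖xs p.1‖)) (C / c * ‖xs p.1‖)) := isCompact_univ_pi fun _ => isCompact_Icc
  have hZcomp : IsCompact Z := hcompbox.closure_of_subset (by rintro _ ⟨g, rfl⟩; exact hbox g)
  have hZseq : ∀ ξ ∈ Z, ∃ γ : ℕ → G, Tendsto (fun j => kap e (actS Φ (γ j) xs)) atTop (𝓝 ξ) := by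
    intro ξ hξ
    obtain ⟨s, hs1, hs2⟩ := mem_closure_iff_seq_limit.mp hξ
    choose γ hγ using hs1
    exact ⟨γ, hs2.congr fun n => (hγ n).symm⟩
  -- points of `Z` are given by vectors
  have hZy : ∀ ξ ∈ Z, ∃ y : ℕ → X, kap e y = ξ := by
    intro ξ hξ
    obtain ⟨γ, hγ⟩ := hZseq ξ hξ
    obtain ⟨ψ, hψ, _, hψ2⟩ := exists_subseq_limits h hX hc hC hN hR hΦ γ
    choose u hu using fun i => hψ2 (xs i)
    refine ⟨u, ?_⟩
    have h1 : Tendsto (fun j => kap e (actS Φ (γ (ψ j)) xs)) atTop (𝓝 (kap e u)) := by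
      rw [tendsto_pi_nhds]
      rintro ⟨i, k⟩
      exact hu i k
    exact tendsto_nhds_unique h1 (hγ.comp hψ.tendsto_atTop)
  have hZb : ∀ y : ℕ → X, kap e y ∈ Z → ∀ i, N (y i) ≤ N (xs i) := by
    intro y hy i
    obtain ⟨γ, hγ⟩ := hZseq _ hy
    rw [tendsto_pi_nhds] at hγ
    refine seminorm_le_of_tendsto h hX hC (fun x => (hN x).2)
      (fun j => (Φ (γ j) : X ≃ₗ[ℝ] X) (xs i)) (y i) (C / c * ‖xs i‖)
      (fun j => isom_norm_le hc hN _ _) (fun k => hγ (i, k)) _ fun j => (isom_apply _ _).le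
  have hZb' : ∀ y : ℕ → X, kap e y ∈ Z → ∀ i, ‖y i‖ ≤ N (xs i) / c := by
    intro y hy i
    rw [le_div_iff₀ hc, mul_comm]
    exact (hN _).1.trans (hZb y hy i)
  have hZinv : ∀ y : ℕ → X, kap e y ∈ Z → ∀ g, kap e (actS Φ g y) ∈ Z := by
    intro y hy g
    obtain ⟨γ, hγ⟩ := hZseq _ hy
    have h1 := kap_act_tendsto h hX hc hC hN Φ g (fun j => actS Φ (γ j) xs) y
      (fun i => C / c * ‖xs i‖) (fun j i => isom_norm_le hc hN _ _) hγ
    refine mem_closure_of_tendsto h1 (Filter.Eventually.of_forall fun j => ?_)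
    exact ⟨g * γ j, by beta_reduce; rw [actS_mul]⟩
  -- pullbacks of closed sets
  have hpull : ∀ S : Set (ℕ × ℕ → ℝ), IsClosed S → S ⊆ Z → ∀ E : Set (ℕ × ℕ → ℝ), IsClosed E →
      ∀ g, IsClosed {ξ | ξ ∈ S ∧ ∃ y, kap e y = ξ ∧ kap e (actS Φ g y) ∈ E} := by
    intro S hS hSZ E hE g
    refine IsSeqClosed.isClosed fun ξ ξ0 hξ hlim => ?_
    have h0 : ξ0 ∈ S := hS.isSeqClosed (fun n => (hξ n).1) hlim
    obtain ⟨y0, hy0⟩ := hZy ξ0 (hSZ h0)
    choose y hy using fun n => (hξ n).2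
    refine ⟨h0, y0, hy0, ?_⟩
    refine hE.isSeqClosed (fun n => (hy n).2) ?_
    refine kap_act_tendsto h hX hc hC hN Φ g y y0 (fun i => N (xs i) / c)
      (fun j i => hZb' (y j) (by rw [(hy j).1]; exact hSZ (hξ j).1) i) ?_
    rw [hy0]
    exact hlim.congr fun n => (hy n).1.symm
  -- a minimal set
  set 𝒮 : Set (Set (ℕ × ℕ → ℝ)) := {S | IsClosed S ∧ S.Nonempty ∧ S ⊆ Z ∧
    ∀ y, kap e y ∈ S → ∀ g, kap e (actS Φ g y) ∈ S} with h𝒮
  have hZ𝒮 : Z ∈ 𝒮 := ⟨isClosed_closure, ⟨_, subset_closure ⟨1, rfl⟩⟩, subset_rfl, hZinv⟩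
  obtain ⟨S, hS⟩ : ∃ S, Minimal (· ∈ 𝒮) S := by
    refine zorn_superset _ fun ch hch hchain => ?_
    rcases ch.eq_empty_or_nonempty with rfl | hne
    · exact ⟨Z, hZ𝒮, fun s hs => absurd hs (Set.notMem_empty s)⟩
    · refine ⟨⋂₀ ch, ⟨isClosed_sInter fun t ht => (hch ht).1, ?_, ?_, ?_⟩, fun s hs =>
        Set.sInter_subset_of_mem hs⟩
      · rw [Set.sInter_eq_iInter]
        have : Nonempty ch := hne.coe_sort
        refine IsCompact.nonempty_iInter_of_directed_nonempty_isCompact_isClosed _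
          (DirectedOn.directed_val (IsChain.directedOn hchain.symm)) (fun i => (hch i.2).2.1)
          (fun i => hZcomp.of_isClosed_subset (hch i.2).1 (hch i.2).2.2.1) fun i => (hch i.2).1
      · obtain ⟨t, ht⟩ := hne
        exact (Set.sInter_subset_of_mem ht).trans (hch ht).2.2.1
      · intro y hy g t ht
        exact (hch ht).2.2.2 y (hy t ht) g
  obtain ⟨hS1, hS2, hS3, hS4⟩ := hS.prop
  have hScomp : IsCompact S := hZcomp.of_isClosed_subset hS1 hS3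
  -- the norms of the terms
  have hA : ∀ (i : ℕ) (d : X) (ε : ℝ), IsClosed {ξ | ξ ∈ S ∧ ∃ y, kap e y = ξ ∧
      N (y i - d) ≤ ε} := by
    intro i d ε
    refine IsSeqClosed.isClosed fun ξ ξ0 hξ hlim => ?_
    have h0 : ξ0 ∈ S := hS1.isSeqClosed (fun n => (hξ n).1) hlim
    obtain ⟨y0, hy0⟩ := hZy ξ0 (hS3 h0)
    choose y hy using fun n => (hξ n).2
    refine ⟨h0, y0, hy0, ?_⟩
    have h2 : Tendsto (fun n => kap e (y n)) atTop (𝓝 (kap e y0)) := by
      rw [hy0]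
      exact hlim.congr fun n => (hy n).1.symm
    rw [tendsto_pi_nhds] at h2
    refine seminorm_le_of_tendsto h hX hC (fun x => (hN x).2) (fun j => y j i - d) (y0 i - d)
      (N (xs i) / c + ‖d‖) (fun j => (norm_sub_le _ _).trans (add_le_add
        (hZb' (y j) (by rw [(hy j).1]; exact hS3 (hξ j).1) i) le_rfl)) (fun k => ?_) ε
      fun j => (hy j).2
    have h3 := (h2 (i, k)).sub (tendsto_const_nhds (x := ef e k d))
    rw [map_sub]
    refine h3.congr fun j => ?_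
    rw [map_sub]
    rfl
  -- the key
  have hkey : ∀ (i : ℕ) (ε : ℝ), 0 < ε → ∃ D : Set X, D.Finite ∧ ∀ y, kap e y ∈ S →
      ∃ d ∈ D, N (y i - d) ≤ ε := by
    intro i ε hε
    have : CompactSpace S := isCompact_iff_compactSpace.mp hScomp
    have : Nonempty S := hS2.to_subtype
    obtain ⟨n, hn⟩ := nonempty_interior_of_iUnion_of_closed (X := S)
      (f := fun n : ℕ => Subtype.val ⁻¹' {ξ | ξ ∈ S ∧ ∃ y, kap e y = ξ ∧ N (y i - xs n) ≤ ε})
      (fun n => (hA i (xs n) ε).preimage continuous_subtype_val) (by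
        rw [Set.eq_univ_iff_forall]
        rintro ⟨ξ, hξ⟩
        obtain ⟨y, hy⟩ := hZy ξ (hS3 hξ)
        obtain ⟨n, hn⟩ := (TopologicalSpace.denseRange_denseSeq X).exists_dist_lt (y i)
          (show 0 < ε / C by positivity)
        rw [dist_eq_norm] at hn
        refine Set.mem_iUnion.mpr ⟨n, hξ, y, hy, (hN _).2.trans ?_⟩
        have h1 := mul_le_mul_of_nonneg_left hn.le hC.le
        have h2 : C * (ε / C) = ε := by field_simp
        rw [h2] at h1
        exact h1)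
    obtain ⟨⟨ξ0, hξ0⟩, hn⟩ := hn
    obtain ⟨U, hU1, hU2, hU3⟩ := mem_interior.mp hn
    obtain ⟨O, hO1, hO2⟩ := isOpen_induced_iff.mp hU2
    have hO3 : ∀ ξ ∈ S, ξ ∈ O → ∃ y, kap e y = ξ ∧ N (y i - xs n) ≤ ε := by
      intro ξ hξ hξO
      have h1 : (⟨ξ, hξ⟩ : S) ∈ U := by rw [← hO2]; exact hξO
      exact (hU1 h1).2
    have hξ0O : ξ0 ∈ O := by
      have h1 : (⟨ξ0, hξ0⟩ : S) ∈ Subtype.val ⁻¹' O := by rw [hO2]; exact hU3
      exact h1
    -- the points whose orbits avoid `O`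
    have hcl : ∀ g, IsClosed {ξ | ξ ∈ S ∧ ∃ y, kap e y = ξ ∧ kap e (actS Φ g y) ∈ Oᶜ} :=
      fun g => hpull S hS1 hS3 Oᶜ hO1.isClosed_compl g
    have hempty : (S ∩ ⋂ g : G, {ξ | ξ ∈ S ∧ ∃ y, kap e y = ξ ∧
        kap e (actS Φ g y) ∈ Oᶜ}) = ∅ := by
      by_contra hne
      rw [← Ne, ← Set.nonempty_iff_ne_empty] at hne
      set S' := S ∩ ⋂ g : G, {ξ | ξ ∈ S ∧ ∃ y, kap e y = ξ ∧ kap e (actS Φ g y) ∈ Oᶜ} with hS'
      have hmem : ∀ y, kap e y ∈ S' ↔ kap e y ∈ S ∧ ∀ g, kap e (actS Φ g y) ∈ Oᶜ := by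
        intro y
        rw [hS', Set.mem_inter_iff, Set.mem_iInter]
        refine and_congr_right fun hyS => forall_congr' fun g => ⟨?_, fun h' => ⟨hyS, y, rfl, h'⟩⟩
        rintro ⟨_, y', hy', hy''⟩
        rwa [kap_injective h hX hy'] at hy''
      have hS'𝒮 : S' ∈ 𝒮 := by
        refine ⟨hS1.inter (isClosed_iInter hcl), hne, Set.inter_subset_left.trans hS3,
          fun y hy g => ?_⟩
        rw [hmem] at hy ⊢
        refine ⟨hS4 y hy.1 g, fun g' => ?_⟩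
        rw [← actS_mul]
        exact hy.2 _
      have h1 : S ⊆ S' := hS.le_of_le hS'𝒮 Set.inter_subset_left
      obtain ⟨y, hy⟩ := hZy ξ0 (hS3 hξ0)
      have h2 := h1 hξ0
      rw [← hy, hmem] at h2
      have h3 := h2.2 1
      rw [actS_one, hy] at h3
      exact h3 hξ0O
    obtain ⟨t, ht⟩ := hScomp.elim_finite_subfamily_closed _ hcl hempty
    refine ⟨(fun g : G => (Φ g⁻¹ : X ≃ₗ[ℝ] X) (xs n)) '' (t : Set G), t.finite_toSet.image _,
      fun y hy => ?_⟩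
    have h1 : ∃ g ∈ t, kap e (actS Φ g y) ∈ O := by
      by_contra hcon
      push Not at hcon
      have h2 : kap e y ∈ (S ∩ ⋂ g ∈ t, {ξ | ξ ∈ S ∧ ∃ y, kap e y = ξ ∧
          kap e (actS Φ g y) ∈ Oᶜ}) := by
        refine ⟨hy, ?_⟩
        rw [Set.mem_iInter₂]
        exact fun g hg => ⟨hy, y, rfl, hcon g hg⟩
      rw [ht] at h2
      exact h2
    obtain ⟨g, hg, hgO⟩ := h1
    obtain ⟨y', hy', hy''⟩ := hO3 _ (hS4 y hy g) hgO
    rw [kap_injective h hX hy'] at hy''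
    refine ⟨_, ⟨g, hg, rfl⟩, ?_⟩
    rw [← isom_apply (Φ g)]
    beta_reduce
    rw [map_sub, ← isom_mul, ← map_mul, mul_inv_cancel, map_one, isom_one]
    exact hy''
  -- the point is zero
  obtain ⟨ξ, hξ⟩ := hS2
  obtain ⟨y, hy⟩ := hZy ξ (hS3 hξ)
  have hy0 : ∀ i, y i = 0 := by
    intro i
    refine hTB _ fun ε hε => ?_
    obtain ⟨D, hD, hD2⟩ := hkey i ε hε
    exact ⟨D, hD, fun g => hD2 _ (hS4 y (by rw [hy]; exact hξ) g)⟩
  have hξ0 : ξ = 0 := by
    rw [← hy]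
    funext p
    simp only [kap, hy0, map_zero, Pi.zero_apply]
  obtain ⟨γ, hγ⟩ := hZseq ξ (hS3 hξ)
  rw [hξ0, tendsto_pi_nhds] at hγ
  refine ⟨γ, fun x k => ?_⟩
  rw [Metric.tendsto_atTop]
  intro δ hδ
  obtain ⟨i, hi⟩ := (TopologicalSpace.denseRange_denseSeq X).exists_dist_lt x
    (show 0 < δ / (4 * (C / c)) by positivity)
  rw [dist_eq_norm] at hi
  have h1 := hγ (i, k)
  rw [Metric.tendsto_atTop] at h1
  obtain ⟨n0, hn0⟩ := h1 (δ / 4) (by positivity)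
  refine ⟨n0, fun n hn => ?_⟩
  have h2 := hn0 n hn
  rw [Pi.zero_apply, dist_zero_right, Real.norm_eq_abs] at h2
  rw [dist_zero_right, Real.norm_eq_abs]
  have h3 : |ef e k ((Φ (γ n) : X ≃ₗ[ℝ] X) x) - ef e k ((Φ (γ n) : X ≃ₗ[ℝ] X) (xs i))| ≤
      δ / 4 := by
    rw [← map_sub, ← map_sub]
    refine (abs_ef_le h hX k _).trans ((isom_norm_le hc hN _ _).trans ?_)
    have h4 := mul_le_mul_of_nonneg_left hi.le (show 0 ≤ C / c by positivity)
    have h5 : C / c * (δ / (4 * (C / c))) = δ / 4 := by field_simp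
    rw [h5] at h4
    exact h4
  have h4 : |ef e k ((Φ (γ n) : X ≃ₗ[ℝ] X) (xs i))| < δ / 4 := h2
  rw [abs_le] at h3
  rw [abs_lt] at h4 ⊢
  constructor <;> linarith [h3.1, h3.2, h4.1, h4.2]

end Minimal

end Pool.Agent.Comb7f333f
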