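import Pool.Agent.Lib.MP_7f333f_an.Main

set_option autoImplicit false
set_option linter.unusedSectionVars false

/-!
A central involution outside of an open subgroup of finite index acts as `-1` in a continuous
orthogonal representation of finite dimension.
-/

namespace Pool.Agent.Comb7f333f

open Matrix

section Rep

variable {G Q : Type*} [Group G] [MulAction G Q] [Fintype Q] [DecidableEq Q]

/-- The matrices of the action. -/
def pMat (Q : Type*) [MulAction G Q] [Fintype Q] [DecidableEq Q] (g : G) : Matrix Q Q ℝ :=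
  fun q r => if g • r = q then 1 else 0

theorem pMat_mul (g g' : G) : pMat Q g * pMat Q g' = pMat Q (g * g') := by
  ext q r
  rw [Matrix.mul_apply]
  simp only [pMat, mul_ite, mul_one, mul_zero]
  rw [Finset.sum_ite_eq]
  simp [mul_smul]

theorem pMat_one : pMat Q (1 : G) = 1 := by
  ext q r
  simp only [pMat, one_smul, Matrix.one_apply]
  by_cases h : r = q
  · rw [if_pos h, if_pos h.symm]
  · rw [if_neg h, if_neg fun h' => h h'.symm]

theorem pMat_transpose (g : G) : (pMat Q g)ᵀ = pMat Q g⁻¹ := by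
  ext q r
  simp only [pMat, Matrix.transpose_apply]
  by_cases h : g • q = r
  · rw [if_pos h, if_pos (by rw [← h, inv_smul_smul])]
  · rw [if_neg h, if_neg fun h' => h (by rw [← h', smul_inv_smul])]

/-- A group acting on a finite set, with a central involution without fixed points. -/
theorem exists_rep [Nonempty Q] (z : G) (hz : ∀ g : G, g * z = z * g) (hzz : z * z = 1)
    (hfree : ∀ q : Q, z • q ≠ q) :
    ∃ (m : ℕ) (_ : 0 < m) (σ : G →* Matrix.orthogonalGroup (Fin m) ℝ),
      (∀ g : G, (∀ q : Q, g • q = q) → σ g = 1) ∧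
      (σ z : Matrix (Fin m) (Fin m) ℝ) = -1 := by
  classical
  have hz2 : ∀ q : Q, z • z • q = q := fun q => by rw [← mul_smul, hzz, one_smul]
  set enc : Q ≃ Fin (Fintype.card Q) := Fintype.equivFin Q with henc
  set T : Type _ := {q : Q // enc q < enc (z • q)} with hT
  have hT1 : ∀ q : Q, ¬ (enc q < enc (z • q)) → enc (z • q) < enc (z • z • q) := by
    intro q hq
    rw [hz2]
    exact lt_of_le_of_ne (not_lt.mp hq) fun h => hfree q (enc.injective h)
  have hT2 : ∀ t : T, ¬ enc (z • (t : Q)) < enc (z • z • (t : Q)) := by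
    intro t h
    rw [hz2] at h
    exact lt_asymm t.2 h
  set m := Fintype.card T with hm
  set τ : Fin m ≃ T := (Fintype.equivFin T).symm with hτ
  have hm0 : 0 < m := by
    rw [hm, Fintype.card_pos_iff]
    obtain ⟨q⟩ := ‹Nonempty Q›
    by_cases hq : enc q < enc (z • q)
    · exact ⟨⟨q, hq⟩⟩
    · exact ⟨⟨z • q, hT1 q hq⟩⟩
  set W : Matrix Q (Fin m) ℝ := fun q i => (if q = (τ i : Q) then 1 else 0) -
    (if q = z • (τ i : Q) then 1 else 0) with hW
  have hτz : ∀ i j, (τ i : Q) ≠ z • (τ j : Q) := by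
    intro i j h
    have h1 := (τ i).2
    rw [h] at h1
    exact hT2 (τ j) h1
  have hττ : ∀ i j, ((τ i : Q) = (τ j : Q) ↔ i = j) := fun i j =>
    ⟨fun h => τ.injective (Subtype.ext h), fun h => by rw [h]⟩
  have hPW : pMat Q z * W = -W := by
    ext q i
    rw [Matrix.mul_apply]
    simp only [pMat, ite_mul, one_mul, zero_mul]
    have h1 : ∀ r : Q, (if z • r = q then W r i else 0) = if r = z • q then W r i else 0 := by
      intro r
      by_cases h : z • r = q
      · rw [if_pos h, if_pos (by rw [← h, hz2])]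
      · rw [if_neg h, if_neg fun h' => h (by rw [h', hz2])]
    rw [Finset.sum_congr rfl fun r _ => h1 r, Finset.sum_ite_eq', if_pos (Finset.mem_univ _),
      Matrix.neg_apply]
    simp only [hW]
    have h2 : (z • q = (τ i : Q)) ↔ (q = z • (τ i : Q)) :=
      ⟨fun h => by rw [← h, hz2], fun h => by rw [h, hz2]⟩
    have h3 : (z • q = z • (τ i : Q)) ↔ (q = (τ i : Q)) :=
      ⟨fun h => by rw [← hz2 q, h, hz2], fun h => by rw [h]⟩
    simp only [h2, h3]
    ring
  have hWW : Wᵀ * W = (2 : ℝ) • 1 := by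
    ext i j
    rw [Matrix.mul_apply, Matrix.smul_apply, Matrix.one_apply]
    simp only [Matrix.transpose_apply]
    have h1 : ∀ q : Q, W q i * W q j = (if q = (τ i : Q) then W q j else 0) -
        (if q = z • (τ i : Q) then W q j else 0) := by
      intro q
      simp only [hW]
      split_ifs <;> ring
    rw [Finset.sum_congr rfl fun q _ => h1 q, Finset.sum_sub_distrib, Finset.sum_ite_eq',
      Finset.sum_ite_eq', if_pos (Finset.mem_univ _), if_pos (Finset.mem_univ _)]
    simp only [hW]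
    have h2 : (z • (τ i : Q) = (τ j : Q)) ↔ False :=
      ⟨fun h => hτz j i h.symm, False.elim⟩
    have h3 : (z • (τ i : Q) = z • (τ j : Q)) ↔ i = j :=
      ⟨fun h => (hττ i j).mp (by rw [← hz2 (τ i : Q), h, hz2]), fun h => by rw [h]⟩
    have h4 : ((τ i : Q) = z • (τ j : Q)) ↔ False := ⟨fun h => hτz i j h, False.elim⟩
    simp only [h2, h3, h4, hττ, if_false]
    by_cases hij : i = j
    · simp [hij]; norm_num
    · simp [hij]
  have hWW' : W * Wᵀ = 1 - pMat Q z := by
    ext q r
    rw [Matrix.mul_apply, Matrix.sub_apply, Matrix.one_apply]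
    simp only [Matrix.transpose_apply]
    by_cases hq : enc q < enc (z • q)
    · obtain ⟨i0, hi0⟩ := τ.surjective ⟨q, hq⟩
      have hi0' : (τ i0 : Q) = q := by rw [hi0]
      have h1 : ∀ i, W q i = if i = i0 then 1 else 0 := by
        intro i
        simp only [hW]
        rw [← hi0', if_neg (hτz i0 i), sub_zero]
        by_cases h : i = i0
        · rw [if_pos h, if_pos (by rw [h])]
        · rw [if_neg h, if_neg fun h' => h ((hττ i0 i).mp h').symm]
      simp only [h1, ite_mul, one_mul, zero_mul]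
      rw [Finset.sum_ite_eq', if_pos (Finset.mem_univ _)]
      simp only [hW, pMat, hi0']
      have h2 : (r = q) ↔ (q = r) := eq_comm
      have h3 : (r = z • q) ↔ (z • r = q) :=
        ⟨fun h => by rw [h, hz2], fun h => by rw [← h, hz2]⟩
      simp only [h2, h3]
    · obtain ⟨i0, hi0⟩ := τ.surjective ⟨z • q, hT1 q hq⟩
      have hi0' : (τ i0 : Q) = z • q := by rw [hi0]
      have hq' : q = z • (τ i0 : Q) := by rw [hi0', hz2]
      have h1 : ∀ i, W q i = if i = i0 then -1 else 0 := by
        intro i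
        simp only [hW]
        rw [hq', if_neg fun h => hτz i i0 h.symm, zero_sub]
        by_cases h : i = i0
        · rw [if_pos h, if_pos (by rw [h])]
        · rw [if_neg h, if_neg, neg_zero]
          intro h'
          exact h ((hττ i0 i).mp (by rw [← hz2 (τ i0 : Q), h', hz2])).symm
      simp only [h1, ite_mul, neg_mul, one_mul, zero_mul]
      rw [Finset.sum_ite_eq', if_pos (Finset.mem_univ _)]
      simp only [hW, pMat, hi0', hz2]
      have h2 : (r = q) ↔ (q = r) := eq_comm
      have h3 : (r = z • q) ↔ (z • r = q) :=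
        ⟨fun h => by rw [h, hz2], fun h => by rw [← h, hz2]⟩
      simp only [h2, h3]
      ring
  set A : G → Matrix (Fin m) (Fin m) ℝ := fun g => (2⁻¹ : ℝ) • (Wᵀ * pMat Q g * W) with hA
  have hA1 : A 1 = 1 := by
    simp only [hA]
    rw [pMat_one, Matrix.mul_one, hWW, smul_smul]
    norm_num
  have hAmul : ∀ g g', A g * A g' = A (g * g') := by
    intro g g'
    simp only [hA]
    rw [Matrix.smul_mul, Matrix.mul_smul, smul_smul]
    have h1 : Wᵀ * pMat Q g * W * (Wᵀ * pMat Q g' * W) =
        Wᵀ * pMat Q g * (W * Wᵀ) * (pMat Q g' * W) := by simp only [Matrix.mul_assoc]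
    have h2 : Wᵀ * pMat Q g * (W * Wᵀ) * (pMat Q g' * W) =
        (2 : ℝ) • (Wᵀ * pMat Q (g * g') * W) := by
      rw [hWW', Matrix.mul_sub, Matrix.sub_mul, Matrix.mul_one]
      have h3 : Wᵀ * pMat Q g * pMat Q z * (pMat Q g' * W) =
          -(Wᵀ * pMat Q (g * g') * W) := by
        calc Wᵀ * pMat Q g * pMat Q z * (pMat Q g' * W)
            = Wᵀ * (pMat Q g * (pMat Q z * pMat Q g')) * W := by simp only [Matrix.mul_assoc]
          _ = Wᵀ * (pMat Q (g * g') * pMat Q z) * W := by
              rw [pMat_mul, pMat_mul, pMat_mul, ← hz g', mul_assoc]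
          _ = Wᵀ * pMat Q (g * g') * (pMat Q z * W) := by simp only [Matrix.mul_assoc]
          _ = -(Wᵀ * pMat Q (g * g') * W) := by rw [hPW, Matrix.mul_neg]
      have h4 : Wᵀ * pMat Q g * (pMat Q g' * W) = Wᵀ * pMat Q (g * g') * W := by
        rw [← pMat_mul]; simp only [Matrix.mul_assoc]
      rw [h3, h4, sub_neg_eq_add, ← two_smul ℝ]
    rw [h1, h2, smul_smul]
    norm_num
  have hAt : ∀ g, (A g)ᵀ = A g⁻¹ := by
    intro g
    simp only [hA]
    rw [Matrix.transpose_smul, Matrix.transpose_mul, Matrix.transpose_mul,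
      Matrix.transpose_transpose, pMat_transpose, Matrix.mul_assoc]
  have hAo : ∀ g, A g ∈ Matrix.orthogonalGroup (Fin m) ℝ := by
    intro g
    rw [Matrix.mem_orthogonalGroup_iff]
    rw [hAt, hAmul, mul_inv_cancel, hA1]
  refine ⟨m, hm0, ⟨⟨fun g => ⟨A g, hAo g⟩, Subtype.ext hA1⟩, fun g g' =>
    Subtype.ext (hAmul g g').symm⟩, fun g hg => ?_, ?_⟩
  · refine Subtype.ext ?_
    show A g = 1
    have h1 : pMat Q g = pMat Q (1 : G) := by
      ext q r
      simp only [pMat, hg r, one_smul]
    rw [← hA1]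
    simp only [hA, h1]
  · show A z = -1
    simp only [hA]
    rw [Matrix.mul_assoc, hPW, Matrix.mul_neg, hWW, smul_neg, smul_smul]
    norm_num

end Rep

/-- A central involution outside of an open subgroup of finite index. -/
theorem exists_rep_of_finiteIndex {G : Subgroup (Equiv.Perm ℕ)} (z : G)
    (hz : ∀ g : G, g * z = z * g) (hzz : z * z = 1) (L : Subgroup G) (hL : L.FiniteIndex)
    (hL2 : ∃ F : Finset ℕ, ∀ g : G, (∀ n ∈ F, (g : Equiv.Perm ℕ) n = n) → g ∈ L)
    (hzL : z ∉ L) :
    ∃ (m : ℕ) (_ : 0 < m) (σ : G →* Matrix.orthogonalGroup (Fin m) ℝ),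
      (∃ F : Finset ℕ, ∀ g : G, (∀ n ∈ F, (g : Equiv.Perm ℕ) n = n) → σ g = 1) ∧
      (σ z : Matrix (Fin m) (Fin m) ℝ) = -1 := by
  classical
  have : Fintype (G ⧸ L) := Fintype.ofFinite _
  obtain ⟨m, hm, σ, hσ1, hσ2⟩ := exists_rep (Q := G ⧸ L) z hz hzz (by
    intro q hq
    induction q using QuotientGroup.induction_on with
    | H a =>
      rw [MulAction.Quotient.smul_coe, smul_eq_mul, ← hz a] at hq
      have h1 := QuotientGroup.eq.mp hq
      have h2 : (a * z)⁻¹ * a = z⁻¹ := by group
      rw [h2] at h1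
      exact hzL (by simpa using L.inv_mem h1))
  obtain ⟨F, hF⟩ := hL2
  refine ⟨m, hm, σ, ⟨Finset.univ.biUnion fun q : G ⧸ L => F.image fun n =>
    ((q.out : G) : Equiv.Perm ℕ) n, fun g hg => hσ1 g fun q => ?_⟩, hσ2⟩
  have h1 : q.out⁻¹ * g * q.out ∈ L := by
    refine hF _ fun n hn => ?_
    show ((q.out : G) : Equiv.Perm ℕ)⁻¹ ((g : Equiv.Perm ℕ) (((q.out : G) : Equiv.Perm ℕ) n)) = n
    rw [hg _ (Finset.mem_biUnion.mpr ⟨q, Finset.mem_univ q, Finset.mem_image_of_mem _ hn⟩)]
    simp
  conv_lhs => rw [← QuotientGroup.out_eq' q]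
  conv_rhs => rw [← QuotientGroup.out_eq' q]
  rw [MulAction.Quotient.smul_mk, smul_eq_mul, QuotientGroup.eq]
  have h2 := L.inv_mem h1
  rw [show (q.out⁻¹ * g * q.out)⁻¹ = (g * q.out)⁻¹ * q.out by group] at h2
  exact h2

end Pool.Agent.Comb7f333f
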