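import Pool.Agent.Lib.MP_7f333f_an.Neg.Coord

set_option autoImplicit false
set_option linter.unusedSectionVars false

/-!
Bounded sequences with convergent coordinates in a combinatorial space: convex combinations with
small norms, lower semicontinuity of equivalent norms, and continuity of the functionals.
-/

namespace Pool.Agent.Comb7f333f

open Filter Topology

theorem IsConv.mapDomain {n : ℕ} {c : ℕ →₀ ℝ} (hc : IsConv n c) (φ : ℕ → ℕ)
    (hφ : ∀ i, i ≤ φ i) : IsConv n (Finsupp.mapDomain φ c) := by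
  classical
  have happ : ∀ l, Finsupp.mapDomain φ c l = ∑ i ∈ c.support, if φ i = l then c i else 0 := by
    intro l
    rw [Finsupp.mapDomain, Finsupp.sum, Finsupp.finsetSum_apply]
    exact Finset.sum_congr rfl fun i _ => Finsupp.single_apply
  refine ⟨fun l => ?_, ?_, fun l hl => ?_⟩
  · rw [happ]
    refine Finset.sum_nonneg fun i _ => ?_
    split_ifs
    · exact hc.nonneg i
    · exact le_rfl
  · rw [mass, Finsupp.linearCombination_mapDomain]
    exact hc.mass_eq
  · rw [happ]
    refine Finset.sum_eq_zero fun i hi => ?_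
    rw [if_neg]
    rintro rfl
    have h1 := hc.tail i (lt_of_le_of_lt (hφ i) hl)
    exact Finsupp.mem_support_iff.mp hi h1

/-- Seminorms of convex combinations. -/
theorem seminorm_conv_le {X : Type*} [AddCommGroup X] [Module ℝ X] (N : Seminorm ℝ X) {n : ℕ}
    {c : ℕ →₀ ℝ} (hc : IsConv n c) (u : ℕ → X) (r : ℝ) (hr : ∀ j ∈ c.support, N (u j) ≤ r) :
    N (Finsupp.linearCombination ℝ u c) ≤ r := by
  classical
  rw [Finsupp.linearCombination_apply, Finsupp.sum]
  have h1 : ∀ s : Finset ℕ, s ⊆ c.support → N (∑ l ∈ s, c l • u l) ≤ ∑ l ∈ s, c l * r := by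
    intro s
    induction s using Finset.induction_on with
    | empty => intro _; simp
    | insert t s ht ih =>
      intro hs
      rw [Finset.sum_insert ht, Finset.sum_insert ht]
      refine (map_add_le_add N _ _).trans (add_le_add ?_ (ih fun x hx =>
        hs (Finset.mem_insert_of_mem hx)))
      rw [map_smul_eq_mul, Real.norm_eq_abs, abs_of_nonneg (hc.nonneg t)]
      exact mul_le_mul_of_nonneg_left (hr t (hs (Finset.mem_insert_self _ _))) (hc.nonneg t)
  refine (h1 c.support subset_rfl).trans ?_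
  rw [← Finset.sum_mul, ← mass_eq_sum, hc.mass_eq, one_mul]

theorem conv_const {X : Type*} [AddCommGroup X] [Module ℝ X] {n : ℕ}
    {c : ℕ →₀ ℝ} (hc : IsConv n c) (u : X) :
    Finsupp.linearCombination ℝ (fun _ => u) c = u := by
  rw [Finsupp.linearCombination_apply, Finsupp.sum, ← Finset.sum_smul, ← mass_eq_sum, hc.mass_eq,
    one_smul]

section Weak

variable {𝓕 : Set (Finset ℕ)} {X : Type*} [NormedAddCommGroup X] [NormedSpace ℝ X] {e : ℕ → X}

variable (h : IsRegular 𝓕) (hX : IsCombSpace 𝓕 e)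

include h hX

/-- Bounded sequences whose coordinates tend to zero have small convex combinations. -/
theorem exists_conv_small (w : ℕ → X) (B : ℝ) (hB : ∀ j, ‖w j‖ ≤ B)
    (hw : ∀ k, Tendsto (fun j => ef e k (w j)) atTop (𝓝 0)) (ε : ℝ) (hε : 0 < ε) (n0 : ℕ) :
    ∃ c, IsConv n0 c ∧ ‖Finsupp.linearCombination ℝ w c‖ < ε := by
  classical
  have happ : ∀ n : ℕ, ∃ l, n ≤ l ∧ ∃ b : ℕ →₀ ℝ, (∀ k ∈ b.support, n < k) ∧
      ‖w l - Finsupp.linearCombination ℝ e b‖ ≤ ε / 2 := by
    intro n
    have hη : 0 < (ε / 2) / (4 * (n + 1 : ℝ)) := by positivity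
    have h1 : ∀ᶠ j in atTop, ∀ k ∈ Finset.range (n + 1),
        |ef e k (w j)| ≤ (ε / 2) / (4 * (n + 1)) := by
      rw [Filter.eventually_all_finset]
      intro k _
      have h2 := (hw k).abs
      rw [abs_zero] at h2
      exact (h2.eventually_lt_const hη).mono fun j hj => hj.le
    obtain ⟨l, hl, hnl⟩ := (h1.and (eventually_ge_atTop n)).exists
    obtain ⟨b, hb⟩ := exists_tail_approx h hX n (ε / 2) (by positivity) (w l)
      (fun k hk => hl k (Finset.mem_range.mpr (by omega)))
    exact ⟨l, hnl, b, hb⟩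
  choose φ hφ b hb1 hb2 using happ
  have hbn : ∀ n, combNorm 𝓕 (b n) ≤ B + ε / 2 := by
    intro n
    rw [← hX.norm_eq]
    have h2 := norm_sub_norm_le (Finsupp.linearCombination ℝ e (b n)) (w (φ n))
    rw [norm_sub_rev (Finsupp.linearCombination ℝ e (b n)) (w (φ n))] at h2
    have h3 := hb2 n
    have h4 := hB (φ n)
    linarith
  obtain ⟨d, hd, hdn⟩ := exists_small_conv h b _ hbn
    (fun n => ⟨n, fun m hm k hk => lt_of_le_of_lt hm (hb1 m k hk)⟩) (ε / 2) (by positivity) n0
  refine ⟨Finsupp.mapDomain φ d, hd.mapDomain φ hφ, ?_⟩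
  rw [Finsupp.linearCombination_mapDomain]
  have h7 : Finsupp.linearCombination ℝ (w ∘ φ) d =
      Finsupp.linearCombination ℝ (fun n => w (φ n) - Finsupp.linearCombination ℝ e (b n)) d +
      Finsupp.linearCombination ℝ e (Finsupp.linearCombination ℝ b d) := by
    have h8 : Finsupp.linearCombination ℝ e (Finsupp.linearCombination ℝ b d) =
        Finsupp.linearCombination ℝ (fun n => Finsupp.linearCombination ℝ e (b n)) d := by
      rw [← LinearMap.comp_apply]
      congr 1
      ext n
      simp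
    rw [h8, Finsupp.linearCombination_apply, Finsupp.linearCombination_apply,
      Finsupp.linearCombination_apply, Finsupp.sum, Finsupp.sum, Finsupp.sum,
      ← Finset.sum_add_distrib]
    exact Finset.sum_congr rfl fun n _ => by
      rw [← smul_add, sub_add_cancel, Function.comp_apply]
  have h8 : ‖Finsupp.linearCombination ℝ
      (fun n => w (φ n) - Finsupp.linearCombination ℝ e (b n)) d‖ ≤ ε / 2 :=
    seminorm_conv_le (normSeminorm ℝ X) hd _ _ fun n _ => hb2 n
  rw [← hX.norm_eq] at hdn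
  rw [h7]
  refine (norm_add_le _ _).trans_lt ?_
  linarith

theorem eq_zero_of_ef (u : X) (hu : ∀ k, ef e k u = 0) : u = 0 := by
  by_contra hne
  have h1 : 0 < ‖u‖ := norm_pos_iff.mpr hne
  obtain ⟨c, hc, hc2⟩ := exists_conv_small h hX (fun _ => u) ‖u‖ (fun _ => le_rfl)
    (fun k => by rw [hu k]; exact tendsto_const_nhds) ‖u‖ h1 0
  rw [conv_const hc] at hc2
  exact lt_irrefl _ hc2

theorem eq_of_ef (u u' : X) (hu : ∀ k, ef e k u = ef e k u') : u = u' := by
  rw [← sub_eq_zero]
  exact eq_zero_of_ef h hX _ fun k => by rw [map_sub, hu k, sub_self]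

/-- Equivalent norms are lower semicontinuous for the convergence of coordinates. -/
theorem seminorm_le_of_tendsto {N : Seminorm ℝ X} {C : ℝ} (hC : 0 < C) (hN : ∀ x, N x ≤ C * ‖x‖)
    (u : ℕ → X) (u0 : X) (B : ℝ) (hB : ∀ j, ‖u j‖ ≤ B)
    (hu : ∀ k, Tendsto (fun j => ef e k (u j)) atTop (𝓝 (ef e k u0))) (r : ℝ)
    (hr : ∀ j, N (u j) ≤ r) : N u0 ≤ r := by
  refine le_of_forall_pos_le_add fun δ hδ => ?_
  obtain ⟨c, hc, hc2⟩ := exists_conv_small h hX (fun j => u j - u0) (B + ‖u0‖)
    (fun j => (norm_sub_le _ _).trans (add_le_add (hB j) le_rfl))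
    (fun k => by
      have h1 := (hu k).sub (tendsto_const_nhds (x := ef e k u0))
      rw [sub_self] at h1
      refine h1.congr fun j => ?_
      rw [map_sub]) (δ / C) (by positivity) 0
  have h1 : Finsupp.linearCombination ℝ (fun j => u j - u0) c =
      Finsupp.linearCombination ℝ u c - u0 := by
    conv_rhs => rw [← conv_const hc u0]
    rw [Finsupp.linearCombination_apply, Finsupp.linearCombination_apply,
      Finsupp.linearCombination_apply, Finsupp.sum, Finsupp.sum, Finsupp.sum,
      ← Finset.sum_sub_distrib]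
    exact Finset.sum_congr rfl fun n _ => by rw [smul_sub]
  rw [h1] at hc2
  have h2 := (hN (Finsupp.linearCombination ℝ u c - u0)).trans
    (mul_le_mul_of_nonneg_left hc2.le hC.le)
  have h3 : C * (δ / C) = δ := by field_simp
  rw [h3] at h2
  have h4 := seminorm_conv_le N hc u r fun j _ => hr j
  have h5 := map_sub_le_add N (Finsupp.linearCombination ℝ u c)
    (Finsupp.linearCombination ℝ u c - u0)
  rw [sub_sub_cancel] at h5
  linarith

theorem tendsto_functional_of_ef (w : ℕ → X) (B : ℝ) (hB : ∀ j, ‖w j‖ ≤ B)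
    (hw : ∀ k, Tendsto (fun j => ef e k (w j)) atTop (𝓝 0)) (φ : X →L[ℝ] ℝ) :
    Tendsto (fun j => φ (w j)) atTop (𝓝 0) := by
  classical
  by_contra hcon
  rw [Metric.tendsto_atTop] at hcon
  push Not at hcon
  obtain ⟨ε, hε, hf⟩ := hcon
  choose f hf1 hf2 using hf
  simp only [dist_zero_right, Real.norm_eq_abs] at hf2
  have hsg : ∀ x : ℝ, |(SignType.sign x : ℝ)| ≤ 1 := by
    intro x
    rcases lt_trichotomy x 0 with hx | hx | hx
    · rw [sign_neg hx]; simp
    · rw [hx]; simp
    · rw [sign_pos hx]; simp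
  have hft : Tendsto f atTop atTop := tendsto_atTop_mono hf1 tendsto_id
  obtain ⟨c, hc, hcn⟩ := exists_conv_small h hX
    (fun l => ((SignType.sign (φ (w (f l))) : ℝ)) • w (f l)) B
    (fun j => by
      rw [norm_smul, Real.norm_eq_abs]
      have h1 := hB (f j)
      have h2 := hsg (φ (w (f j)))
      have h3 := norm_nonneg (w (f j))
      nlinarith)
    (fun k => by
      have h1 := (hw k).comp hft
      rw [tendsto_zero_iff_abs_tendsto_zero] at h1 ⊢
      refine squeeze_zero (fun _ => abs_nonneg _) (fun l => ?_) h1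
      rw [Function.comp_apply, map_smul, smul_eq_mul, abs_mul, Function.comp_apply]
      have h2 := hsg (φ (w (f l)))
      have h3 := abs_nonneg (ef e k (w (f l)))
      exact (mul_le_mul_of_nonneg_right h2 h3).trans_eq (one_mul _)) (ε / (‖φ‖ + 1))
    (by positivity) 0
  have h1 : ∀ l, ε ≤ (φ : X →ₗ[ℝ] ℝ) (((SignType.sign (φ (w (f l))) : ℝ)) • w (f l)) := by
    intro l
    simp only [ContinuousLinearMap.coe_coe, map_smul, smul_eq_mul]
    rw [sign_mul_self]
    exact hf2 l
  have h2 := le_of_isConv (φ : X →ₗ[ℝ] ℝ) _ ε h1 hc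
  have h3 : (φ : X →ₗ[ℝ] ℝ) (Finsupp.linearCombination ℝ
      (fun l => ((SignType.sign (φ (w (f l))) : ℝ)) • w (f l)) c) ≤ ‖φ‖ * (ε / (‖φ‖ + 1)) := by
    simp only [ContinuousLinearMap.coe_coe]
    refine (le_abs_self _).trans ?_
    rw [← Real.norm_eq_abs]
    exact (φ.le_opNorm _).trans (mul_le_mul_of_nonneg_left hcn.le (norm_nonneg _))
  have h4 : ‖φ‖ * (ε / (‖φ‖ + 1)) < ε := by
    rw [mul_div_assoc', div_lt_iff₀ (by positivity)]
    nlinarith [norm_nonneg φ]
  linarith

/-- Functionals are continuous for the convergence of coordinates of bounded sequences. -/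
theorem tendsto_functional_of_ef' (u : ℕ → X) (u0 : X) (B : ℝ) (hB : ∀ j, ‖u j‖ ≤ B)
    (hu : ∀ k, Tendsto (fun j => ef e k (u j)) atTop (𝓝 (ef e k u0))) (φ : X →L[ℝ] ℝ) :
    Tendsto (fun j => φ (u j)) atTop (𝓝 (φ u0)) := by
  have h1 := tendsto_functional_of_ef h hX (fun j => u j - u0) (B + ‖u0‖)
    (fun j => (norm_sub_le _ _).trans (add_le_add (hB j) le_rfl))
    (fun k => by
      have h1 := (hu k).sub (tendsto_const_nhds (x := ef e k u0))
      rw [sub_self] at h1
      refine h1.congr fun j => ?_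
      rw [map_sub]) φ
  have h2 := h1.add (tendsto_const_nhds (x := φ u0))
  rw [zero_add] at h2
  refine h2.congr fun j => ?_
  rw [map_sub, sub_add_cancel]

end Weak

end Pool.Agent.Comb7f333f
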