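import Pool.Agent.Lib.MP_7f333f_an.RP.Stages
import Pool.Agent.Lib.MP_7f333f_an.RP.Weak

set_option autoImplicit false
set_option linter.unusedSectionVars false

/-!
Order invariant families indexed by the rational numbers in a combinatorial space: there is a cut
at which all the coordinates are continuous, and therefore the convex combinations of nested
differences can be small.
-/

namespace Pool.Agent.Comb7f333f

open Filter Topology

section Pairs

variable {X : Type*} [NormedAddCommGroup X] [NormedSpace ℝ X] {N : Seminorm ℝ X} {v : ℚ → X}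

theorem OrdInv.pair (hv : OrdInv N v) {ι : Type} (s : Finset ι) (l r l' r' : ι → ℚ)
    (a b : ι → ℝ) (h1 : ∀ i ∈ s, ∀ j ∈ s, (l i < l j ↔ l' i < l' j))
    (h2 : ∀ i ∈ s, ∀ j ∈ s, (l i < r j ↔ l' i < r' j))
    (h3 : ∀ i ∈ s, ∀ j ∈ s, (r i < l j ↔ r' i < l' j))
    (h4 : ∀ i ∈ s, ∀ j ∈ s, (r i < r j ↔ r' i < r' j)) :
    N (∑ i ∈ s, (a i • v (l i) + b i • v (r i))) =
      N (∑ i ∈ s, (a i • v (l' i) + b i • v (r' i))) := by
  classical
  have h := hv (ι × Bool) (s ×ˢ Finset.univ) (fun p => if p.2 then l p.1 else r p.1)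
    (fun p => if p.2 then l' p.1 else r' p.1) (fun p => if p.2 then a p.1 else b p.1) (by
      rintro ⟨i, b1⟩ hi ⟨j, b2⟩ hj
      have hi' := (Finset.mem_product.mp hi).1
      have hj' := (Finset.mem_product.mp hj).1
      cases b1 <;> cases b2
      · simpa using h4 i hi' j hj'
      · simpa using h3 i hi' j hj'
      · simpa using h2 i hi' j hj'
      · simpa using h1 i hi' j hj')
  rw [Finset.sum_product, Finset.sum_product] at h
  simpa [Fintype.sum_bool] using h

/-- Two consecutive points for each index. -/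
def Inter (s : Finset ℕ) (l r : ℕ → ℚ) : Prop :=
  (∀ i ∈ s, l i < r i) ∧ ∀ i ∈ s, ∀ j ∈ s, i < j → r i < l j

/-- Nested pairs of points. -/
def Nest (s : Finset ℕ) (l r : ℕ → ℚ) : Prop :=
  (∀ i ∈ s, ∀ j ∈ s, l i < r j) ∧ ∀ i ∈ s, ∀ j ∈ s, i < j → l i < l j ∧ r j < r i

theorem Inter.ll {s : Finset ℕ} {l r : ℕ → ℚ} (hs : Inter s l r) {i j : ℕ} (hi : i ∈ s)
    (hj : j ∈ s) : (l i < l j ↔ i < j) ∧ (l i < r j ↔ i ≤ j) ∧ (r i < l j ↔ i < j) ∧
      (r i < r j ↔ i < j) := by
  have h1 := hs.1 i hi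
  have h2 := hs.1 j hj
  rcases lt_trichotomy i j with hij | rfl | hij
  · have h3 := hs.2 i hi j hj hij
    exact ⟨⟨fun _ => hij, fun _ => by linarith⟩, ⟨fun _ => hij.le, fun _ => by linarith⟩,
      ⟨fun _ => hij, fun _ => by linarith⟩, ⟨fun _ => hij, fun _ => by linarith⟩⟩
  · exact ⟨⟨fun h => absurd h (lt_irrefl _), fun h => absurd h (lt_irrefl _)⟩,
      ⟨fun _ => le_rfl, fun _ => h1⟩, ⟨fun _ => by linarith, fun h => absurd h (lt_irrefl _)⟩,
      ⟨fun h => absurd h (lt_irrefl _), fun h => absurd h (lt_irrefl _)⟩⟩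
  · have h3 := hs.2 j hj i hi hij
    exact ⟨⟨fun _ => by linarith, fun h => by omega⟩, ⟨fun _ => by linarith, fun h => by omega⟩,
      ⟨fun _ => by linarith, fun h => by omega⟩, ⟨fun _ => by linarith, fun h => by omega⟩⟩

theorem Nest.ll {s : Finset ℕ} {l r : ℕ → ℚ} (hs : Nest s l r) {i j : ℕ} (hi : i ∈ s)
    (hj : j ∈ s) : (l i < l j ↔ i < j) ∧ (l i < r j) ∧ (¬ r i < l j) ∧
      (r i < r j ↔ j < i) := by
  have h0 := hs.1 i hi j hj
  have h0' := hs.1 j hj i hi
  rcases lt_trichotomy i j with hij | rfl | hij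
  · have h3 := hs.2 i hi j hj hij
    exact ⟨⟨fun _ => hij, fun _ => h3.1⟩, h0, by linarith, ⟨fun _ => by linarith [h3.2],
      fun h => by omega⟩⟩
  · exact ⟨⟨fun h => absurd h (lt_irrefl _), fun h => absurd h (lt_irrefl _)⟩, h0, by linarith,
      ⟨fun h => absurd h (lt_irrefl _), fun h => absurd h (lt_irrefl _)⟩⟩
  · have h3 := hs.2 j hj i hi hij
    exact ⟨⟨fun _ => by linarith [h3.1], fun h => by omega⟩, h0, by linarith,
      ⟨fun _ => hij, fun _ => h3.2⟩⟩

theorem OrdInv.inter (hv : OrdInv N v) (s : Finset ℕ) {l r l' r' : ℕ → ℚ} (hs : Inter s l r)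
    (hs' : Inter s l' r') (a : ℕ → ℝ) :
    N (∑ i ∈ s, a i • (v (l i) - v (r i))) = N (∑ i ∈ s, a i • (v (l' i) - v (r' i))) := by
  have h := hv.pair s l r l' r' a (fun i => - a i)
    (fun i hi j hj => (hs.ll hi hj).1.trans (hs'.ll hi hj).1.symm)
    (fun i hi j hj => (hs.ll hi hj).2.1.trans (hs'.ll hi hj).2.1.symm)
    (fun i hi j hj => (hs.ll hi hj).2.2.1.trans (hs'.ll hi hj).2.2.1.symm)
    (fun i hi j hj => (hs.ll hi hj).2.2.2.trans (hs'.ll hi hj).2.2.2.symm)
  have h2 : ∀ l r : ℕ → ℚ, ∑ i ∈ s, a i • (v (l i) - v (r i)) =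
      ∑ i ∈ s, (a i • v (l i) + (- a i) • v (r i)) := fun l r =>
    Finset.sum_congr rfl fun i _ => by rw [smul_sub, neg_smul, sub_eq_add_neg]
  rw [h2, h2]
  exact h

theorem OrdInv.nest (hv : OrdInv N v) (s : Finset ℕ) {l r l' r' : ℕ → ℚ} (hs : Nest s l r)
    (hs' : Nest s l' r') (a : ℕ → ℝ) :
    N (∑ i ∈ s, a i • (v (l i) - v (r i))) = N (∑ i ∈ s, a i • (v (l' i) - v (r' i))) := by
  have h := hv.pair s l r l' r' a (fun i => - a i)
    (fun i hi j hj => (hs.ll hi hj).1.trans (hs'.ll hi hj).1.symm)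
    (fun i hi j hj => ⟨fun _ => (hs'.ll hi hj).2.1, fun _ => (hs.ll hi hj).2.1⟩)
    (fun i hi j hj => ⟨fun h => absurd h (hs.ll hi hj).2.2.1,
      fun h => absurd h (hs'.ll hi hj).2.2.1⟩)
    (fun i hi j hj => (hs.ll hi hj).2.2.2.trans (hs'.ll hi hj).2.2.2.symm)
  have h2 : ∀ l r : ℕ → ℚ, ∑ i ∈ s, a i • (v (l i) - v (r i)) =
      ∑ i ∈ s, (a i • v (l i) + (- a i) • v (r i)) := fun l r =>
    Finset.sum_congr rfl fun i _ => by rw [smul_sub, neg_smul, sub_eq_add_neg]
  rw [h2, h2]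
  exact h

/-- The differences of the terms of the family with consecutive integer indices. -/
def dif (v : ℚ → X) (i : ℕ) : X := v (2 * (i : ℚ)) - v (2 * (i : ℚ) + 1)

theorem inter_std (s : Finset ℕ) : Inter s (fun i => 2 * (i : ℚ)) fun i => 2 * (i : ℚ) + 1 := by
  refine ⟨fun i _ => by linarith, fun i _ j _ hij => ?_⟩
  have h1 : ((i : ℚ) + 1) ≤ j := by exact_mod_cast hij
  linarith

theorem le_of_forall_div {a b M : ℝ} (h : ∀ R : ℕ, 0 < R → R * a ≤ R * b + M) : a ≤ b := by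
  by_contra hcon
  push Not at hcon
  obtain ⟨R, hR⟩ := exists_nat_gt (M / (a - b))
  have hR' : M / (a - b) < ((R + 1 : ℕ) : ℝ) := by push_cast; linarith
  rw [div_lt_iff₀ (by linarith)] at hR'
  have := h (R + 1) (Nat.succ_pos R)
  nlinarith

/-- Removing a term decreases the norm of the combinations of differences. -/
theorem OrdInv.dif_insert (hv : OrdInv N v) (A : Finset ℕ) (k : ℕ) (hk : k ∉ A) (a : ℕ → ℝ) :
    N (∑ i ∈ A, a i • dif v i) ≤ N (∑ i ∈ insert k A, a i • dif v i) := by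
  classical
  refine le_of_forall_div (M := |a k| * N (v (2 * (k : ℚ)) - v (2 * (k : ℚ) + 1)))
    fun R hR => ?_
  have hR' : (0 : ℚ) < R := by exact_mod_cast hR
  set p : ℕ → ℚ := fun t => 2 * (k : ℚ) + t / R with hp
  have hterm : ∀ t, t < R → N ((∑ i ∈ A, a i • dif v i) + a k • (v (p t) - v (p (t + 1)))) =
      N (∑ i ∈ insert k A, a i • dif v i) := by
    intro t ht
    have hpt : 2 * (k : ℚ) ≤ p t := by
      rw [hp]; have : (0 : ℚ) ≤ (t : ℚ) / R := by positivity
      linarith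
    have hpt2 : p t < p (t + 1) := by
      rw [hp]; simp only
      have : (t : ℚ) / R < ((t + 1 : ℕ) : ℚ) / R := by
        apply div_lt_div_of_pos_right _ hR'
        push_cast; linarith
      linarith
    have hpt3 : p (t + 1) ≤ 2 * (k : ℚ) + 1 := by
      rw [hp]; simp only
      have : ((t + 1 : ℕ) : ℚ) / R ≤ 1 := by
        rw [div_le_one hR']
        exact_mod_cast ht
      linarith
    have hI : Inter (insert k A) (fun i => if i = k then p t else 2 * (i : ℚ))
        (fun i => if i = k then p (t + 1) else 2 * (i : ℚ) + 1) := by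
      constructor
      · intro i _
        beta_reduce
        by_cases hik : i = k
        · rw [if_pos hik, if_pos hik]; exact hpt2
        · rw [if_neg hik, if_neg hik]; linarith
      · intro i _ j _ hij
        have h1 : ((i : ℚ) + 1) ≤ j := by exact_mod_cast hij
        beta_reduce
        by_cases hik : i = k
        · have hjk : ¬ j = k := by omega
          rw [if_pos hik, if_neg hjk]
          rw [hik] at h1
          linarith
        · rw [if_neg hik]
          by_cases hjk : j = k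
          · rw [if_pos hjk]
            rw [hjk] at h1
            linarith
          · rw [if_neg hjk]; linarith
    have h1 := hv.inter (insert k A) hI (inter_std (insert k A)) a
    rw [Finset.sum_insert hk] at h1
    simp only [if_true] at h1
    have h2 : ∑ i ∈ A, a i • (v (if i = k then p t else 2 * (i : ℚ)) -
        v (if i = k then p (t + 1) else 2 * (i : ℚ) + 1)) = ∑ i ∈ A, a i • dif v i := by
      refine Finset.sum_congr rfl fun i hi => ?_
      have hik : ¬ i = k := fun h' => hk (h' ▸ hi)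
      rw [if_neg hik, if_neg hik]
      rfl
    rw [h2, add_comm] at h1
    exact h1
  have hsum : N (∑ t ∈ Finset.range R, ((∑ i ∈ A, a i • dif v i) +
      a k • (v (p t) - v (p (t + 1))))) ≤ R * N (∑ i ∈ insert k A, a i • dif v i) := by
    have h1 : ∀ R', R' ≤ R → N (∑ t ∈ Finset.range R', ((∑ i ∈ A, a i • dif v i) +
        a k • (v (p t) - v (p (t + 1))))) ≤ R' * N (∑ i ∈ insert k A, a i • dif v i) := by
      intro R'
      induction R' with
      | zero => intro _; simp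
      | succ R' ih =>
        intro hR2
        rw [Finset.sum_range_succ]
        refine (map_add_le_add N _ _).trans ?_
        rw [hterm R' hR2]
        have := ih (by omega)
        push_cast
        linarith
    exact h1 R le_rfl
  rw [Finset.sum_add_distrib, ← Finset.smul_sum, Finset.sum_range_sub', Finset.sum_const,
    Finset.card_range] at hsum
  have hp0 : p 0 = 2 * (k : ℚ) := by rw [hp]; simp
  have hpR : p R = 2 * (k : ℚ) + 1 := by
    rw [hp]; simp only
    rw [div_self hR'.ne']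
  rw [hp0, hpR, ← Nat.cast_smul_eq_nsmul ℝ] at hsum
  have h3 := map_sub_le_add N ((R : ℝ) • (∑ i ∈ A, a i • dif v i) +
    a k • (v (2 * (k : ℚ)) - v (2 * (k : ℚ) + 1))) (a k • (v (2 * (k : ℚ)) - v (2 * (k : ℚ) + 1)))
  rw [add_sub_cancel_right, map_smul_eq_mul N (R : ℝ), map_smul_eq_mul N (a k),
    Real.norm_eq_abs, Real.norm_eq_abs, abs_of_nonneg (Nat.cast_nonneg R)] at h3
  linarith

theorem OrdInv.dif_mono (hv : OrdInv N v) (A A' : Finset ℕ) (hA : A ⊆ A') (a : ℕ → ℝ) :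
    N (∑ i ∈ A, a i • dif v i) ≤ N (∑ i ∈ A', a i • dif v i) := by
  classical
  have h1 : ∀ E : Finset ℕ, Disjoint E A → N (∑ i ∈ A, a i • dif v i) ≤
      N (∑ i ∈ E ∪ A, a i • dif v i) := by
    intro E
    induction E using Finset.induction_on with
    | empty => intro _; simp
    | insert k E hk ih =>
      intro hd
      rw [Finset.disjoint_insert_left] at hd
      refine (ih hd.2).trans ?_
      rw [Finset.insert_union]
      exact hv.dif_insert (E ∪ A) k (fun h' => (Finset.mem_union.mp h').elim hk hd.1) a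
  have h2 := h1 (A' \ A) Finset.sdiff_disjoint
  rwa [Finset.sdiff_union_of_subset hA] at h2

theorem OrdInv.dif_sign (hv : OrdInv N v) (A : Finset ℕ) (a b : ℕ → ℝ)
    (hab : ∀ i ∈ A, b i = a i ∨ b i = - a i) :
    N (∑ i ∈ A, b i • dif v i) ≤ 2 * N (∑ i ∈ A, a i • dif v i) := by
  classical
  have h1 : ∑ i ∈ A, b i • dif v i = ∑ i ∈ A.filter (fun i => b i = a i), a i • dif v i -
      ∑ i ∈ A.filter (fun i => ¬ b i = a i), a i • dif v i := by
    rw [← Finset.sum_filter_add_sum_filter_not A (fun i => b i = a i), sub_eq_add_neg,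
      ← Finset.sum_neg_distrib]
    congr 1
    · refine Finset.sum_congr rfl fun i hi => ?_
      rw [(Finset.mem_filter.mp hi).2]
    · refine Finset.sum_congr rfl fun i hi => ?_
      obtain ⟨hi1, hi2⟩ := Finset.mem_filter.mp hi
      rw [(hab i hi1).resolve_left hi2, neg_smul]
  rw [h1]
  refine (map_sub_le_add N _ _).trans ?_
  have h2 := hv.dif_mono _ A (Finset.filter_subset (fun i => b i = a i) A) a
  have h3 := hv.dif_mono _ A (Finset.filter_subset (fun i => ¬ b i = a i) A) a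
  linarith

end Pairs

section Cut

variable {𝓕 : Set (Finset ℕ)} {X : Type*} [NormedAddCommGroup X] [NormedSpace ℝ X] {e : ℕ → X}

variable (h : IsRegular 𝓕) (hX : IsCombSpace 𝓕 e) {N : Seminorm ℝ X} {c C : ℝ} (hc : 0 < c)
  (hC : 0 < C) (hN : ∀ x, c * ‖x‖ ≤ N x ∧ N x ≤ C * ‖x‖)

include h hX hc hC hN

/-- A functional cannot oscillate on an order invariant family at arbitrarily many places. -/
theorem OrdInv.no_osc {v : ℚ → X} (hv : OrdInv N v) (B : ℝ) (hB : ∀ q, ‖v q‖ ≤ B)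
    (φ : X →L[ℝ] ℝ) (δ : ℝ) (hδ : 0 < δ)
    (hosc : ∀ L : ℕ, ∃ l r : ℕ → ℚ, Inter (Finset.range L) l r ∧
      ∀ i ∈ Finset.range L, δ ≤ |φ (v (l i) - v (r i))|) : False := by
  classical
  have hφ : 0 < ‖φ‖ + 1 := by positivity
  refine noL1 h hX (dif v) (2 * B) (fun j => ?_) (c * δ / (‖φ‖ + 1) / (2 * C))
    (by positivity) fun a => ?_
  · refine (norm_sub_le _ _).trans ?_
    linarith [hB (2 * (j : ℚ)), hB (2 * (j : ℚ) + 1)]
  obtain ⟨L, hL⟩ : ∃ n, a.support ⊆ Finset.range n := ⟨a.support.sup id + 1, fun x hx => by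
    rw [Finset.mem_range]
    exact Nat.lt_succ_of_le (Finset.le_sup (f := id) hx)⟩
  obtain ⟨l, r, hlr, hosc⟩ := hosc L
  choose θ hθ1 hθ2 using fun i : ℕ => exists_sign_mul (φ (v (l i) - v (r i)))
  choose τ hτ1 hτ2 using fun i : ℕ => exists_sign_mul (a i)
  have h1 := hv.inter (Finset.range L) hlr (inter_std (Finset.range L)) fun i => θ i * |a i|
  have h2 : N (∑ i ∈ Finset.range L, (θ i * |a i|) • dif v i) ≤
      2 * N (∑ i ∈ Finset.range L, a i • dif v i) := by
    refine hv.dif_sign (Finset.range L) (fun i => a i) _ fun i _ => ?_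
    rw [← hτ2 i]
    rcases hθ1 i with h' | h' <;> rcases hτ1 i with h'' | h'' <;> rw [h', h''] <;> simp
  have h3 : (∑ i ∈ Finset.range L, |a i|) * δ ≤
      φ (∑ i ∈ Finset.range L, (θ i * |a i|) • (v (l i) - v (r i))) := by
    rw [map_sum, Finset.sum_mul]
    refine Finset.sum_le_sum fun i hi => ?_
    rw [map_smul, smul_eq_mul, show θ i * |a i| * φ (v (l i) - v (r i)) =
      |a i| * (θ i * φ (v (l i) - v (r i))) by ring, hθ2]
    exact mul_le_mul_of_nonneg_left (hosc i hi) (abs_nonneg _)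
  have h4 := φ.le_opNorm (∑ i ∈ Finset.range L, (θ i * |a i|) • (v (l i) - v (r i)))
  rw [Real.norm_eq_abs] at h4
  have h5 := (hN (∑ i ∈ Finset.range L, (θ i * |a i|) • (v (l i) - v (r i)))).1
  have h6 : Finsupp.linearCombination ℝ (dif v) a = ∑ i ∈ Finset.range L, a i • dif v i := by
    rw [Finsupp.linearCombination_apply, Finsupp.sum]
    refine Finset.sum_subset hL fun i _ hi => ?_
    rw [Finsupp.notMem_support_iff.mp hi, zero_smul]
  have h7 : l1 a = ∑ i ∈ Finset.range L, |a i| := l1_eq_of_subset a _ hL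
  have h8 : N (∑ i ∈ Finset.range L, (θ i * |a i|) • dif v i) =
      N (∑ i ∈ Finset.range L, (θ i * |a i|) • (v (2 * (i : ℚ)) - v (2 * (i : ℚ) + 1))) := rfl
  rw [h8, ← h1] at h2
  rw [h6, h7, div_mul_eq_mul_div, div_mul_eq_mul_div, div_le_iff₀ (by positivity),
    div_le_iff₀ hφ]
  have h9 := (hN (∑ i ∈ Finset.range L, a i • dif v i)).2
  set S := ∑ i ∈ Finset.range L, |a i|
  set u := ∑ i ∈ Finset.range L, (θ i * |a i|) • (v (l i) - v (r i))
  set w := ∑ i ∈ Finset.range L, a i • dif v i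
  have h10 : S * δ ≤ (‖φ‖ + 1) * ‖u‖ := by
    have := (le_abs_self (φ u)).trans h4
    nlinarith [norm_nonneg u]
  have h11 : c * ‖u‖ ≤ 2 * (C * ‖w‖) := by linarith
  have h12 : c * (S * δ) ≤ c * ((‖φ‖ + 1) * ‖u‖) := mul_le_mul_of_nonneg_left h10 hc.le
  have h13 : (c * ‖u‖) * (‖φ‖ + 1) ≤ 2 * (C * ‖w‖) * (‖φ‖ + 1) :=
    mul_le_mul_of_nonneg_right h11 hφ.le
  calc c * δ * S = c * (S * δ) := by ring
    _ ≤ c * ((‖φ‖ + 1) * ‖u‖) := h12
    _ = (c * ‖u‖) * (‖φ‖ + 1) := by ring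
    _ ≤ 2 * (C * ‖w‖) * (‖φ‖ + 1) := h13
    _ = ‖w‖ * (2 * C) * (‖φ‖ + 1) := by ring

/-- There is a cut at which all the coordinates are continuous. -/
theorem OrdInv.exists_cut {v : ℚ → X} (hv : OrdInv N v) (B : ℝ) (hB : ∀ q, ‖v q‖ ≤ B) :
    ∃ ρ : ℝ, ∀ k, ∀ δ : ℝ, 0 < δ → ∃ η : ℝ, 0 < η ∧ ∀ l r : ℚ, ρ - η < l → l < r →
      (r : ℝ) < ρ + η → |ef e k (v l - v r)| < δ := by
  classical
  set Bad : ℕ → ℕ → Set ℝ := fun k n => {ρ : ℝ | ∀ η : ℝ, 0 < η → ∃ l r : ℚ, ρ - η < l ∧ l < r ∧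
    (r : ℝ) < ρ + η ∧ 1 / ((n : ℝ) + 1) ≤ |ef e k (v l - v r)|} with hBad
  have hfin : ∀ k n, (Bad k n).Finite := by
    intro k n
    by_contra hinf
    refine hv.no_osc h hX hc hC hN B hB (ef e k) (1 / ((n : ℝ) + 1)) (by positivity) fun L => ?_
    obtain ⟨t, ht, htL⟩ := Set.Infinite.exists_subset_card_eq hinf L
    set ρ : Fin L → ℝ := fun i => t.orderEmbOfFin htL i with hρ
    have hρm : StrictMono ρ := (t.orderEmbOfFin htL).strictMono
    have hρB : ∀ i, ρ i ∈ Bad k n := fun i => ht (t.orderEmbOfFin_mem htL i)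
    obtain ⟨η, hη, hη0⟩ : ∃ η : ℝ, (∀ i j : Fin L, i < j → ρ i + η < ρ j - η) ∧ 0 < η := by
      have h1 : ∀ᶠ η in 𝓝[>] (0 : ℝ), ∀ i j : Fin L, i < j → ρ i + η < ρ j - η := by
        rw [Filter.eventually_all]
        intro i
        rw [Filter.eventually_all]
        intro j
        by_cases hij : i < j
        · have h2 : 0 < (ρ j - ρ i) / 2 := by have := hρm hij; linarith
          filter_upwards [nhdsWithin_le_nhds (Iio_mem_nhds h2)] with η hη _
          simp only [Set.mem_Iio] at hη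
          linarith
        · exact Filter.Eventually.of_forall fun _ h' => absurd h' hij
      obtain ⟨η, hη1, hη2⟩ := (h1.and self_mem_nhdsWithin).exists
      exact ⟨η, hη1, hη2⟩
    choose l r hl hlr hr hosc using fun i => hρB i η hη0
    refine ⟨fun i => if hi : i < L then l ⟨i, hi⟩ else 0, fun i => if hi : i < L then r ⟨i, hi⟩
      else 0, ⟨fun i hi => ?_, fun i hi j hj hij => ?_⟩, fun i hi => ?_⟩
    · rw [Finset.mem_range] at hi
      simp only [dif_pos hi]
      exact hlr _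
    · rw [Finset.mem_range] at hi hj
      simp only [dif_pos hi, dif_pos hj]
      have h1 := hr ⟨i, hi⟩
      have h2 := hl ⟨j, hj⟩
      have h3 := hη ⟨i, hi⟩ ⟨j, hj⟩ hij
      have h4 : (r ⟨i, hi⟩ : ℝ) < l ⟨j, hj⟩ := by linarith
      exact_mod_cast h4
    · rw [Finset.mem_range] at hi
      simp only [dif_pos hi]
      exact hosc _
  have hcount : (⋃ k, ⋃ n, Bad k n).Countable :=
    Set.countable_iUnion fun k => Set.countable_iUnion fun n => (hfin k n).countable
  obtain ⟨ρ, hρ⟩ : ∃ ρ : ℝ, ρ ∉ ⋃ k, ⋃ n, Bad k n := by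
    by_contra hcon
    push Not at hcon
    exact Cardinal.not_countable_real (hcount.mono fun x _ => hcon x)
  refine ⟨ρ, fun k δ hδ => ?_⟩
  obtain ⟨n, hn⟩ := exists_nat_one_div_lt hδ
  have h1 : ρ ∉ Bad k n := fun h' => hρ (Set.mem_iUnion.mpr ⟨k, Set.mem_iUnion.mpr ⟨n, h'⟩⟩)
  simp only [hBad, Set.mem_setOf_eq, not_forall] at h1
  obtain ⟨η, hη, h1⟩ := h1
  refine ⟨η, hη, fun l r hl hlr hr => ?_⟩
  by_contra hcon
  push Not at hcon
  exact h1 ⟨l, r, hl, hlr, hr, hn.le.trans hcon⟩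

/-- The convex combinations of nested differences can be small. -/
theorem OrdInv.cut {v : ℚ → X} (hv : OrdInv N v) (B : ℝ) (hB : ∀ q, ‖v q‖ ≤ B) (ε : ℝ)
    (hε : 0 < ε) : ∃ a : ℕ →₀ ℝ, IsConv 0 a ∧ ∀ l r : ℕ → ℚ, Nest a.support l r →
      N (∑ i ∈ a.support, a i • (v (l i) - v (r i))) ≤ ε := by
  classical
  obtain ⟨ρ, hρ⟩ := hv.exists_cut h hX hc hC hN B hB
  obtain ⟨q, hq1, hq2, hq3⟩ := Real.exists_seq_rat_strictMono_tendsto ρ
  obtain ⟨r, hr1, hr2, hr3⟩ := Real.exists_seq_rat_strictAnti_tendsto ρ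
  obtain ⟨a, ha, ha2⟩ := exists_conv_small h hX (fun j => v (q j) - v (r j)) (2 * B)
    (fun j => (norm_sub_le _ _).trans (by linarith [hB (q j), hB (r j)]))
    (fun k => by
      rw [Metric.tendsto_atTop]
      intro δ hδ
      obtain ⟨η, hη, hη2⟩ := hρ k δ hδ
      have h1 := hq3.eventually_const_lt (show ρ - η < ρ by linarith)
      have h2 := hr3.eventually_lt_const (show ρ < ρ + η by linarith)
      obtain ⟨n0, hn0⟩ := Filter.eventually_atTop.mp (h1.and h2)
      refine ⟨n0, fun n hn => ?_⟩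
      rw [dist_zero_right, Real.norm_eq_abs]
      refine hη2 _ _ (hn0 n hn).1 ?_ (hn0 n hn).2
      have := (hq2 n).trans (hr2 n)
      exact_mod_cast this) (ε / C) (by positivity) 0
  refine ⟨a, ha, fun l' r' hn => ?_⟩
  have hnest : Nest a.support q r := by
    refine ⟨fun i _ j _ => ?_, fun i _ j _ hij => ⟨hq1 hij, hr1 hij⟩⟩
    have := (hq2 i).trans (hr2 j)
    exact_mod_cast this
  rw [hv.nest a.support hn hnest fun i => a i]
  rw [Finsupp.linearCombination_apply, Finsupp.sum] at ha2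
  refine (hN _).2.trans ?_
  have h1 := mul_le_mul_of_nonneg_left ha2.le hC.le
  have h2 : C * (ε / C) = ε := by field_simp
  rw [h2] at h1
  exact h1

end Cut

end Pool.Agent.Comb7f333f
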