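import Pool.Agent.Lib.MP_7f333f_an.RP.Minimal

set_option autoImplicit false
set_option linter.unusedSectionVars false

/-!
Totally bounded orbits of Roelcke precompact groups give open subgroups of finite index.
-/

namespace Pool.Agent.Comb7f333f

open Filter Topology Equiv

section FiniteIndex

variable {G : Subgroup (Perm ℕ)} {X : Type*} [NormedAddCommGroup X] [NormedSpace ℝ X]
  {N : Seminorm ℝ X}

/-- The pointwise stabiliser of a finite set. -/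
def stabF (G : Subgroup (Perm ℕ)) (F : Finset ℕ) : Subgroup G where
  carrier := {v | ∀ n ∈ F, (v : Perm ℕ) n = n}
  mul_mem' {a b} ha hb n hn := by
    show (a : Perm ℕ) ((b : Perm ℕ) n) = n
    rw [hb n hn, ha n hn]
  one_mem' _ _ := rfl
  inv_mem' {a} ha n hn := by
    show (a : Perm ℕ)⁻¹ n = n
    rw [Equiv.Perm.inv_eq_iff_eq, ha n hn]

theorem mem_stabF {F : Finset ℕ} {v : G} : v ∈ stabF G F ↔ ∀ n ∈ F, (v : Perm ℕ) n = n :=
  Iff.rfl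

/-- The translate of the partial orbit is close to the partial orbit. -/
def Cl (Φ : G →* isomGroup N) (V : Subgroup G) (y : X) (ε : ℝ) (g : G) : Prop :=
  ∀ v ∈ V, ∃ w ∈ V, N ((Φ (g * v) : X ≃ₗ[ℝ] X) y - (Φ w : X ≃ₗ[ℝ] X) y) ≤ ε

variable {Φ : G →* isomGroup N} {V : Subgroup G} {y : X}

theorem Cl.mono {ε ε' : ℝ} (hε : ε ≤ ε') {g : G} (hg : Cl Φ V y ε g) : Cl Φ V y ε' g := by
  intro v hv
  obtain ⟨w, hw, hvw⟩ := hg v hv
  exact ⟨w, hw, hvw.trans hε⟩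

theorem Cl.mul {ε ε' : ℝ} {g g' : G} (hg : Cl Φ V y ε g) (hg' : Cl Φ V y ε' g') :
    Cl Φ V y (ε + ε') (g * g') := by
  intro v hv
  obtain ⟨w, hw, hvw⟩ := hg' v hv
  obtain ⟨w', hw', hvw'⟩ := hg w hw
  refine ⟨w', hw', ?_⟩
  rw [mul_assoc, map_mul, isom_mul]
  rw [map_mul, isom_mul] at hvw'
  rw [← isom_dist (Φ g)] at hvw
  have h1 := map_add_le_add N ((Φ g : X ≃ₗ[ℝ] X) ((Φ (g' * v) : X ≃ₗ[ℝ] X) y) -
    (Φ g : X ≃ₗ[ℝ] X) ((Φ w : X ≃ₗ[ℝ] X) y))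
    ((Φ g : X ≃ₗ[ℝ] X) ((Φ w : X ≃ₗ[ℝ] X) y) - (Φ w' : X ≃ₗ[ℝ] X) y)
  rw [sub_add_sub_cancel] at h1
  linarith

theorem Cl.of_mem {ε : ℝ} (hε : 0 ≤ ε) {g : G} (hg : g ∈ V) : Cl Φ V y ε g :=
  fun v hv => ⟨g * v, V.mul_mem hg hv, by rw [sub_self, map_zero]; exact hε⟩

/-- The open subgroup. -/
def limSub (Φ : G →* isomGroup N) (V : Subgroup G) (y : X) : Subgroup G where
  carrier := {g | ∀ ε : ℝ, 0 < ε → Cl Φ V y ε g ∧ Cl Φ V y ε g⁻¹}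
  mul_mem' {a b} ha hb ε hε := by
    have h1 := ha (ε / 2) (by positivity)
    have h2 := hb (ε / 2) (by positivity)
    constructor
    · exact (h1.1.mul h2.1).mono (by linarith)
    · rw [mul_inv_rev]
      exact (h2.2.mul h1.2).mono (by linarith)
  one_mem' ε hε := ⟨Cl.of_mem hε.le V.one_mem, Cl.of_mem hε.le (by
    rw [inv_one]; exact V.one_mem)⟩
  inv_mem' {a} ha ε hε := by
    rw [inv_inv]
    exact ⟨(ha ε hε).2, (ha ε hε).1⟩

theorem le_limSub : V ≤ limSub Φ V y := fun g hg ε hε =>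
  ⟨Cl.of_mem hε.le hg, Cl.of_mem hε.le (V.inv_mem hg)⟩

/-- Totally bounded orbits give open subgroups of finite index. -/
theorem exists_finiteIndex (hR : RoelckePrecompact G) (hΦ : ContHom Φ) (hy : 0 < N y)
    (hTB : TBOrbit Φ y) (z : G) (hz : (Φ z : X ≃ₗ[ℝ] X) y = -y) :
    ∃ L : Subgroup G, L.FiniteIndex ∧
      (∃ F : Finset ℕ, ∀ g : G, (∀ n ∈ F, (g : Perm ℕ) n = n) → g ∈ L) ∧ z ∉ L := by
  classical
  obtain ⟨F, hF⟩ := hΦ y (N y / 2) (by positivity)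
  set V := stabF G F with hV
  refine ⟨limSub Φ V y, ?_, ⟨F, fun g hg => le_limSub hg⟩, fun hzL => ?_⟩
  swap
  · obtain ⟨w, hw, hw2⟩ := (hzL (N y / 2) (by positivity)).1 1 V.one_mem
    rw [mul_one, hz] at hw2
    have h1 := hF w hw
    have h2 := map_add_le_add N (-y - (Φ w : X ≃ₗ[ℝ] X) y) ((Φ w : X ≃ₗ[ℝ] X) y - y)
    rw [sub_add_sub_cancel, ← neg_add', map_neg_eq_map, ← two_smul ℝ y, map_smul_eq_mul,
      Real.norm_two] at h2
    linarith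
  obtain ⟨S, hS, hS2⟩ := hR F
  have hδ : ∃ δ : ℝ, 0 < δ ∧ ∀ s ∈ S, ∀ hs : s ∈ G, Cl Φ V y δ ⟨s, hs⟩ →
      Cl Φ V y δ (⟨s, hs⟩ : G)⁻¹ → (⟨s, hs⟩ : G) ∈ limSub Φ V y := by
    clear hS2
    induction S, hS using Set.Finite.induction_on with
    | empty => exact ⟨1, one_pos, fun s hs => absurd hs (Set.notMem_empty s)⟩
    | @insert a S _ _ ih =>
      obtain ⟨δ, hδ, hδ2⟩ := ih
      have h1 : ∃ δ' : ℝ, 0 < δ' ∧ ∀ hs : a ∈ G, Cl Φ V y δ' ⟨a, hs⟩ →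
          Cl Φ V y δ' (⟨a, hs⟩ : G)⁻¹ → (⟨a, hs⟩ : G) ∈ limSub Φ V y := by
        by_contra hcon
        push Not at hcon
        obtain ⟨ha, _⟩ := hcon 1 one_pos
        obtain ⟨_, _, _, h4⟩ := hcon 1 one_pos
        refine h4 fun ε hε => ?_
        obtain ⟨_, h5, h6, _⟩ := hcon ε hε
        exact ⟨h5, h6⟩
      obtain ⟨δ', hδ', hδ'2⟩ := h1
      refine ⟨min δ δ', lt_min hδ hδ', fun s hs hsG h1 h2 => ?_⟩
      rcases Set.mem_insert_iff.mp hs with rfl | hs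
      · exact hδ'2 hsG (h1.mono (min_le_right _ _)) (h2.mono (min_le_right _ _))
      · exact hδ2 s hs hsG (h1.mono (min_le_left _ _)) (h2.mono (min_le_left _ _))
  obtain ⟨δ, hδ, hδ2⟩ := hδ
  have hδ3 : ∀ g : G, Cl Φ V y δ g → Cl Φ V y δ g⁻¹ → g ∈ limSub Φ V y := by
    intro g h1 h2
    obtain ⟨s, hs, v, hv, w, hw, hvF, hwF, hg⟩ := hS2 g g.2
    have hsG : s ∈ G := by
      have : s = v⁻¹ * (g : Perm ℕ) * w⁻¹ := by rw [hg]; group
      rw [this]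
      exact G.mul_mem (G.mul_mem (G.inv_mem hv) g.2) (G.inv_mem hw)
    have hg' : g = ⟨v, hv⟩ * ⟨s, hsG⟩ * ⟨w, hw⟩ := Subtype.ext hg
    have hvV : (⟨v, hv⟩ : G) ∈ V := hvF
    have hwV : (⟨w, hw⟩ : G) ∈ V := hwF
    have hs1 : (⟨s, hsG⟩ : G) = ⟨v, hv⟩⁻¹ * g * ⟨w, hw⟩⁻¹ := by rw [hg']; group
    have hs2 : (⟨s, hsG⟩ : G)⁻¹ = ⟨w, hw⟩ * g⁻¹ * ⟨v, hv⟩ := by rw [hg']; group
    have h3 : Cl Φ V y δ (⟨s, hsG⟩ : G) := by
      rw [hs1]
      exact (((Cl.of_mem le_rfl (V.inv_mem hvV)).mul h1).mul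
        (Cl.of_mem le_rfl (V.inv_mem hwV))).mono (by linarith)
    have h4 : Cl Φ V y δ (⟨s, hsG⟩ : G)⁻¹ := by
      rw [hs2]
      exact (((Cl.of_mem le_rfl hwV).mul h2).mul (Cl.of_mem le_rfl hvV)).mono (by linarith)
    rw [hg']
    exact (limSub Φ V y).mul_mem ((limSub Φ V y).mul_mem (le_limSub hvV)
      (hδ2 s hs hsG h3 h4)) (le_limSub hwV)
  obtain ⟨D, hD, hD2⟩ := hTB (δ / 2) (by positivity)
  set P : G → Set X := fun g => {d | d ∈ D ∧ ∃ v ∈ V, N ((Φ (g * v) : X ≃ₗ[ℝ] X) y - d) ≤ δ / 2}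
    with hP
  have hPP : ∀ g g' : G, P g = P g' → Cl Φ V y δ (g'⁻¹ * g) := by
    intro g g' hgg v hv
    obtain ⟨d, hd, hd2⟩ := hD2 (g * v)
    have h1 : d ∈ P g := ⟨hd, v, hv, hd2⟩
    rw [hgg] at h1
    obtain ⟨_, w, hw, hw2⟩ := h1
    refine ⟨w, hw, ?_⟩
    rw [← isom_dist (Φ g'), ← isom_mul, ← isom_mul, ← map_mul, ← map_mul, mul_assoc,
      mul_inv_cancel_left]
    rw [map_sub_rev] at hw2
    have h2 := map_add_le_add N ((Φ (g * v) : X ≃ₗ[ℝ] X) y - d)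
      (d - (Φ (g' * w) : X ≃ₗ[ℝ] X) y)
    rw [sub_add_sub_cancel] at h2
    linarith
  have hfin : Finite {A : Set X // A ⊆ D} := (hD.finite_subsets).to_subtype
  have hquot : Finite (G ⧸ limSub Φ V y) := by
    refine Finite.of_injective (fun q => (⟨P q.out, fun d hd => hd.1⟩ : {A : Set X // A ⊆ D}))
      fun q q' hqq => ?_
    have h1 : P q.out = P q'.out := congrArg Subtype.val hqq
    have h2 := hPP _ _ h1
    have h3 := hPP _ _ h1.symm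
    rw [← QuotientGroup.out_eq' q, ← QuotientGroup.out_eq' q', QuotientGroup.eq]
    refine hδ3 _ h3 ?_
    rw [mul_inv_rev, inv_inv]
    exact h2
  exact Subgroup.finiteIndex_of_finite_quotient

end FiniteIndex

end Pool.Agent.Comb7f333f
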