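import Pool.Agent.Lib.MP_7f333f_an.RP.Cut

set_option autoImplicit false
set_option linter.unusedSectionVars false

/-!
Weak limits of asymptotically indiscernible sequences of elements of a Roelcke precompact group
acting on a combinatorial space.
-/

namespace Pool.Agent.Comb7f333f

open Filter Topology Equiv

section Limits

variable {G : Subgroup (Perm ℕ)}

variable {𝓕 : Set (Finset ℕ)} {X : Type*} [NormedAddCommGroup X] [NormedSpace ℝ X]
  [CompleteSpace X] {e : ℕ → X}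

variable (h : IsRegular 𝓕) (hX : IsCombSpace 𝓕 e) {N : Seminorm ℝ X} {c C : ℝ} (hc : 0 < c)
  (hC : 0 < C) (hN : ∀ x, c * ‖x‖ ≤ N x ∧ N x ≤ C * ‖x‖)

include hc hN in
theorem isom_norm_le (g : isomGroup N) (x : X) : ‖(g : X ≃ₗ[ℝ] X) x‖ ≤ C / c * ‖x‖ := by
  have h1 := (hN ((g : X ≃ₗ[ℝ] X) x)).1
  rw [isom_apply] at h1
  have h2 := (hN x).2
  rw [div_mul_eq_mul_div, le_div_iff₀ hc]
  linarith

include h hX hc hC hN

/-- Convex combinations of nested differences for an asymptotically indiscernible sequence. -/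
theorem exists_nested {Φ : G →* isomGroup N} (hΦ : ContHom Φ) {g : ℕ → G} (hg : Indisc g) (x : X)
    (ε : ℝ) (hε : 0 < ε) : ∃ a : ℕ →₀ ℝ, IsConv 0 a ∧ ∃ j0, ∀ l r : ℕ → ℕ,
      Nest a.support (fun i => (l i : ℚ)) (fun i => (r i : ℚ)) → (∀ i ∈ a.support, j0 ≤ l i) →
      N (∑ i ∈ a.support, a i • ((Φ (g (l i)) : X ≃ₗ[ℝ] X) x - (Φ (g (r i)) : X ≃ₗ[ℝ] X) x)) ≤
        ε := by
  classical
  obtain ⟨T, hT1, hT2, hT3⟩ := exists_family hc hC hN hΦ hg
  have hTn : ∀ q, ‖T q x‖ ≤ C / c * ‖x‖ := by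
    intro q
    have h1 := (hN (T q x)).1
    rw [hT1] at h1
    have h2 := (hN x).2
    rw [div_mul_eq_mul_div, le_div_iff₀ hc]
    linarith
  obtain ⟨a, ha, ha2⟩ := (hT3 x).cut h hX hc hC hN _ hTn (ε / 2) (by positivity)
  set K := a.support.sup id with hK
  have hle : ∀ i ∈ a.support, i ≤ K := fun i hi => Finset.le_sup (f := id) hi
  set l0 : ℕ → ℚ := fun i => i with hl0
  set r0 : ℕ → ℚ := fun i => 2 * (K : ℚ) + 1 - i with hr0
  have hn0 : Nest a.support l0 r0 := by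
    refine ⟨fun i hi j hj => ?_, fun i _ j _ hij => ?_⟩
    · have h1 : (i : ℚ) ≤ K := by exact_mod_cast hle i hi
      have h2 : (j : ℚ) ≤ K := by exact_mod_cast hle j hj
      simp only [hl0, hr0]
      linarith
    · have h1 : (i : ℚ) < j := by exact_mod_cast hij
      simp only [hl0, hr0]
      exact ⟨h1, by linarith⟩
  obtain ⟨j0, hj0⟩ := hT2 x (ε / 4) (by positivity) (ℕ × Bool) (a.support ×ˢ Finset.univ)
    (fun p => if p.2 then l0 p.1 else r0 p.1)
  refine ⟨a, ha, j0, fun l r hn hl => ?_⟩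
  have h1 := hj0 (fun p => if p.2 then l p.1 else r p.1) (by
      rintro ⟨i, b⟩ hi
      have hi' := (Finset.mem_product.mp hi).1
      cases b
      · have h2 : (l i : ℚ) < (r i : ℚ) := hn.1 i hi' i hi'
        have h3 : l i < r i := by exact_mod_cast h2
        have h4 := hl i hi'
        simp only [Bool.false_eq_true, if_false]
        omega
      · simpa using hl i hi') (by
      rintro ⟨i, b1⟩ hi ⟨j, b2⟩ hj
      have hi' := (Finset.mem_product.mp hi).1
      have hj' := (Finset.mem_product.mp hj).1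
      have h5 := hn.ll hi' hj'
      have h6 := hn0.ll hi' hj'
      simp only [Nat.cast_lt] at h5
      cases b1 <;> cases b2
      · simpa using h6.2.2.2.trans h5.2.2.2.symm
      · simpa using (⟨fun h => absurd h h6.2.2.1, fun h => absurd h h5.2.2.1⟩ :
          r0 i < l0 j ↔ r i < l j)
      · simpa using (⟨fun _ => h5.2.1, fun _ => h6.2.1⟩ : l0 i < r0 j ↔ l i < r j)
      · simpa using h6.1.trans h5.1.symm)
    (fun p => if p.2 then a p.1 else - a p.1)
  have h2 : ∀ (A B : ℕ → X), ∑ p ∈ a.support ×ˢ (Finset.univ : Finset Bool),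
      (if p.2 then a p.1 else - a p.1) • (if p.2 then A p.1 else B p.1) =
      ∑ i ∈ a.support, a i • (A i - B i) := by
    intro A B
    rw [Finset.sum_product]
    refine Finset.sum_congr rfl fun i _ => ?_
    rw [Fintype.sum_bool]
    simp only [if_true, Bool.false_eq_true, if_false]
    rw [smul_sub, neg_smul, sub_eq_add_neg]
  have h3 : ∑ p ∈ a.support ×ˢ (Finset.univ : Finset Bool),
      |(if p.2 then a p.1 else - a p.1)| = 2 := by
    rw [Finset.sum_product]
    have h4 : ∀ i ∈ a.support, ∑ b : Bool, |(if b then a i else - a i)| = 2 * a i := by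
      intro i _
      rw [Fintype.sum_bool]
      simp only [if_true, Bool.false_eq_true, if_false, abs_neg]
      rw [abs_of_nonneg (ha.nonneg i)]
      ring
    rw [Finset.sum_congr rfl h4, ← Finset.mul_sum, ← mass_eq_sum, ha.mass_eq, mul_one]
  have h4 : ∀ p : ℕ × Bool, T (if p.2 then l0 p.1 else r0 p.1) x =
      if p.2 then T (l0 p.1) x else T (r0 p.1) x := fun p => by split_ifs <;> rfl
  have h5 : ∀ p : ℕ × Bool, (Φ (g (if p.2 then l p.1 else r p.1)) : X ≃ₗ[ℝ] X) x =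
      if p.2 then (Φ (g (l p.1)) : X ≃ₗ[ℝ] X) x else (Φ (g (r p.1)) : X ≃ₗ[ℝ] X) x :=
    fun p => by split_ifs <;> rfl
  simp only [h4, h5] at h1
  rw [h3, h2 (fun i => T (l0 i) x) (fun i => T (r0 i) x),
    h2 (fun i => (Φ (g (l i)) : X ≃ₗ[ℝ] X) x) (fun i => (Φ (g (r i)) : X ≃ₗ[ℝ] X) x)] at h1
  have h6 := ha2 l0 r0 hn0
  rw [abs_le] at h1
  linarith [h1.1]

theorem exists_block {Φ : G →* isomGroup N} (hΦ : ContHom Φ) {g : ℕ → G} (hg : Indisc g) (x : X)
    (α : ℕ → ℝ)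
    (hα : ∀ k, Tendsto (fun j => ef e k ((Φ (g j) : X ≃ₗ[ℝ] X) x)) atTop (𝓝 (α k)))
    (ε : ℝ) (hε : 0 < ε) : ∃ a : ℕ →₀ ℝ, IsConv 0 a ∧ ∃ j0, ∀ j1, j0 ≤ j1 → ∃ w' : ℕ → X,
      (∀ t, N ((∑ i ∈ a.support, a i • (Φ (g (j1 + i)) : X ≃ₗ[ℝ] X) x) - w' t) ≤ ε) ∧
      ∀ k, Tendsto (fun t => ef e k (w' t)) atTop (𝓝 (α k)) := by
  classical
  obtain ⟨a, ha, j0, hj0⟩ := exists_nested h hX hc hC hN hΦ hg x ε hε
  set K := a.support.sup id with hK
  have hle : ∀ i ∈ a.support, i ≤ K := fun i hi => Finset.le_sup (f := id) hi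
  refine ⟨a, ha, j0, fun j1 hj1 => ?_⟩
  refine ⟨fun t => ∑ i ∈ a.support, a i • (Φ (g (j1 + K + 1 + t + (K - i))) : X ≃ₗ[ℝ] X) x,
    fun t => ?_, fun k => ?_⟩
  · have h1 := hj0 (fun i => j1 + i) (fun i => j1 + K + 1 + t + (K - i)) (by
      refine ⟨fun i hi j hj => ?_, fun i hi j hj hij => ?_⟩
      · have h1 := hle i hi
        beta_reduce
        rw [Nat.cast_lt]
        omega
      · have h1 := hle i hi
        have h2 := hle j hj
        beta_reduce
        rw [Nat.cast_lt, Nat.cast_lt]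
        constructor <;> omega) (fun i _ => by beta_reduce; omega)
    rw [← Finset.sum_sub_distrib]
    simp only [← smul_sub]
    exact h1
  · have h1 : ∀ i ∈ a.support, Tendsto
        (fun t => ef e k ((Φ (g (j1 + K + 1 + t + (K - i))) : X ≃ₗ[ℝ] X) x)) atTop
        (𝓝 (α k)) := by
      intro i _
      have h2 : Tendsto (fun t => j1 + K + 1 + t + (K - i)) atTop atTop :=
        tendsto_atTop_mono (fun t => by show t ≤ _; omega) tendsto_id
      exact (hα k).comp h2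
    have h2 : Tendsto (fun t => ∑ i ∈ a.support, a i * ef e k
        ((Φ (g (j1 + K + 1 + t + (K - i))) : X ≃ₗ[ℝ] X) x)) atTop
        (𝓝 (∑ i ∈ a.support, a i * α k)) :=
      tendsto_finsetSum _ fun i hi => (h1 i hi).const_mul (a i)
    rw [← Finset.sum_mul, ← mass_eq_sum, ha.mass_eq, one_mul] at h2
    refine h2.congr fun t => ?_
    rw [map_sum]
    simp only [map_smul, smul_eq_mul]

/-- Weak limits exist in the space. -/
theorem exists_weak_limit {Φ : G →* isomGroup N} (hΦ : ContHom Φ) {g : ℕ → G} (hg : Indisc g)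
    (x : X) (α : ℕ → ℝ)
    (hα : ∀ k, Tendsto (fun j => ef e k ((Φ (g j) : X ≃ₗ[ℝ] X) x)) atTop (𝓝 (α k))) :
    ∃ u : X, ∀ k, ef e k u = α k := by
  classical
  have hb : ∀ n : ℕ, ∃ (w : X) (w' : ℕ → X), (∀ t, N (w - w' t) ≤ 1 / ((n : ℝ) + 1)) ∧
      ∀ k, Tendsto (fun t => ef e k (w' t)) atTop (𝓝 (α k)) := by
    intro n
    obtain ⟨a, _, j0, hj0⟩ := exists_block h hX hc hC hN hΦ hg x α hα (1 / ((n : ℝ) + 1))
      (by positivity)
    obtain ⟨w', hw1, hw2⟩ := hj0 j0 le_rfl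
    exact ⟨_, w', hw1, hw2⟩
  choose w w' hw1 hw2 using hb
  have hdist : ∀ n m : ℕ, N (w n - w m) ≤ 1 / ((n : ℝ) + 1) + 1 / ((m : ℝ) + 1) := by
    intro n m
    refine seminorm_le_of_tendsto h hX hC (fun x => (hN x).2)
      (fun t => (w n - w' n t) - (w m - w' m t)) _
      ((1 / ((n : ℝ) + 1) + 1 / ((m : ℝ) + 1)) / c) (fun t => ?_) (fun k => ?_) _ (fun t => ?_)
    · rw [le_div_iff₀ hc, mul_comm]
      refine (hN _).1.trans ((map_sub_le_add N _ _).trans (add_le_add (hw1 n t) (hw1 m t)))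
    · have h1 := ((tendsto_const_nhds (x := ef e k (w n))).sub (hw2 n k)).sub
        ((tendsto_const_nhds (x := ef e k (w m))).sub (hw2 m k))
      have h2 : ef e k (w n) - α k - (ef e k (w m) - α k) = ef e k (w n - w m) := by
        rw [map_sub]; ring
      rw [h2] at h1
      refine h1.congr fun t => ?_
      rw [map_sub, map_sub, map_sub]
    · exact (map_sub_le_add N _ _).trans (add_le_add (hw1 n t) (hw1 m t))
  have hcau : CauchySeq w := by
    rw [Metric.cauchySeq_iff']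
    intro δ hδ
    obtain ⟨n0, hn0⟩ := exists_nat_one_div_lt (show 0 < c * δ / 2 by positivity)
    refine ⟨n0, fun n hn => ?_⟩
    rw [dist_eq_norm]
    have h1 := (hN (w n - w n0)).1.trans (hdist n n0)
    have h2 : 1 / ((n : ℝ) + 1) ≤ 1 / ((n0 : ℝ) + 1) := by
      apply one_div_le_one_div_of_le (by positivity)
      have : (n0 : ℝ) ≤ n := by exact_mod_cast hn
      linarith
    have h3 : c * ‖w n - w n0‖ < c * δ := by linarith
    exact lt_of_mul_lt_mul_left h3 hc.le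
  obtain ⟨u, hu⟩ := cauchySeq_tendsto_of_complete hcau
  refine ⟨u, fun k => ?_⟩
  have h1 : Tendsto (fun n => ef e k (w n)) atTop (𝓝 (ef e k u)) :=
    ((ef e k).continuous.tendsto _).comp hu
  have h2 : ∀ n : ℕ, |ef e k (w n) - α k| ≤ 1 / ((n : ℝ) + 1) / c := by
    intro n
    have h3 : Tendsto (fun t => |ef e k (w n) - ef e k (w' n t)|) atTop
        (𝓝 |ef e k (w n) - α k|) :=
      ((tendsto_const_nhds (x := ef e k (w n))).sub (hw2 n k)).abs
    refine le_of_tendsto h3 (Filter.Eventually.of_forall fun t => ?_)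
    rw [← map_sub]
    refine (abs_ef_le h hX k _).trans ?_
    rw [le_div_iff₀ hc, mul_comm]
    exact (hN _).1.trans (hw1 n t)
  have h3 : Tendsto (fun n => ef e k (w n) - α k) atTop (𝓝 0) := by
    rw [tendsto_zero_iff_abs_tendsto_zero]
    refine squeeze_zero (fun _ => abs_nonneg _) h2 ?_
    have h4 := (tendsto_one_div_add_atTop_nhds_zero_nat (𝕜 := ℝ)).div_const c
    rw [zero_div] at h4
    exact h4
  have h4 := h3.add (tendsto_const_nhds (x := α k))
  rw [zero_add] at h4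
  have h5 : Tendsto (fun n => ef e k (w n)) atTop (𝓝 (α k)) := h4.congr fun n => by ring
  exact tendsto_nhds_unique h1 h5

/-- Every sequence in the group has an asymptotically indiscernible subsequence with weak
limits. -/
theorem exists_subseq_limits (hR : RoelckePrecompact G) {Φ : G →* isomGroup N} (hΦ : ContHom Φ)
    (γ : ℕ → G) : ∃ ψ : ℕ → ℕ, StrictMono ψ ∧ Indisc (fun j => γ (ψ j)) ∧ ∀ x, ∃ u : X,
      ∀ k, Tendsto (fun j => ef e k ((Φ (γ (ψ j)) : X ≃ₗ[ℝ] X) x)) atTop (𝓝 (ef e k u)) := by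
  classical
  have hsep := separable_of_isCombSpace hX
  obtain ⟨ψ1, hψ1, hψ1'⟩ := exists_indiscernible hR γ
  set xs : ℕ → X := TopologicalSpace.denseSeq X with hxs
  have hcomp : IsCompact (Set.pi Set.univ fun p : ℕ × ℕ =>
    Set.Icc (-(C / c * ‖xs p.1‖)) (C / c * ‖xs p.1‖)) := isCompact_univ_pi fun _ => isCompact_Icc
  obtain ⟨b, _, φ, hφ, hlim⟩ := hcomp.tendsto_subseq
    (x := fun j => fun p : ℕ × ℕ => ef e p.2 ((Φ (γ (ψ1 j)) : X ≃ₗ[ℝ] X) (xs p.1)))
    (fun j p _ => abs_le.mp ((abs_ef_le h hX p.2 _).trans (isom_norm_le hc hN _ _)))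
  rw [tendsto_pi_nhds] at hlim
  have hind : Indisc (fun j => γ (ψ1 (φ j))) := Indisc.comp (g := fun j => γ (ψ1 j)) hψ1' hφ
  refine ⟨fun j => ψ1 (φ j), hψ1.comp hφ, hind, fun x => ?_⟩
  have hconv : ∀ k, ∃ α : ℝ,
      Tendsto (fun j => ef e k ((Φ (γ (ψ1 (φ j))) : X ≃ₗ[ℝ] X) x)) atTop (𝓝 α) := by
    intro k
    refine cauchySeq_tendsto_of_complete ?_
    rw [Metric.cauchySeq_iff]
    intro δ hδ
    obtain ⟨i, hi⟩ := (TopologicalSpace.denseRange_denseSeq X).exists_dist_lt x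
      (show 0 < δ / (4 * (C / c)) by positivity)
    rw [dist_eq_norm] at hi
    have h1 := (hlim (i, k)).cauchySeq
    rw [Metric.cauchySeq_iff] at h1
    obtain ⟨n0, hn0⟩ := h1 (δ / 4) (by positivity)
    refine ⟨n0, fun m hm n hn => ?_⟩
    have h2 := hn0 m hm n hn
    simp only [Function.comp_apply, Real.dist_eq] at h2 ⊢
    have h3 : ∀ j, |ef e k ((Φ (γ (ψ1 (φ j))) : X ≃ₗ[ℝ] X) x) -
        ef e k ((Φ (γ (ψ1 (φ j))) : X ≃ₗ[ℝ] X) (xs i))| ≤ δ / 4 := by
      intro j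
      rw [← map_sub, ← map_sub]
      refine (abs_ef_le h hX k _).trans ((isom_norm_le hc hN _ _).trans ?_)
      have h4 := mul_le_mul_of_nonneg_left hi.le (show 0 ≤ C / c by positivity)
      have h5 : C / c * (δ / (4 * (C / c))) = δ / 4 := by field_simp
      rw [h5] at h4
      exact h4
    have h4 := h3 m
    have h5 := h3 n
    rw [abs_le] at h4 h5
    rw [abs_lt] at h2 ⊢
    constructor <;> linarith [h2.1, h2.2, h4.1, h4.2, h5.1, h5.2]
  choose α hα using hconv
  obtain ⟨u, hu⟩ := exists_weak_limit h hX hc hC hN hΦ hind x α hα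
  exact ⟨u, fun k => by rw [hu k]; exact hα k⟩

end Limits

end Pool.Agent.Comb7f333f
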