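import Pool.Agent.Lib.MP_7f333f_an.Neg.Ops

set_option autoImplicit false
set_option linter.unusedSectionVars false

/-!
Spreading sequences with a bound for the signs, and with averages which tend to zero, in a
combinatorial space; there is no such sequence of isometric embeddings.
-/

namespace Pool.Agent.Comb7f333f

open Filter Topology

/-- The sums of the terms of the sequence do not depend on the terms, the signs change them by a
bounded factor, and the averages tend to zero. -/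
structure QSym {X : Type*} [AddCommGroup X] [Module ℝ X] (N : Seminorm ℝ X) (K : ℝ)
    (y : ℕ → X) : Prop where
  sign : ∀ (L : ℕ) (ι : Fin L → ℕ) (θ : Fin L → ℝ), StrictMono ι →
    (∀ i, θ i = 1 ∨ θ i = -1) → N (∑ i, θ i • y (ι i)) ≤ K * N (∑ i : Fin L, y i)
  spread : ∀ (L : ℕ) (ι : Fin L → ℕ), StrictMono ι →
    N (∑ i : Fin L, y i) = N (∑ i : Fin L, y (ι i))
  cesaro : ∀ ε : ℝ, 0 < ε → ∃ L : ℕ, 0 < L ∧ N (∑ i : Fin L, y i) ≤ ε * L

section Seq

variable {𝓕 : Set (Finset ℕ)} {X : Type*} [NormedAddCommGroup X] [NormedSpace ℝ X] {e : ℕ → X}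

variable (h : IsRegular 𝓕) (hX : IsCombSpace 𝓕 e) {N : Seminorm ℝ X} {c C : ℝ} (hc : 0 < c)
  (hN : ∀ x, c * ‖x‖ ≤ N x ∧ N x ≤ C * ‖x‖)

include hN in
theorem QSym.sum_eq {K : ℝ} {y : ℕ → X} (hy : QSym N K y) (L : ℕ) (ι : Fin L → ℕ)
    (hι : StrictMono ι) (θ : Fin L → ℝ) (hθ : ∀ i, θ i = 1 ∨ θ i = -1) :
    c * ‖∑ i, θ i • y (ι i)‖ ≤ K * N (∑ i : Fin L, y i) :=
  (hN _).1.trans (hy.sign L ι θ hι hθ)

include h hX hc hN

/-- The coordinates of a bounded symmetric sequence tend to zero. -/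
theorem QSym.coord_tendsto {K : ℝ} (hK : 0 < K) {y : ℕ → X} (hy : QSym N K y) (k : ℕ) :
    Tendsto (fun j => ef e k (y j)) atTop (𝓝 0) := by
  by_contra hcon
  rw [Metric.tendsto_atTop] at hcon
  push Not at hcon
  obtain ⟨δ, hδ, hf⟩ := hcon
  simp only [dist_zero_right, Real.norm_eq_abs] at hf
  obtain ⟨φ, hφ, hφ2⟩ := Filter.extraction_of_frequently_atTop
    (Filter.frequently_atTop.mpr hf)
  obtain ⟨L, hL, hL2⟩ := hy.cesaro (c * δ / (2 * K)) (by positivity)
  choose θ hθ1 hθ2 using fun i : Fin L => exists_sign_mul (ef e k (y (φ i)))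
  have h1 := QSym.sum_eq hN hy L (fun i => φ i) (fun i j hij => hφ hij) θ hθ1
  have h2 : L * δ ≤ ‖∑ i, θ i • y (φ i)‖ := by
    refine le_trans ?_ (abs_ef_le h hX k _)
    refine le_trans ?_ (le_abs_self _)
    rw [map_sum]
    have h3 : ∀ i ∈ (Finset.univ : Finset (Fin L)), δ ≤ ef e k (θ i • y (φ i)) := by
      intro i _
      rw [map_smul, smul_eq_mul, hθ2]
      exact hφ2 i
    have h4 := Finset.card_nsmul_le_sum _ _ _ h3
    rwa [Finset.card_univ, Fintype.card_fin, nsmul_eq_mul] at h4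
  have hL' : (0 : ℝ) < L := by exact_mod_cast hL
  have h3 : c * (L * δ) ≤ c * ‖∑ i, θ i • y (φ i)‖ := mul_le_mul_of_nonneg_left h2 hc.le
  have h4 : 0 < c * δ * L := by positivity
  have h5 : K * N (∑ i : Fin L, y i) ≤ c * δ / 2 * L := by
    refine (mul_le_mul_of_nonneg_left hL2 hK.le).trans_eq ?_
    field_simp
  nlinarith

/-- The section sums of a bounded symmetric sequence tend to zero. -/
theorem QSym.section_tendsto (hF : FarUnions 𝓕) {K : ℝ} (hK : 0 < K) {y : ℕ → X}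
    (hy : QSym N K y) (m : ℕ) (δ : ℝ) (hδ : 0 < δ) :
    ∀ᶠ j in atTop, ∀ G ∈ sec 𝓕 {m}, ∑ k ∈ G, |ef e k (y j)| ≤ δ := by
  classical
  by_contra hcon
  have hcon' : ∃ᶠ j in atTop, ∃ G ∈ sec 𝓕 {m}, δ < ∑ k ∈ G, |ef e k (y j)| := by
    rw [Filter.not_eventually] at hcon
    refine hcon.mono fun j hj => ?_
    push Not at hj
    exact hj
  obtain ⟨L, hL, hL2⟩ := hy.cesaro (c * δ / (4 * K)) (by positivity)
  obtain ⟨M, hM⟩ := hF m L
  -- far parts
  have hstep : ∀ T j0 : ℕ, ∃ j, j0 < j ∧ ∃ G ∈ sec 𝓕 {m}, (∀ k ∈ G, T < k) ∧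
      δ / 2 ≤ ∑ k ∈ G, |ef e k (y j)| := by
    intro T j0
    have h1 : Tendsto (fun j => ∑ k ∈ Finset.range (T + 1), |ef e k (y j)|) atTop (𝓝 0) := by
      have h2 : Tendsto (fun j => ∑ k ∈ Finset.range (T + 1), |ef e k (y j)|) atTop
          (𝓝 (∑ _k ∈ Finset.range (T + 1), (0 : ℝ))) := by
        refine tendsto_finsetSum _ fun k _ => ?_
        have := (QSym.coord_tendsto h hX hc hN hK hy k).abs
        rwa [abs_zero] at this
      simpa using h2
    obtain ⟨j, ⟨G, hG, hGδ⟩, hj1, hj2⟩ := (hcon'.and_eventually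
      ((h1.eventually_lt_const (show 0 < δ / 2 by positivity)).and
      (eventually_gt_atTop j0))).exists
    refine ⟨j, hj2, G.filter (T < ·), ⟨fun k hk => hG.1 k (Finset.mem_filter.mp hk).1,
      h.hereditary _ hG.2 _ (Finset.union_subset_union_right (Finset.filter_subset _ _))⟩,
      fun k hk => (Finset.mem_filter.mp hk).2, ?_⟩
    have h3 := Finset.sum_filter_add_sum_filter_not G (T < ·) fun k => |ef e k (y j)|
    have h4 : ∑ k ∈ G.filter (fun k => ¬ T < k), |ef e k (y j)| ≤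
        ∑ k ∈ Finset.range (T + 1), |ef e k (y j)| := by
      refine Finset.sum_le_sum_of_subset_of_nonneg (fun k hk => ?_) fun _ _ _ => abs_nonneg _
      rw [Finset.mem_filter] at hk
      rw [Finset.mem_range]
      omega
    linarith
  choose J hJ G hG1 hG2 hG3 using hstep
  let st : ℕ → ℕ × ℕ := fun l => Nat.rec (M, 0)
    (fun _ p => (max (p.1 + 1) ((G p.1 p.2).sup id), J p.1 p.2)) l
  have hst0 : st 0 = (M, 0) := rfl
  have hst : ∀ l, st (l + 1) = (max ((st l).1 + 1) ((G (st l).1 (st l).2).sup id),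
    J (st l).1 (st l).2) := fun l => rfl
  clear_value st
  set T : ℕ → ℕ := fun l => (st l).1 with hT
  set φ : ℕ → ℕ := fun l => J (st l).1 (st l).2 with hφ
  set Γ : ℕ → Finset ℕ := fun l => G (st l).1 (st l).2 with hΓ
  have hT0 : T 0 = M := by rw [hT]; simp only [hst0]
  have hTs : ∀ l, T (l + 1) = max (T l + 1) ((Γ l).sup id) := fun l => by
    rw [hT]; simp only [hst]; rfl
  have hTmono : StrictMono T := strictMono_nat_of_lt_succ fun l => by
    rw [hTs]; exact lt_of_lt_of_le (Nat.lt_succ_self _) (le_max_left _ _)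
  have hφs : ∀ l, (st (l + 1)).2 = φ l := fun l => by rw [hst]
  have hφmono : StrictMono φ := strictMono_nat_of_lt_succ fun l => by
    have h1 := hJ (st (l + 1)).1 (st (l + 1)).2
    rw [hφs] at h1
    have h2 : φ (l + 1) = J (st (l + 1)).1 (φ l) := by
      show J (st (l + 1)).1 (st (l + 1)).2 = _
      rw [hφs]
    rw [h2]
    exact h1
  have hΓ1 : ∀ l, Γ l ∈ sec 𝓕 {m} := fun l => hG1 _ _
  have hΓ2 : ∀ l, ∀ k ∈ Γ l, T l < k ∧ k ≤ T (l + 1) := by
    intro l k hk
    refine ⟨hG2 _ _ k hk, ?_⟩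
    rw [hTs]
    exact (Finset.le_sup (f := id) hk).trans (le_max_right _ _)
  have hΓ3 : ∀ l, δ / 2 ≤ ∑ k ∈ Γ l, |ef e k (y (φ l))| := fun l => hG3 _ _
  -- the union
  set D : Finset ℕ := Finset.univ.biUnion fun i : Fin L => Γ i with hD
  have hD𝓕 : D ∈ 𝓕 := hM _ fun i => ⟨by
    have := (hΓ1 i).2
    rwa [Finset.insert_eq], fun k hk => by
    have h1 := (hΓ2 i k hk).1
    have h2 := hTmono.monotone (Nat.zero_le (i : ℕ))
    rw [hT0] at h2
    omega⟩
  have hdisj : ∀ i ∈ (Finset.univ : Finset (Fin L)), ∀ j ∈ (Finset.univ : Finset (Fin L)),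
      i ≠ j → Disjoint (Γ i) (Γ j) := by
    intro i _ j _ hij
    rw [Finset.disjoint_left]
    intro k hk hk'
    have h1 := hΓ2 i k hk
    have h2 := hΓ2 j k hk'
    rcases lt_or_gt_of_ne (fun h' => hij (Fin.ext h') : (i : ℕ) ≠ j) with hlt | hlt
    · have := hTmono.monotone (show (i : ℕ) + 1 ≤ j from hlt)
      omega
    · have := hTmono.monotone (show (j : ℕ) + 1 ≤ i from hlt)
      omega
  -- the signs
  obtain ⟨θ, hθ1, hθ2⟩ := exists_sign_ge L (fun i : Fin L => y (φ i))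
    (fun v => ∑ k ∈ D, |ef e k v|) 0
  rw [zero_add] at hθ2
  have h1 : L * (δ / 2) ≤ ravg L (fun i : Fin L => y (φ i)) (fun v => ∑ k ∈ D, |ef e k v|) 0 := by
    rw [ravg_sum D (fun k v => |ef e k v|)]
    have h2 : ∀ i : Fin L, ∀ k ∈ Γ i, |ef e k (y (φ i))| ≤
        ravg L (fun i : Fin L => y (φ i)) (fun v => |ef e k v|) 0 := by
      intro i k _
      have h3 := ravg_comp (ef e k : X →ₗ[ℝ] ℝ) (fun t => |t|) L (fun i : Fin L => y (φ i)) 0
      simp only [ContinuousLinearMap.coe_coe] at h3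
      rw [h3]
      exact abs_coeff_le_ravg_abs L (fun i : Fin L => ef e k (y (φ i))) _ i
    rw [hD, Finset.sum_biUnion hdisj]
    have h3 : ∀ i ∈ (Finset.univ : Finset (Fin L)), δ / 2 ≤ ∑ k ∈ Γ i,
        ravg L (fun i : Fin L => y (φ i)) (fun v => |ef e k v|) 0 := fun i _ =>
      (hΓ3 i).trans (Finset.sum_le_sum (h2 i))
    have h4 := Finset.card_nsmul_le_sum _ _ _ h3
    rwa [Finset.card_univ, Fintype.card_fin, nsmul_eq_mul] at h4
  have h2 := sum_ef_le h hX hD𝓕 (∑ i : Fin L, θ i • y (φ i))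
  have h3 := QSym.sum_eq hN hy L (fun i => φ i) (fun i j hij => hφmono hij) θ hθ1
  have hL' : (0 : ℝ) < L := by exact_mod_cast hL
  have h4 : L * (δ / 2) ≤ ‖∑ i : Fin L, θ i • y (φ i)‖ := (h1.trans hθ2).trans h2
  have h5 : c * (L * (δ / 2)) ≤ c * ‖∑ i : Fin L, θ i • y (φ i)‖ :=
    mul_le_mul_of_nonneg_left h4 hc.le
  have h6 : 0 < c * δ * L := by positivity
  have h7 : K * N (∑ i : Fin L, y i) ≤ c * δ / 4 * L := by
    refine (mul_le_mul_of_nonneg_left hL2 hK.le).trans_eq ?_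
    field_simp
  nlinarith

/-- The sums of a bounded symmetric sequence are bounded. -/
theorem QSym.bounded_sums (hF : FarUnions 𝓕) {K : ℝ} (hK : 0 < K) {y : ℕ → X} (hy : QSym N K y)
    (B : ℝ) (hB : ∀ j, ‖y j‖ ≤ B) : ∃ K : ℝ, ∀ L : ℕ, N (∑ i : Fin L, y i) ≤ K := by
  have hcoord := QSym.coord_tendsto h hX hc hN hK hy
  obtain ⟨φ, hφ, hφ2⟩ := exists_subseq_of_good h hX y B hB (fun l => (1 / 2) ^ (l + 1))
    (fun l => by positivity) (fun l => pow_le_one₀ (by norm_num) (by norm_num)) (by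
      intro M j0 l
      have h1 := QSym.section_tendsto h hX hc hN hF hK hy M ((1 / 2) ^ (l + 1) / 2) (by positivity)
      have h2 := good_of_tendsto h hX y hcoord M ((1 / 2) ^ (l + 1)) (by positivity)
      obtain ⟨j, hj1, hj2, hj3⟩ := (h1.and (h2.and (eventually_gt_atTop j0))).exists
      exact ⟨j, hj3, hj2 hj1⟩)
  refine ⟨|C| * (B + 3), fun L => ?_⟩
  rw [hy.spread L (fun i => φ i) (fun i j hij => hφ hij)]
  have h2 := hφ2 (Finset.range L)
  have h3 := sum_half_pow_le (Finset.range L)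
  rw [← Fin.sum_univ_eq_sum_range (fun i => y (φ i)) L] at h2
  have h4 : ‖∑ i : Fin L, y (φ i)‖ ≤ B + 3 := by linarith
  refine ((hN _).2.trans (mul_le_mul_of_nonneg_right (le_abs_self C) (norm_nonneg _))).trans ?_
  exact mul_le_mul_of_nonneg_left h4 (abs_nonneg _)

end Seq

section Ops

variable {𝓕 : Set (Finset ℕ)} {X : Type*} [NormedAddCommGroup X] [NormedSpace ℝ X] {e : ℕ → X}

variable (h : IsRegular 𝓕) (hX : IsCombSpace 𝓕 e) {N : Seminorm ℝ X} {c C : ℝ} (hc : 0 < c)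
  (hC : 0 < C) (hN : ∀ x, c * ‖x‖ ≤ N x ∧ N x ≤ C * ‖x‖) (hcC : c ≤ C)
  (hU : ∀ r : ℕ, ∃ F ∈ 𝓕, r ≤ F.card)

include h hX hc hC hN hcC hU

/-- There is no symmetric sequence of isometric embeddings. -/
theorem no_qsym_embeddings [CompleteSpace X] (hF : FarUnions 𝓕) (T : ℕ → (X →L[ℝ] X))
    (hT : ∀ j x, N (T j x) = N x) (Kq : ℝ) (hKq : 0 < Kq)
    (hsym : ∀ x, QSym N Kq fun j => T j x) : False := by
  classical
  have hTn : ∀ j x, ‖T j x‖ ≤ (C / c) * ‖x‖ := by
    intro j x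
    have h1 := (hN (T j x)).1
    rw [hT] at h1
    have h2 := (hN x).2
    rw [div_mul_eq_mul_div, le_div_iff₀ hc]
    linarith
  -- uniform boundedness
  obtain ⟨K0, hK0⟩ := banach_steinhaus (g := fun L : ℕ => ∑ i : Fin L, T i) (by
    intro x
    obtain ⟨K, hK⟩ := QSym.bounded_sums h hX hc hN hF hKq (hsym x) _ fun j => hTn j x
    refine ⟨K / c, fun L => ?_⟩
    rw [sum_apply, le_div_iff₀ hc]
    have h1 := (hN (∑ i : Fin L, T i x)).1
    have h2 := hK L
    linarith)
  have hbound : ∀ (J : ℕ) (θ : Fin J → ℝ), (∀ i, θ i = 1 ∨ θ i = -1) → ∀ x,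
      ‖∑ i, θ i • T i x‖ ≤ (Kq * (C * K0) / c) * ‖x‖ := by
    intro J θ hθ x
    have h1 := QSym.sum_eq hN (hsym x) J (fun i => i) Fin.val_strictMono θ hθ
    have h2 := (hN (∑ i : Fin J, T i x)).2
    have h3 : ‖∑ i : Fin J, T i x‖ ≤ K0 * ‖x‖ := by
      have h4 := (∑ i : Fin J, T i).le_opNorm x
      rw [sum_apply] at h4
      exact h4.trans (mul_le_mul_of_nonneg_right (hK0 J) (norm_nonneg _))
    have h4 := mul_le_mul_of_nonneg_left h3 hC.le
    have h5 := mul_le_mul_of_nonneg_left (h2.trans h4) hKq.le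
    rw [div_mul_eq_mul_div, le_div_iff₀ hc]
    linarith
  -- the sections
  choose m i0 hmi using fun j => exists_section_ge h hX hc hC hN hcC hU (T j) (hT j)
  set δ : ℝ := c / (8 * C) with hδ
  have hδ0 : 0 < δ := by positivity
  set K : ℝ := |Kq * (C * K0) / c| with hK
  obtain ⟨J, hJ⟩ := exists_nat_gt (12 * K ^ 2 / δ ^ 2)
  have hJ0 : (0 : ℝ) < J := lt_of_le_of_lt (by positivity) hJ
  set m' : ℕ := Finset.univ.sup fun j : Fin J => m j with hm'
  have hmm' : ∀ j : Fin J, m j ≤ m' := fun j =>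
    Finset.le_sup (f := fun j : Fin J => m j) (Finset.mem_univ j)
  obtain ⟨M0, hM0⟩ := hF m' J
  set M := max M0 m' with hM
  -- a far index
  have hev : ∀ᶠ i in atTop, ∀ j : Fin J, i0 j ≤ i ∧
      ∑ k ∈ Finset.range (M + 1), |ef e k (T j (e i))| < δ / 2 := by
    rw [Filter.eventually_all]
    intro j
    refine (eventually_ge_atTop (i0 j)).and ?_
    have h2 : Tendsto (fun i => ∑ k ∈ Finset.range (M + 1), |ef e k (T j (e i))|) atTop
        (𝓝 (∑ _k ∈ Finset.range (M + 1), (0 : ℝ))) := by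
      refine tendsto_finsetSum _ fun k _ => ?_
      have := (tendsto_functional h hX ((ef e k).comp (T j))).abs
      rwa [abs_zero] at this
    rw [Finset.sum_const_zero] at h2
    exact h2.eventually_lt_const (by positivity)
  obtain ⟨i, hi⟩ := hev.exists
  choose A hA1 hA2 using fun j : Fin J => hmi j i (hi j).1
  set A' : Fin J → Finset ℕ := fun j => (A j).filter (M < ·) with hA'
  have hA'3 : ∀ j, δ / 2 ≤ ∑ k ∈ A' j, |ef e k (T j (e i))| := by
    intro j
    have h3 := Finset.sum_filter_add_sum_filter_not (A j) (M < ·) fun k => |ef e k (T j (e i))|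
    have h4 : ∑ k ∈ (A j).filter (fun k => ¬ M < k), |ef e k (T j (e i))| ≤
        ∑ k ∈ Finset.range (M + 1), |ef e k (T j (e i))| := by
      refine Finset.sum_le_sum_of_subset_of_nonneg (fun k hk => ?_) fun _ _ _ => abs_nonneg _
      rw [Finset.mem_filter] at hk
      rw [Finset.mem_range]
      omega
    have h5 := (hi j).2
    have h6 := hA2 j
    simp only [hA']
    linarith
  have hA'1 : ∀ j, insert m' (A' j) ∈ 𝓕 ∧ ∀ k ∈ A' j, M0 < k := by
    intro j
    have h0 : ∀ k ∈ A' j, M < k := fun k hk => (Finset.mem_filter.mp hk).2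
    have h0' : M0 ≤ M ∧ m' ≤ M := ⟨le_max_left _ _, le_max_right _ _⟩
    refine ⟨?_, fun k hk => by have := h0 k hk; omega⟩
    have h1 : insert (m j) (A' j) ∈ 𝓕 := by
      refine h.hereditary _ (hA1 j).2 _ ?_
      rw [← Finset.insert_eq]
      exact Finset.insert_subset_insert _ (Finset.filter_subset _ _)
    refine mem_of_inj h h1 (fun x => if x = m' then m j else x) ?_ ?_ ?_
    · intro x hx
      by_cases hxm : x = m'
      · simp only [hxm, if_true]
        exact Finset.mem_insert_self _ _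
      · simp only [hxm, if_false]
        exact Finset.mem_insert_of_mem ((Finset.mem_insert.mp hx).resolve_left hxm)
    · intro x _
      by_cases hxm : x = m'
      · simp only [hxm, if_true]; exact hmm' j
      · simp only [hxm, if_false]; exact le_rfl
    · have hne : ∀ y ∈ insert m' (A' j), y ≠ m' → m j ≠ y := by
        intro y hy hym hmy
        have h2 := h0 y ((Finset.mem_insert.mp hy).resolve_left hym)
        have h3 := hmm' j
        omega
      intro x hx y hy hxy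
      simp only at hxy
      by_cases hxM : x = m' <;> by_cases hyM : y = m'
      · rw [hxM, hyM]
      · rw [if_pos hxM, if_neg hyM] at hxy
        exact absurd hxy (hne y hy hyM)
      · rw [if_neg hxM, if_pos hyM] at hxy
        exact absurd hxy.symm (hne x hx hxM)
      · rw [if_neg hxM, if_neg hyM] at hxy
        exact hxy
  set D : Finset ℕ := Finset.univ.biUnion A' with hD
  have hD𝓕 : D ∈ 𝓕 := hM0 A' hA'1
  obtain ⟨θ, hθ1, hθ2⟩ := exists_sign_ge J (fun j : Fin J => T j (e i))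
    (fun v => ∑ k ∈ D, |ef e k v|) 0
  rw [zero_add] at hθ2
  have h1 : J * (δ / 2) / Real.sqrt (3 * J) ≤
      ravg J (fun j : Fin J => T j (e i)) (fun v => ∑ k ∈ D, |ef e k v|) 0 := by
    rw [ravg_sum D (fun k v => |ef e k v|)]
    have h2 : ∀ k ∈ D, (∑ j : Fin J, |ef e k (T j (e i))|) / Real.sqrt (3 * J) ≤
        ravg J (fun j : Fin J => T j (e i)) (fun v => |ef e k v|) 0 := by
      intro k _
      have h3 := ravg_comp (ef e k : X →ₗ[ℝ] ℝ) (fun t => |t|) J (fun j : Fin J => T j (e i)) 0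
      simp only [ContinuousLinearMap.coe_coe, map_zero] at h3
      rw [h3]
      exact khintchine_l1 J fun j : Fin J => ef e k (T j (e i))
    refine le_trans ?_ (Finset.sum_le_sum h2)
    rw [← Finset.sum_div, Finset.sum_comm]
    refine div_le_div_of_nonneg_right ?_ (Real.sqrt_nonneg _)
    have h3 : ∀ j ∈ (Finset.univ : Finset (Fin J)), δ / 2 ≤ ∑ k ∈ D, |ef e k (T j (e i))| := by
      intro j _
      refine (hA'3 j).trans (Finset.sum_le_sum_of_subset_of_nonneg ?_ fun _ _ _ => abs_nonneg _)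
      exact Finset.subset_biUnion_of_mem A' (Finset.mem_univ j)
    have h4 := Finset.card_nsmul_le_sum _ _ _ h3
    rwa [Finset.card_univ, Fintype.card_fin, nsmul_eq_mul] at h4
  have h2 := sum_ef_le h hX hD𝓕 (∑ j : Fin J, θ j • T j (e i))
  have h3 := hbound J θ hθ1 (e i)
  have h4 : (Kq * (C * K0) / c) * ‖e i‖ ≤ K := by
    have h5 := norm_basis_le hX i
    have h6 : (Kq * (C * K0) / c) * ‖e i‖ ≤ K * ‖e i‖ :=
      mul_le_mul_of_nonneg_right (le_abs_self _) (norm_nonneg _)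
    have h7 : 0 ≤ K := abs_nonneg _
    nlinarith
  have h5 : J * (δ / 2) / Real.sqrt (3 * J) ≤ K := by linarith
  have hsq : 0 < Real.sqrt (3 * J) := Real.sqrt_pos.mpr (by positivity)
  rw [div_le_iff₀ hsq] at h5
  have h6 : (J * (δ / 2)) ^ 2 ≤ (K * Real.sqrt (3 * J)) ^ 2 :=
    pow_le_pow_left₀ (by positivity) h5 2
  rw [mul_pow K, Real.sq_sqrt (by positivity)] at h6
  rw [div_lt_iff₀ (by positivity)] at hJ
  have h7 : (J : ℝ) * (J * δ ^ 2) ≤ J * (12 * K ^ 2) := by nlinarith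
  have h8 := le_of_mul_le_mul_left h7 hJ0
  linarith

end Ops

end Pool.Agent.Comb7f333f
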