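import Pool.Agent.Lib.MP_7f333f_an.RP.Limits
import Pool.Agent.Lib.MP_7f333f_an.RP.QSym

set_option autoImplicit false
set_option linter.unusedSectionVars false

/-!
A Roelcke precompact group acting isometrically on a combinatorial space does not contain any
sequence which tends weakly to zero.
-/

namespace Pool.Agent.Comb7f333f

open Filter Topology Equiv

section Ins

variable {X : Type*} [NormedAddCommGroup X] [NormedSpace ℝ X] {N : Seminorm ℝ X} {y : ℕ → X}

/-- Removing a term decreases the norm of the combinations. -/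
def Ins (N : Seminorm ℝ X) (y : ℕ → X) : Prop := ∀ (A : Finset ℕ) (k : ℕ), k ∉ A →
  ∀ a : ℕ → ℝ, N (∑ i ∈ A, a i • y i) ≤ N (∑ i ∈ insert k A, a i • y i)

theorem Ins.mono (hy : Ins N y) (A A' : Finset ℕ) (hA : A ⊆ A') (a : ℕ → ℝ) :
    N (∑ i ∈ A, a i • y i) ≤ N (∑ i ∈ A', a i • y i) := by
  classical
  have h1 : ∀ E : Finset ℕ, Disjoint E A → N (∑ i ∈ A, a i • y i) ≤
      N (∑ i ∈ E ∪ A, a i • y i) := by
    intro E
    induction E using Finset.induction_on with
    | empty => intro _; simp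
    | insert k E hk ih =>
      intro hd
      rw [Finset.disjoint_insert_left] at hd
      refine (ih hd.2).trans ?_
      rw [Finset.insert_union]
      exact hy (E ∪ A) k (fun h' => (Finset.mem_union.mp h').elim hk hd.1) a
  have h2 := h1 (A' \ A) Finset.sdiff_disjoint
  rwa [Finset.sdiff_union_of_subset hA] at h2

theorem Ins.sign (hy : Ins N y) (A : Finset ℕ) (a b : ℕ → ℝ)
    (hab : ∀ i ∈ A, b i = a i ∨ b i = - a i) :
    N (∑ i ∈ A, b i • y i) ≤ 2 * N (∑ i ∈ A, a i • y i) := by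
  classical
  have h1 : ∑ i ∈ A, b i • y i = ∑ i ∈ A.filter (fun i => b i = a i), a i • y i -
      ∑ i ∈ A.filter (fun i => ¬ b i = a i), a i • y i := by
    rw [← Finset.sum_filter_add_sum_filter_not A (fun i => b i = a i), sub_eq_add_neg,
      ← Finset.sum_neg_distrib]
    congr 1
    · refine Finset.sum_congr rfl fun i hi => ?_
      rw [(Finset.mem_filter.mp hi).2]
    · refine Finset.sum_congr rfl fun i hi => ?_
      obtain ⟨hi1, hi2⟩ := Finset.mem_filter.mp hi
      rw [(hab i hi1).resolve_left hi2, neg_smul]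
  rw [h1]
  refine (map_sub_le_add N _ _).trans ?_
  have h2 := hy.mono _ A (Finset.filter_subset (fun i => b i = a i) A) a
  have h3 := hy.mono _ A (Finset.filter_subset (fun i => ¬ b i = a i) A) a
  linarith

/-- If the convex combinations can be small, removing a term decreases the norms. -/
theorem OrdInv.ins {v : ℚ → X} (hv : OrdInv N v)
    (hsmall : ∀ ε : ℝ, 0 < ε → ∃ a : ℕ →₀ ℝ, IsConv 0 a ∧
      N (∑ i ∈ a.support, a i • v (i : ℚ)) ≤ ε) : Ins N fun i : ℕ => v (i : ℚ) := by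
  classical
  intro A k hk b
  refine le_of_forall_pos_le_add fun δ hδ => ?_
  obtain ⟨a, ha, ha2⟩ := hsmall (δ / (|b k| + 1)) (by positivity)
  set K := a.support.sup id with hK
  have hle : ∀ i ∈ a.support, i ≤ K := fun i hi => Finset.le_sup (f := id) hi
  have hK' : (0 : ℚ) < (K : ℚ) + 2 := by positivity
  set p : ℕ → ℚ := fun n => (k : ℚ) + ((n : ℚ) + 1) / ((K : ℚ) + 2) with hp
  have hp1 : ∀ n, (k : ℚ) < p n := by
    intro n
    have : (0 : ℚ) < ((n : ℚ) + 1) / ((K : ℚ) + 2) := by positivity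
    simp only [hp]
    linarith
  have hp2 : ∀ n ∈ a.support, p n < (k : ℚ) + 1 := by
    intro n hn
    have h1 : (n : ℚ) ≤ K := by exact_mod_cast hle n hn
    have : ((n : ℚ) + 1) / ((K : ℚ) + 2) < 1 := by
      rw [div_lt_one hK']; linarith
    simp only [hp]
    linarith
  have hp3 : ∀ n m : ℕ, (p n < p m ↔ (n : ℚ) < m) := by
    intro n m
    simp only [hp]
    rw [add_lt_add_iff_left, div_lt_div_iff_of_pos_right hK', add_lt_add_iff_right]
  have hterm : ∀ n ∈ a.support, N ((∑ i ∈ A, b i • v (i : ℚ)) + b k • v (p n)) =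
      N (∑ i ∈ insert k A, b i • v (i : ℚ)) := by
    intro n hn
    have h1 := hv ℕ (insert k A) (fun i => (i : ℚ)) (fun i => if i = k then p n else (i : ℚ)) b
      (by
        intro i _ j _
        have e1 := hp1 n
        have e2 := hp2 n hn
        by_cases hik : i = k <;> by_cases hjk : j = k
        · rw [if_pos hik, if_pos hjk, hik, hjk]
          exact ⟨fun h => absurd h (lt_irrefl _), fun h => absurd h (lt_irrefl _)⟩
        · rw [if_pos hik, if_neg hjk, hik]
          rcases lt_or_gt_of_ne hjk with hlt | hlt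
          · have h2 : (j : ℚ) < k := by exact_mod_cast hlt
            exact ⟨fun h => by linarith, fun h => by linarith⟩
          · have h2 : (k : ℚ) + 1 ≤ j := by exact_mod_cast hlt
            exact ⟨fun h => by linarith, fun h => by linarith⟩
        · rw [if_neg hik, if_pos hjk, hjk]
          rcases lt_or_gt_of_ne hik with hlt | hlt
          · have h2 : (i : ℚ) < k := by exact_mod_cast hlt
            exact ⟨fun h => by linarith, fun h => by linarith⟩
          · have h2 : (k : ℚ) + 1 ≤ i := by exact_mod_cast hlt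
            exact ⟨fun h => by linarith, fun h => by linarith⟩
        · rw [if_neg hik, if_neg hjk])
    rw [h1, Finset.sum_insert hk, if_pos rfl, add_comm]
    congr 2
    refine Finset.sum_congr rfl fun i hi => ?_
    have hik : ¬ i = k := fun h' => hk (h' ▸ hi)
    rw [if_neg hik]
  have h1 := seminorm_conv_le N ha (fun n => (∑ i ∈ A, b i • v (i : ℚ)) + b k • v (p n)) _
    fun n hn => (hterm n hn).le
  have h2 : Finsupp.linearCombination ℝ
      (fun n => (∑ i ∈ A, b i • v (i : ℚ)) + b k • v (p n)) a =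
      (∑ i ∈ A, b i • v (i : ℚ)) + b k • ∑ n ∈ a.support, a n • v (p n) := by
    rw [Finsupp.linearCombination_apply, Finsupp.sum]
    simp only [smul_add]
    rw [Finset.sum_add_distrib, ← Finset.sum_smul, ← mass_eq_sum, ha.mass_eq, one_smul,
      Finset.smul_sum]
    congr 1
    exact Finset.sum_congr rfl fun n _ => by rw [smul_comm]
  rw [h2] at h1
  have h3 := hv ℕ a.support p (fun n => (n : ℚ)) (fun n => a n) fun n _ m _ => hp3 n m
  rw [← h3] at ha2
  have h4 := map_sub_le_add N ((∑ i ∈ A, b i • v (i : ℚ)) +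
    b k • ∑ n ∈ a.support, a n • v (p n)) (b k • ∑ n ∈ a.support, a n • v (p n))
  rw [add_sub_cancel_right, map_smul_eq_mul N (b k), Real.norm_eq_abs] at h4
  have h5 : |b k| * N (∑ n ∈ a.support, a n • v (p n)) ≤ δ := by
    refine (mul_le_mul_of_nonneg_left ha2 (abs_nonneg _)).trans ?_
    rw [mul_div_assoc', div_le_iff₀ (by positivity)]
    nlinarith [abs_nonneg (b k)]
  linarith

theorem seminorm_sum_card_le (N : Seminorm ℝ X) {ι : Type*} (s : Finset ι) (u : ι → X) (M : ℝ)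
    (hM : ∀ i ∈ s, N (u i) ≤ M) : N (∑ i ∈ s, u i) ≤ s.card * M := by
  classical
  have h1 : ∀ s' : Finset ι, s' ⊆ s → N (∑ i ∈ s', u i) ≤ s'.card * M := by
    intro s'
    induction s' using Finset.induction_on with
    | empty => intro _; simp
    | insert i s' hi ih =>
      intro hs'
      rw [Finset.sum_insert hi, Finset.card_insert_of_notMem hi]
      refine (map_add_le_add N _ _).trans ?_
      have h2 := hM i (hs' (Finset.mem_insert_self _ _))
      have h3 := ih fun x hx => hs' (Finset.mem_insert_of_mem hx)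
      push_cast
      linarith
  exact h1 s subset_rfl

theorem OrdInv.cesaro {v : ℚ → X} (hv : OrdInv N v) (B : ℝ) (hB : ∀ q, N (v q) ≤ B)
    (hsmall : ∀ ε : ℝ, 0 < ε → ∃ a : ℕ →₀ ℝ, IsConv 0 a ∧
      N (∑ i ∈ a.support, a i • v (i : ℚ)) ≤ ε) (ε : ℝ) (hε : 0 < ε) :
    ∃ L : ℕ, 0 < L ∧ N (∑ i ∈ Finset.range L, v (i : ℚ)) ≤ ε * L := by
  classical
  obtain ⟨a, ha, ha2⟩ := hsmall (ε / 2) (by positivity)
  have hB0 : 0 ≤ B := (apply_nonneg N _).trans (hB 0)
  set K := a.support.sup id with hK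
  have hle : ∀ i ∈ a.support, i ≤ K := fun i hi => Finset.le_sup (f := id) hi
  obtain ⟨L, hL⟩ := exists_nat_gt (2 * (2 * K * B) / ε)
  have hL0 : (0 : ℝ) < L := lt_of_le_of_lt (by positivity) hL
  refine ⟨L, by exact_mod_cast hL0, ?_⟩
  -- the averages over translations
  have h1 : N (∑ t ∈ Finset.range L, ∑ n ∈ a.support, a n • v ((n + t : ℕ) : ℚ)) ≤
      L * (ε / 2) := by
    have h2 := seminorm_sum_card_le N (Finset.range L)
      (fun t => ∑ n ∈ a.support, a n • v ((n + t : ℕ) : ℚ)) (ε / 2) (fun t _ => by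
        have h3 := hv ℕ a.support (fun n => ((n + t : ℕ) : ℚ)) (fun n => (n : ℚ)) (fun n => a n)
          fun n _ m _ => by push_cast; rw [add_lt_add_iff_right]
        rw [h3]
        exact ha2)
    rwa [Finset.card_range] at h2
  have h2 : ∀ n ∈ a.support, N ((∑ t ∈ Finset.range L, v (t : ℚ)) -
      ∑ t ∈ Finset.range L, v ((n + t : ℕ) : ℚ)) ≤ 2 * K * B := by
    intro n hn
    have h3 := Finset.sum_range_add (fun t => v ((t : ℕ) : ℚ)) L n
    have h4 := Finset.sum_range_add (fun t => v ((t : ℕ) : ℚ)) n L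
    rw [add_comm n L, h3] at h4
    have h5 : (∑ t ∈ Finset.range L, v (t : ℚ)) - ∑ t ∈ Finset.range L, v ((n + t : ℕ) : ℚ) =
        (∑ t ∈ Finset.range n, v (t : ℚ)) - ∑ t ∈ Finset.range n, v ((L + t : ℕ) : ℚ) := by
      rw [sub_eq_sub_iff_add_eq_add, h4, add_comm]
    rw [h5]
    refine (map_sub_le_add N _ _).trans ?_
    have h6 := seminorm_sum_card_le N (Finset.range n) (fun t => v ((t : ℕ) : ℚ)) B fun t _ => hB _
    have h7 := seminorm_sum_card_le N (Finset.range n) (fun t => v ((L + t : ℕ) : ℚ)) B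
      fun t _ => hB _
    rw [Finset.card_range] at h6 h7
    have h8 : (n : ℝ) ≤ K := by exact_mod_cast hle n hn
    have h9 := mul_le_mul_of_nonneg_right h8 hB0
    linarith
  have h3 := seminorm_conv_le N ha (fun n => (∑ t ∈ Finset.range L, v (t : ℚ)) -
      ∑ t ∈ Finset.range L, v ((n + t : ℕ) : ℚ)) _ h2
  have h4 : Finsupp.linearCombination ℝ (fun n => (∑ t ∈ Finset.range L, v (t : ℚ)) -
      ∑ t ∈ Finset.range L, v ((n + t : ℕ) : ℚ)) a = (∑ t ∈ Finset.range L, v (t : ℚ)) -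
      ∑ t ∈ Finset.range L, ∑ n ∈ a.support, a n • v ((n + t : ℕ) : ℚ) := by
    rw [Finsupp.linearCombination_apply, Finsupp.sum, Finset.sum_comm]
    simp only [smul_sub]
    rw [Finset.sum_sub_distrib, ← Finset.sum_smul, ← mass_eq_sum, ha.mass_eq, one_smul]
    congr 1
    exact Finset.sum_congr rfl fun n _ => Finset.smul_sum
  rw [h4] at h3
  have h5 := map_add_le_add N ((∑ t ∈ Finset.range L, v (t : ℚ)) -
      ∑ t ∈ Finset.range L, ∑ n ∈ a.support, a n • v ((n + t : ℕ) : ℚ))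
      (∑ t ∈ Finset.range L, ∑ n ∈ a.support, a n • v ((n + t : ℕ) : ℚ))
  rw [sub_add_cancel] at h5
  rw [div_lt_iff₀ hε] at hL
  linarith

end Ins

section NoNull

variable {G : Subgroup (Perm ℕ)}

variable {𝓕 : Set (Finset ℕ)} {X : Type*} [NormedAddCommGroup X] [NormedSpace ℝ X]
  [CompleteSpace X] {e : ℕ → X}

variable (h : IsRegular 𝓕) (hX : IsCombSpace 𝓕 e) {N : Seminorm ℝ X} {c C : ℝ} (hc : 0 < c)
  (hC : 0 < C) (hN : ∀ x, c * ‖x‖ ≤ N x ∧ N x ≤ C * ‖x‖) (hcC : c ≤ C)
  (hU : ∀ r : ℕ, ∃ F ∈ 𝓕, r ≤ F.card) (hF : FarUnions 𝓕)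

include h hX hc hC hN hcC hU hF

theorem no_null_sequence (hR : RoelckePrecompact G) {Φ : G →* isomGroup N} (hΦ : ContHom Φ)
    (γ : ℕ → G)
    (hγ : ∀ x k, Tendsto (fun j => ef e k ((Φ (γ j) : X ≃ₗ[ℝ] X) x)) atTop (𝓝 0)) : False := by
  classical
  obtain ⟨ψ, hψ, hψ'⟩ := exists_indiscernible hR γ
  have hg : Indisc fun j => γ (ψ j) := hψ'
  have hg0 : ∀ x k, Tendsto (fun j => ef e k ((Φ (γ (ψ j)) : X ≃ₗ[ℝ] X) x)) atTop (𝓝 0) :=
    fun x k => (hγ x k).comp hψ.tendsto_atTop
  obtain ⟨T, hT1, hT2, hT3⟩ := exists_family hc hC hN hΦ hg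
  -- small convex combinations
  have hsmall : ∀ x, ∀ ε : ℝ, 0 < ε → ∃ a : ℕ →₀ ℝ, IsConv 0 a ∧
      N (∑ i ∈ a.support, a i • T (i : ℚ) x) ≤ ε := by
    intro x ε hε
    obtain ⟨a, ha, j0, hj0⟩ := exists_block h hX hc hC hN hΦ hg x (fun _ => 0) (hg0 x) (ε / 2)
      (by positivity)
    obtain ⟨j1, hj1⟩ := hT2 x (ε / 2) (by positivity) ℕ a.support (fun i => (i : ℚ))
    refine ⟨a, ha, ?_⟩
    obtain ⟨w', hw1, hw2⟩ := hj0 (max j0 j1) (le_max_left _ _)
    have h1 := hj1 (fun i => max j0 j1 + i)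
      (fun i _ => (le_max_right j0 j1).trans (Nat.le_add_right _ _))
      (fun i _ j _ => by rw [Nat.cast_lt, add_lt_add_iff_left]) fun i => a i
    have h2 : ∑ i ∈ a.support, |a i| = 1 := by
      rw [← ha.mass_eq, mass_eq_sum]
      exact Finset.sum_congr rfl fun i _ => abs_of_nonneg (ha.nonneg i)
    rw [h2] at h1
    have h3 : N (∑ i ∈ a.support, a i • (Φ (γ (ψ (max j0 j1 + i))) : X ≃ₗ[ℝ] X) x) ≤ ε / 2 := by
      refine seminorm_le_of_tendsto h hX hC (fun x => (hN x).2)
        (fun t => (∑ i ∈ a.support, a i • (Φ (γ (ψ (max j0 j1 + i))) : X ≃ₗ[ℝ] X) x) - w' t) _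
        (ε / 2 / c) (fun t => ?_) (fun k => ?_) _ hw1
      · rw [le_div_iff₀ hc, mul_comm]
        exact (hN _).1.trans (hw1 t)
      · have h4 := (tendsto_const_nhds (x := ef e k (∑ i ∈ a.support, a i •
          (Φ (γ (ψ (max j0 j1 + i))) : X ≃ₗ[ℝ] X) x))).sub (hw2 k)
        rw [sub_zero] at h4
        refine h4.congr fun t => ?_
        rw [map_sub]
    rw [abs_le] at h1
    linarith [h1.2]
  refine no_qsym_embeddings h hX hc hC hN hcC hU hF (fun j : ℕ => T (j : ℚ))
    (fun j x => hT1 _ x) 2 (by norm_num) fun x => ?_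
  have hv := hT3 x
  have hins := hv.ins (hsmall x)
  refine ⟨fun L ι θ hι hθ => ?_, fun L ι hι => ?_, fun ε hε => ?_⟩
  · have h1 := hv (Fin L) Finset.univ (fun i => ((ι i : ℕ) : ℚ)) (fun i => ((i : ℕ) : ℚ)) θ
      fun i _ j _ => by rw [Nat.cast_lt, Nat.cast_lt, hι.lt_iff_lt, Fin.lt_def]
    rw [h1]
    set θ' : ℕ → ℝ := fun i => if hi : i < L then θ ⟨i, hi⟩ else 1 with hθ'
    have h2 := hins.sign (Finset.range L) (fun _ => 1) θ' fun i hi => by
      rw [Finset.mem_range] at hi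
      simp only [hθ', dif_pos hi]
      exact hθ _
    have h3 : ∑ i : Fin L, θ i • T ((i : ℕ) : ℚ) x = ∑ i ∈ Finset.range L,
        θ' i • T (i : ℚ) x := by
      rw [← Fin.sum_univ_eq_sum_range (fun i => θ' i • T (i : ℚ) x) L]
      refine Finset.sum_congr rfl fun i _ => ?_
      simp only [hθ', dif_pos i.2]
    have h4 : ∑ i : Fin L, T ((i : ℕ) : ℚ) x = ∑ i ∈ Finset.range L,
        (1 : ℝ) • T (i : ℚ) x := by
      rw [← Fin.sum_univ_eq_sum_range (fun i => (1 : ℝ) • T (i : ℚ) x) L]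
      exact Finset.sum_congr rfl fun i _ => (one_smul _ _).symm
    rw [h3, h4]
    exact h2
  · have h1 := hv (Fin L) Finset.univ (fun i => ((i : ℕ) : ℚ)) (fun i => ((ι i : ℕ) : ℚ))
      (fun _ => 1) fun i _ j _ => by rw [Nat.cast_lt, Nat.cast_lt, hι.lt_iff_lt, Fin.lt_def]
    simpa only [one_smul] using h1
  · obtain ⟨L, hL, hL2⟩ := hv.cesaro (N x) (fun q => (hT1 q x).le) (hsmall x) ε hε
    refine ⟨L, hL, ?_⟩
    rw [← Fin.sum_univ_eq_sum_range (fun i => T (i : ℚ) x) L] at hL2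
    exact hL2

end NoNull

end Pool.Agent.Comb7f333f
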