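import Mathlib

set_option autoImplicit false

/-!
Iterated ultrafilter quantifiers over lists, and sequences all of whose increasing finite
subsequences stay in given trees.
-/

namespace Pool.Agent.Comb7f333f

open Filter

/-- The quantifier: for almost all `a₁`, for almost all `a₂`, ..., for almost all `a_d`, the
property holds for `s ++ [a₁, ..., a_d]`. -/
def AEl {α : Type*} (U : Ultrafilter α) : ℕ → (List α → Prop) → List α → Prop
  | 0, P, s => P s
  | d + 1, P, s => ∀ᶠ a in (U : Filter α), AEl U d P (s ++ [a])

variable {α : Type*} (U : Ultrafilter α)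

theorem AEl_of_forall (d : ℕ) (P : List α → Prop) (s : List α)
    (h : ∀ t : List α, t.length = s.length + d → P t) : AEl U d P s := by
  induction d generalizing s with
  | zero => exact h s (by simp)
  | succ d ih =>
    refine Eventually.of_forall fun a => ih (s ++ [a]) fun t ht => h t ?_
    rw [ht, List.length_append, List.length_singleton]
    omega

theorem AEl_exists {κ : Type*} (S : Set κ) (hS : S.Finite) (d : ℕ) (P : κ → List α → Prop)
    (s : List α) (h : AEl U d (fun t => ∃ c ∈ S, P c t) s) : ∃ c ∈ S, AEl U d (P c) s := by
  induction d generalizing s with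
  | zero => exact h
  | succ d ih =>
    have h1 : ∀ᶠ a in (U : Filter α), ∃ c ∈ S, AEl U d (P c) (s ++ [a]) :=
      Eventually.mono h fun a ha => ih (s ++ [a]) ha
    have h2 : (⋃ c ∈ S, {a | AEl U d (P c) (s ++ [a])}) ∈ U := by
      refine Filter.mem_of_superset h1 fun a ha => ?_
      obtain ⟨c, hc, hca⟩ := ha
      exact Set.mem_biUnion hc hca
    rw [Ultrafilter.finite_biUnion_mem_iff hS] at h2
    exact h2

/-- Given trees `Q n` such that, over each node, almost all one-step extensions are nodes, there
is a sequence such that all the finite increasing subsequences of tails are nodes. -/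
theorem exists_hereditary_branch (U : Ultrafilter ℕ) (hU : ∀ n : ℕ, Set.Ioi n ∈ U)
    (Q : ℕ → List ℕ → Prop) (hnil : ∀ n, Q n [])
    (hstep : ∀ n s, Q n s → ∀ᶠ a in (U : Filter ℕ), Q n (s ++ [a])) :
    ∃ a : ℕ → ℕ, StrictMono a ∧ ∀ n (β : ℕ → ℕ), StrictMono β → n ≤ β 0 →
      ∀ j, Q n ((List.range j).map fun i => a (β i)) := by
  classical
  -- the sets of admissible values
  set A : ℕ → List ℕ → Set ℕ := fun n s => {a | Q n s → Q n (s ++ [a])} with hA
  have hAU : ∀ n s, A n s ∈ U := by
    intro n s
    by_cases hs : Q n s
    · filter_upwards [hstep n s hs] with a ha _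
      exact ha
    · filter_upwards with a h'
      exact absurd h' hs
  have hpick : ∀ L : List ℕ, ∃ a : ℕ, (∀ b ∈ L, b < a) ∧
      ∀ n ≤ L.length, ∀ s, s.Sublist L → a ∈ A n s := by
    intro L
    have h1 : (⋂ n ∈ Finset.range (L.length + 1), ⋂ s ∈ L.sublists.toFinset, A n s) ∩
        Set.Ioi (L.foldr max 0) ∈ U := by
      refine Filter.inter_mem ?_ (hU _)
      rw [Filter.biInter_finset_mem]
      intro n _
      rw [Filter.biInter_finset_mem]
      intro s _
      exact hAU n s
    obtain ⟨a, ha1, ha2⟩ := U.nonempty_of_mem h1
    refine ⟨a, fun b hb => ?_, fun n hn s hs => ?_⟩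
    · have h2 : ∀ (L : List ℕ) (b : ℕ), b ∈ L → b ≤ L.foldr max 0 := by
        intro L
        induction L with
        | nil => intro b hb; exact absurd hb List.not_mem_nil
        | cons c L ih =>
          intro b hb
          rw [List.foldr_cons]
          rcases List.mem_cons.mp hb with rfl | hb
          · exact le_max_left _ _
          · exact (ih b hb).trans (le_max_right _ _)
      exact lt_of_le_of_lt (h2 L b hb) ha2
    · rw [Set.mem_iInter₂] at ha1
      have h2 := ha1 n (Finset.mem_range.mpr (by omega))
      rw [Set.mem_iInter₂] at h2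
      exact h2 s (by rw [List.mem_toFinset, List.mem_sublists]; exact hs)
  choose pick hpick1 hpick2 using hpick
  let L : ℕ → List ℕ := fun l => Nat.rec [] (fun _ M => M ++ [pick M]) l
  have hL0 : L 0 = [] := rfl
  have hLs : ∀ l, L (l + 1) = L l ++ [pick (L l)] := fun l => rfl
  clear_value L
  set a : ℕ → ℕ := fun l => pick (L l) with ha
  have hLa : ∀ l, L l = (List.range l).map a := by
    intro l
    induction l with
    | zero => rw [hL0]; rfl
    | succ l ih => rw [hLs, List.range_succ, List.map_append, ← ih]; rfl
  have hLlen : ∀ l, (L l).length = l := fun l => by rw [hLa]; simp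
  have hmono : StrictMono a := by
    refine strictMono_nat_of_lt_succ fun l => ?_
    refine hpick1 (L (l + 1)) (a l) ?_
    rw [hLa]
    exact List.mem_map.mpr ⟨l, List.mem_range.mpr (Nat.lt_succ_self l), rfl⟩
  refine ⟨a, hmono, fun n β hβ hn j => ?_⟩
  induction j with
  | zero => exact hnil n
  | succ j ih =>
    rw [List.range_succ, List.map_append, List.map_singleton]
    have h1 : ((List.range j).map fun i => a (β i)).Sublist (L (β j)) := by
      rw [hLa, show ((List.range j).map fun i => a (β i)) = ((List.range j).map β).map a by
        rw [List.map_map]; rfl]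
      refine List.Sublist.map a ?_
      -- a strictly increasing list with entries below `β j`
      have h2 : ((List.range j).map β).Pairwise (· < ·) := by
        rw [List.pairwise_map]
        exact List.pairwise_lt_range.imp fun h' => hβ h'
      have h3 : (List.range (β j)).Pairwise (· < ·) := List.pairwise_lt_range
      refine List.sublist_of_subperm_of_pairwise (r := (· < ·)) ?_ h2 h3
      refine List.subperm_of_subset ?_ ?_
      · exact h2.imp fun h' => ne_of_lt h'
      · intro b hb
        obtain ⟨i, hi, rfl⟩ := List.mem_map.mp hb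
        exact List.mem_range.mpr (hβ (List.mem_range.mp hi))
    have h2 := hpick2 (L (β j)) n (by
      rw [hLlen]
      exact hn.trans (hβ.monotone (Nat.zero_le j))) _ h1
    exact h2 ih

end Pool.Agent.Comb7f333f
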