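import Pool.Agent.Lib.MP_7f333f_an.RP.Types
import Pool.Agent.Lib.MP_7f333f_an.Neg.Limit

set_option autoImplicit false
set_option linter.unusedSectionVars false

/-!
From an asymptotically indiscernible sequence of elements of the group to a family of isometric
embeddings indexed by the rational numbers.
-/

namespace Pool.Agent.Comb7f333f

open Filter Topology Equiv

variable {G : Subgroup (Perm ℕ)}

/-- Asymptotically indiscernible sequences of elements of the group. -/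
def Indisc (g : ℕ → G) : Prop := ∀ (k : ℕ) (F : Finset ℕ), ∃ j0, ∀ α β : Fin k → ℕ,
  StrictMono α → StrictMono β → (∀ i, j0 ≤ α i) → (∀ i, j0 ≤ β i) →
  SameType F (fun i => g (α i)) (fun i => g (β i))

theorem Indisc.comp {g : ℕ → G} (hg : Indisc g) {ψ : ℕ → ℕ} (hψ : StrictMono ψ) :
    Indisc (fun j => g (ψ j)) := by
  intro k F
  obtain ⟨j0, hj0⟩ := hg k F
  exact ⟨j0, fun α β hα hβ hαj hβj => hj0 (ψ ∘ α) (ψ ∘ β) (hψ.comp hα) (hψ.comp hβ)
    (fun i => (hαj i).trans (hψ.id_le _)) (fun i => (hβj i).trans (hψ.id_le _))⟩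

theorem Indisc.finset {g : ℕ → G} (hg : Indisc g) (s : Finset ℚ) (F : Finset ℕ) :
    ∃ j0, ∀ α β : ℚ → ℕ, StrictMonoOn α s → StrictMonoOn β s → (∀ q ∈ s, j0 ≤ α q) →
      (∀ q ∈ s, j0 ≤ β q) → ∃ u : G, ∀ q ∈ s, ∀ m ∈ F,
        (u : Perm ℕ) ((g (α q) : Perm ℕ) m) = (g (β q) : Perm ℕ) m := by
  obtain ⟨j0, hj0⟩ := hg s.card F
  refine ⟨j0, fun α β hα hβ hαj hβj => ?_⟩
  set o := s.orderEmbOfFin rfl with ho
  have hos : ∀ i, o i ∈ s := fun i => s.orderEmbOfFin_mem rfl i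
  obtain ⟨u, hu⟩ := hj0 (fun i => α (o i)) (fun i => β (o i))
    (fun i j hij => hα (hos i) (hos j) (o.strictMono hij))
    (fun i j hij => hβ (hos i) (hos j) (o.strictMono hij))
    (fun i => hαj _ (hos i)) (fun i => hβj _ (hos i))
  refine ⟨u, fun q hq m hm => ?_⟩
  have h1 : q ∈ Set.range o := by
    rw [ho, Finset.range_orderEmbOfFin]
    exact hq
  obtain ⟨i, rfl⟩ := h1
  exact hu i m hm

/-- Far increasing labels exist. -/
theorem exists_far (s : Finset ℚ) (j0 : ℕ) : ∃ α : ℚ → ℕ, StrictMonoOn α s ∧ ∀ q, j0 ≤ α q := by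
  classical
  refine ⟨fun q => j0 + (s.filter (· < q)).card, fun q hq q' _ hqq => ?_, fun q =>
    Nat.le_add_right _ _⟩
  have h1 : (s.filter (· < q)).card < (s.filter (· < q')).card := by
    refine Finset.card_lt_card ⟨fun x hx => ?_, fun hcon => ?_⟩
    · rw [Finset.mem_filter] at hx ⊢
      exact ⟨hx.1, hx.2.trans hqq⟩
    · have h2 := hcon (Finset.mem_filter.mpr ⟨hq, hqq⟩)
      exact lt_irrefl _ (Finset.mem_filter.mp h2).2
  show j0 + _ < j0 + _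
  omega

/-- The labelled tuple `t` has, on the first `n` integers, the type of the far increasing tuples of
the sequence. -/
def Typ (g : ℕ → G) (n : ℕ) (s : Finset ℚ) (t : ℚ → G) : Prop :=
  ∃ j0, ∀ α : ℚ → ℕ, StrictMonoOn α s → (∀ q ∈ s, j0 ≤ α q) → ∃ u : G, ∀ q ∈ s, ∀ m,
    m < n → (u : Perm ℕ) ((t q : Perm ℕ) m) = (g (α q) : Perm ℕ) m

theorem Typ.mono {g : ℕ → G} (hg : Indisc g) {n n' : ℕ} (hn : n' ≤ n) {s s' : Finset ℚ}
    (hs : s' ⊆ s) {t : ℚ → G} (ht : Typ g n s t) : Typ g n' s' t := by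
  obtain ⟨j0, hj0⟩ := ht
  obtain ⟨j1, hj1⟩ := hg.finset s' (Finset.range n')
  refine ⟨j1, fun α hα hαj => ?_⟩
  obtain ⟨β, hβ, hβj⟩ := exists_far s (max j0 j1)
  obtain ⟨u, hu⟩ := hj0 β hβ fun q _ => (le_max_left _ _).trans (hβj q)
  obtain ⟨v, hv⟩ := hj1 β α (fun a ha b hb hab => hβ (hs ha) (hs hb) hab) hα
    (fun q _ => (le_max_right _ _).trans (hβj q)) hαj
  refine ⟨v * u, fun q hq m hm => ?_⟩
  rw [← hv q hq m (Finset.mem_range.mpr hm), ← hu q (hs hq) m (lt_of_lt_of_le hm hn)]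
  rfl

theorem Typ.step {g : ℕ → G} (hg : Indisc g) {n : ℕ} {s : Finset ℚ} {t : ℚ → G}
    (ht : Typ g n s t) (s' : Finset ℚ) (hs : s ⊆ s') : ∃ t' : ℚ → G, Typ g (n + 1) s' t' ∧
      ∀ q ∈ s, ∀ m, m < n → (t' q : Perm ℕ) m = (t q : Perm ℕ) m := by
  obtain ⟨j0, hj0⟩ := ht
  obtain ⟨j1, hj1⟩ := hg.finset s' (Finset.range (n + 1))
  obtain ⟨β, hβ, hβj⟩ := exists_far s' (max j0 j1)
  obtain ⟨u, hu⟩ := hj0 β (fun a ha b hb hab => hβ (hs ha) (hs hb) hab)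
    fun q _ => (le_max_left _ _).trans (hβj q)
  refine ⟨fun q => u⁻¹ * g (β q), ⟨j1, fun α hα hαj => ?_⟩, fun q hq m hm => ?_⟩
  · obtain ⟨v, hv⟩ := hj1 β α hβ hα (fun q _ => (le_max_right _ _).trans (hβj q)) hαj
    refine ⟨v * u, fun q hq m hm => ?_⟩
    rw [← hv q hq m (Finset.mem_range.mpr hm)]
    show (v : Perm ℕ) ((u : Perm ℕ) ((u : Perm ℕ)⁻¹ ((g (β q) : Perm ℕ) m))) = _
    simp
  · show (u : Perm ℕ)⁻¹ ((g (β q) : Perm ℕ) m) = _
    rw [← hu q hq m hm]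
    simp

/-- The stages of the construction. -/
theorem exists_stages {g : ℕ → G} (hg : Indisc g) : ∃ (I : ℕ → Finset ℚ) (gs : ℕ → ℚ → G),
    Monotone I ∧ (∀ q, ∃ n, q ∈ I n) ∧ (∀ n, Typ g n (I n) (gs n)) ∧
    ∀ n, ∀ q ∈ I n, ∀ m, m < n → (gs (n + 1) q : Perm ℕ) m = (gs n q : Perm ℕ) m := by
  classical
  obtain ⟨en, hen⟩ := exists_surjective_nat ℚ
  set I : ℕ → Finset ℚ := fun n => (Finset.range n).image en with hI
  have hImono : Monotone I := fun a b hab => Finset.image_subset_image (Finset.range_mono hab)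
  have hIex : ∀ q, ∃ n, q ∈ I n := by
    intro q
    obtain ⟨n, rfl⟩ := hen q
    exact ⟨n + 1, Finset.mem_image_of_mem _ (Finset.mem_range.mpr (Nat.lt_succ_self n))⟩
  have hstep : ∀ (n : ℕ) (t : {t : ℚ → G // Typ g n (I n) t}),
      ∃ t' : {t : ℚ → G // Typ g (n + 1) (I (n + 1)) t},
      ∀ q ∈ I n, ∀ m, m < n → (t'.1 q : Perm ℕ) m = (t.1 q : Perm ℕ) m := by
    intro n t
    obtain ⟨t', ht1, ht2⟩ := t.2.step hg (I (n + 1)) (hImono (Nat.le_succ n))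
    exact ⟨⟨t', ht1⟩, ht2⟩
  choose step hstep using hstep
  have h0 : Typ g 0 (I 0) (fun _ => 1) := ⟨0, fun α _ _ => ⟨1, fun q _ m hm =>
    absurd hm (Nat.not_lt_zero m)⟩⟩
  let gs : (n : ℕ) → {t : ℚ → G // Typ g n (I n) t} := fun n => Nat.rec ⟨_, h0⟩
    (fun n t => step n t) n
  have hgs : ∀ n, gs (n + 1) = step n (gs n) := fun n => rfl
  clear_value gs
  refine ⟨I, fun n => (gs n).1, hImono, hIex, fun n => (gs n).2, fun n q hq m hm => ?_⟩
  show ((gs (n + 1)).1 q : Perm ℕ) m = ((gs n).1 q : Perm ℕ) m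
  rw [hgs]
  exact hstep n (gs n) q hq m hm

section Ops

variable {X : Type*} [NormedAddCommGroup X] [NormedSpace ℝ X] [CompleteSpace X]
  {N : Seminorm ℝ X} {c C : ℝ}

/-- The homomorphism is continuous for the topology of pointwise convergence of the norms. -/
def ContHom (Φ : G →* isomGroup N) : Prop :=
  ∀ x, ∀ ε : ℝ, 0 < ε → ∃ F : Finset ℕ, ∀ g : G, (∀ n ∈ F, (g : Perm ℕ) n = n) →
    N ((Φ g : X ≃ₗ[ℝ] X) x - x) ≤ ε

/-- Elements which agree on a large finite set have close actions. -/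
theorem ContHom.close {Φ : G →* isomGroup N} (hΦ : ContHom Φ) (x : X) (δ : ℝ) (hδ : 0 < δ) :
    ∃ n0 : ℕ, ∀ a b : G, (∀ m, m < n0 → (a : Perm ℕ) m = (b : Perm ℕ) m) →
      N ((Φ a : X ≃ₗ[ℝ] X) x - (Φ b : X ≃ₗ[ℝ] X) x) ≤ δ := by
  obtain ⟨F, hF⟩ := hΦ x δ hδ
  refine ⟨F.sup id + 1, fun a b hab => ?_⟩
  have h1 := hF (b⁻¹ * a) fun n hn => by
    have h2 : n < F.sup id + 1 := Nat.lt_succ_of_le (Finset.le_sup (f := id) hn)
    show (b : Perm ℕ)⁻¹ ((a : Perm ℕ) n) = n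
    rw [hab n h2]
    simp
  rw [← isom_dist (Φ b), ← isom_mul, ← map_mul, mul_inv_cancel_left] at h1
  exact h1

/-- The family of isometric embeddings given by an asymptotically indiscernible sequence. -/
theorem exists_ops (hc : 0 < c) (hC : 0 < C) (hN : ∀ x, c * ‖x‖ ≤ N x ∧ N x ≤ C * ‖x‖)
    {Φ : G →* isomGroup N} (hΦ : ContHom Φ) {g : ℕ → G} (hg : Indisc g) :
    ∃ T : ℚ → (X →L[ℝ] X), (∀ q x, N (T q x) = N x) ∧
      ∀ x, ∀ δ : ℝ, 0 < δ → ∀ s : Finset ℚ, ∃ j0, ∀ α : ℚ → ℕ, StrictMonoOn α s →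
        (∀ q ∈ s, j0 ≤ α q) → ∃ u : G, ∀ q ∈ s,
          N ((Φ u : X ≃ₗ[ℝ] X) (T q x) - (Φ (g (α q)) : X ≃ₗ[ℝ] X) x) ≤ δ := by
  classical
  obtain ⟨I, gs, hI1, hI2, hgs1, hgs2⟩ := exists_stages hg
  have hNcont : Continuous N := by
    refine LipschitzWith.continuous (K := ⟨C, hC.le⟩) (LipschitzWith.of_dist_le_mul fun x y => ?_)
    rw [Real.dist_eq, dist_eq_norm]
    exact (abs_sub_map_le_sub N x y).trans (hN _).2
  have hstab : ∀ n k, ∀ q ∈ I n, ∀ m, m < n →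
      (gs (n + k) q : Perm ℕ) m = (gs n q : Perm ℕ) m := by
    intro n k
    induction k with
    | zero => intro q _ m _; rfl
    | succ k ih =>
      intro q hq m hm
      rw [← ih q hq m hm]
      exact hgs2 (n + k) q (hI1 (Nat.le_add_right n k) hq) m (by omega)
  have hclose : ∀ q x, ∀ δ : ℝ, 0 < δ → ∃ n0, ∀ n, n0 ≤ n → ∀ n', n0 ≤ n' →
      N ((Φ (gs n q) : X ≃ₗ[ℝ] X) x - (Φ (gs n' q) : X ≃ₗ[ℝ] X) x) ≤ δ := by
    intro q x δ hδ
    obtain ⟨n1, hn1⟩ := hΦ.close x δ hδ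
    obtain ⟨n2, hn2⟩ := hI2 q
    refine ⟨max n1 n2, fun n hn n' hn' => hn1 _ _ fun m hm => ?_⟩
    have h1 : q ∈ I (max n1 n2) := hI1 (le_max_right _ _) hn2
    have h2 : m < max n1 n2 := lt_of_lt_of_le hm (le_max_left _ _)
    have h3 := hstab (max n1 n2) (n - max n1 n2) q h1 m h2
    have h4 := hstab (max n1 n2) (n' - max n1 n2) q h1 m h2
    rw [show max n1 n2 + (n - max n1 n2) = n by omega] at h3
    rw [show max n1 n2 + (n' - max n1 n2) = n' by omega] at h4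
    rw [h3, h4]
  have hlim : ∀ q x, ∃ z, Tendsto (fun n => (Φ (gs n q) : X ≃ₗ[ℝ] X) x) atTop (𝓝 z) := by
    intro q x
    refine cauchySeq_tendsto_of_complete ?_
    rw [Metric.cauchySeq_iff']
    intro δ hδ
    obtain ⟨n0, hn0⟩ := hclose q x (c * δ / 2) (by positivity)
    refine ⟨n0, fun n hn => ?_⟩
    have h1 := hn0 n hn n0 le_rfl
    rw [dist_eq_norm]
    have h2 := (hN ((Φ (gs n q) : X ≃ₗ[ℝ] X) x - (Φ (gs n0 q) : X ≃ₗ[ℝ] X) x)).1
    have h3 : 0 < c * δ := by positivity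
    by_contra hcon
    push Not at hcon
    nlinarith
  choose T0 hT0 using hlim
  have hT0N : ∀ q x, N (T0 q x) = N x := by
    intro q x
    refine tendsto_nhds_unique ((hNcont.tendsto _).comp (hT0 q x)) ?_
    refine tendsto_const_nhds.congr fun n => ?_
    exact (isom_apply (Φ (gs n q)) x).symm
  have happrox : ∀ q x, ∀ δ : ℝ, 0 < δ → ∃ n0, ∀ n, n0 ≤ n →
      N (T0 q x - (Φ (gs n q) : X ≃ₗ[ℝ] X) x) ≤ δ := by
    intro q x δ hδ
    have h1 : Tendsto (fun n => N (T0 q x - (Φ (gs n q) : X ≃ₗ[ℝ] X) x)) atTop (𝓝 0) := by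
      have h2 := (hNcont.tendsto _).comp ((tendsto_const_nhds (x := T0 q x)).sub (hT0 q x))
      rw [sub_self, map_zero] at h2
      exact h2
    obtain ⟨n0, hn0⟩ := Filter.eventually_atTop.mp (h1.eventually_lt_const hδ)
    exact ⟨n0, fun n hn => (hn0 n hn).le⟩
  set Tl : ℚ → (X →ₗ[ℝ] X) := fun q => linearMapOfTendsto (T0 q)
    (fun n => ((Φ (gs n q) : X ≃ₗ[ℝ] X) : X →ₗ[ℝ] X)) (tendsto_pi_nhds.mpr fun x => hT0 q x)
    with hTl
  have hTl0 : ∀ q x, Tl q x = T0 q x := fun q x => rfl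
  set T : ℚ → (X →L[ℝ] X) := fun q => (Tl q).mkContinuous (C / c) (fun x => by
    rw [hTl0, div_mul_eq_mul_div, le_div_iff₀ hc]
    have h1 := (hN (T0 q x)).1
    rw [hT0N] at h1
    have h2 := (hN x).2
    linarith) with hT
  have hTT : ∀ q x, T q x = T0 q x := fun q x => rfl
  clear_value T
  refine ⟨T, fun q x => by rw [hTT, hT0N], fun x δ hδ s => ?_⟩
  -- a common stage
  obtain ⟨n1, hn1⟩ := hΦ.close x (δ / 2) (by positivity)
  have h2 : ∀ s : Finset ℚ, ∃ n2, s ⊆ I n2 ∧ ∀ q ∈ s, ∀ n, n2 ≤ n →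
      N (T0 q x - (Φ (gs n q) : X ≃ₗ[ℝ] X) x) ≤ δ / 2 := by
    intro s
    induction s using Finset.induction_on with
    | empty => exact ⟨0, Finset.empty_subset _, fun q hq => absurd hq (Finset.notMem_empty q)⟩
    | insert a s _ ih =>
      obtain ⟨n2, hs, hn2⟩ := ih
      obtain ⟨n3, hn3⟩ := hI2 a
      obtain ⟨n4, hn4⟩ := happrox a x (δ / 2) (by positivity)
      refine ⟨max n2 (max n3 n4), Finset.insert_subset (hI1 ((le_max_left _ _).trans
        (le_max_right _ _)) hn3) (hs.trans (hI1 (le_max_left _ _))), fun q hq n hn => ?_⟩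
      rcases Finset.mem_insert.mp hq with rfl | hq
      · exact hn4 n (((le_max_right _ _).trans (le_max_right _ _)).trans hn)
      · exact hn2 q hq n ((le_max_left _ _).trans hn)
  obtain ⟨n2, hsI, hn2⟩ := h2 s
  set n := max n1 n2 with hn
  obtain ⟨j0, hj0⟩ := (hgs1 n).mono hg (le_max_left n1 n2) (hsI.trans (hI1 (le_max_right n1 n2)))
  refine ⟨j0, fun α hα hαj => ?_⟩
  obtain ⟨u, hu⟩ := hj0 α hα hαj
  refine ⟨u, fun q hq => ?_⟩
  have h3 := hn2 q hq n (le_max_right _ _)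
  have h4 := hn1 (u * gs n q) (g (α q)) fun m hm => hu q hq m hm
  rw [← isom_dist (Φ u)] at h3
  rw [map_mul, isom_mul] at h4
  have h5 := map_add_le_add N
    ((Φ u : X ≃ₗ[ℝ] X) (T0 q x) - (Φ u : X ≃ₗ[ℝ] X) ((Φ (gs n q) : X ≃ₗ[ℝ] X) x))
    ((Φ u : X ≃ₗ[ℝ] X) ((Φ (gs n q) : X ≃ₗ[ℝ] X) x) - (Φ (g (α q)) : X ≃ₗ[ℝ] X) x)
  rw [sub_add_sub_cancel] at h5
  rw [hTT]
  linarith

/-- Families indexed by the rational numbers, such that the norms of combinations depend only on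
the order of the indices. -/
def OrdInv (N : Seminorm ℝ X) (v : ℚ → X) : Prop :=
  ∀ (ι : Type) (s : Finset ι) (q q' : ι → ℚ) (a : ι → ℝ),
    (∀ i ∈ s, ∀ j ∈ s, (q i < q j ↔ q' i < q' j)) →
    N (∑ i ∈ s, a i • v (q i)) = N (∑ i ∈ s, a i • v (q' i))

/-- The norms of the combinations of the sequence with far indices approach the norms of the
combinations of the family. -/
def Approx (Φ : G →* isomGroup N) (g : ℕ → G) (T : ℚ → (X →L[ℝ] X)) : Prop :=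
  ∀ x, ∀ δ : ℝ, 0 < δ → ∀ (ι : Type) (s : Finset ι) (q : ι → ℚ), ∃ j0, ∀ β : ι → ℕ,
    (∀ i ∈ s, j0 ≤ β i) → (∀ i ∈ s, ∀ j ∈ s, (q i < q j ↔ β i < β j)) → ∀ a : ι → ℝ,
    |N (∑ i ∈ s, a i • T (q i) x) - N (∑ i ∈ s, a i • (Φ (g (β i)) : X ≃ₗ[ℝ] X) x)| ≤
      δ * ∑ i ∈ s, |a i|

theorem exists_family (hc : 0 < c) (hC : 0 < C) (hN : ∀ x, c * ‖x‖ ≤ N x ∧ N x ≤ C * ‖x‖)
    {Φ : G →* isomGroup N} (hΦ : ContHom Φ) {g : ℕ → G} (hg : Indisc g) :
    ∃ T : ℚ → (X →L[ℝ] X), (∀ q x, N (T q x) = N x) ∧ Approx Φ g T ∧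
      ∀ x, OrdInv N fun q => T q x := by
  classical
  obtain ⟨T, hT1, hT2⟩ := exists_ops hc hC hN hΦ hg
  have hA : Approx Φ g T := by
    intro x δ hδ ι s q
    obtain ⟨j0, hj0⟩ := hT2 x δ hδ (s.image q)
    refine ⟨j0, fun β hβ hqβ a => ?_⟩
    have hinj : ∀ i ∈ s, ∀ j ∈ s, q i = q j → β i = β j := by
      intro i hi j hj hij
      have h1 := hqβ i hi j hj
      have h2 := hqβ j hj i hi
      rw [hij] at h1 h2
      rcases lt_trichotomy (β i) (β j) with h' | h' | h'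
      · exact absurd (h1.mpr h') (lt_irrefl _)
      · exact h'
      · exact absurd (h2.mpr h') (lt_irrefl _)
    set α : ℚ → ℕ := fun r => if hr : ∃ i ∈ s, q i = r then β hr.choose else 0 with hα
    have hαq : ∀ i ∈ s, α (q i) = β i := by
      intro i hi
      have hr : ∃ i' ∈ s, q i' = q i := ⟨i, hi, rfl⟩
      simp only [hα, dif_pos hr]
      exact hinj _ hr.choose_spec.1 _ hi hr.choose_spec.2
    obtain ⟨u, hu⟩ := hj0 α (by
      intro r hr r' hr' hrr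
      rw [Finset.coe_image] at hr hr'
      obtain ⟨i, hi, rfl⟩ := hr
      obtain ⟨j, hj, rfl⟩ := hr'
      rw [hαq i hi, hαq j hj]
      exact (hqβ i hi j hj).mp hrr) (by
      intro r hr
      obtain ⟨i, hi, rfl⟩ := Finset.mem_image.mp hr
      rw [hαq i hi]
      exact hβ i hi)
    have h1 : N (∑ i ∈ s, a i • T (q i) x) = N (∑ i ∈ s, a i • (Φ u : X ≃ₗ[ℝ] X) (T (q i) x)) := by
      rw [← isom_apply (Φ u), map_sum]
      simp only [map_smul]
    rw [h1]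
    refine (abs_sub_map_le_sub N _ _).trans ?_
    rw [← Finset.sum_sub_distrib, Finset.mul_sum]
    have h2 : ∀ s' : Finset ι, s' ⊆ s → N (∑ i ∈ s', (a i • (Φ u : X ≃ₗ[ℝ] X) (T (q i) x) -
        a i • (Φ (g (β i)) : X ≃ₗ[ℝ] X) x)) ≤ ∑ i ∈ s', δ * |a i| := by
      intro s'
      induction s' using Finset.induction_on with
      | empty => intro _; simp
      | insert i s' hi ih =>
        intro hs'
        rw [Finset.sum_insert hi, Finset.sum_insert hi]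
        refine (map_add_le_add N _ _).trans (add_le_add ?_ (ih fun y hy =>
          hs' (Finset.mem_insert_of_mem hy)))
        rw [← smul_sub, map_smul_eq_mul, Real.norm_eq_abs, mul_comm]
        have his := hs' (Finset.mem_insert_self i s')
        have h3 := hu (q i) (Finset.mem_image_of_mem q his)
        rw [hαq i his] at h3
        exact mul_le_mul_of_nonneg_right h3 (abs_nonneg _)
    exact h2 s subset_rfl
  refine ⟨T, hT1, hA, fun x ι s q q' a hqq => ?_⟩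
  have key : ∀ δ : ℝ, 0 < δ → |N (∑ i ∈ s, a i • T (q i) x) - N (∑ i ∈ s, a i • T (q' i) x)| ≤
      2 * (δ * ∑ i ∈ s, |a i|) := by
    intro δ hδ
    obtain ⟨j1, hj1⟩ := hA x δ hδ ι s q
    obtain ⟨j2, hj2⟩ := hA x δ hδ ι s q'
    obtain ⟨α, hα, hαj⟩ := exists_far (s.image q) (max j1 j2)
    have hm : ∀ i ∈ s, ∀ j ∈ s, (q i < q j ↔ α (q i) < α (q j)) := fun i hi j hj =>
      (hα.lt_iff_lt (by rw [Finset.coe_image]; exact ⟨i, hi, rfl⟩)
        (by rw [Finset.coe_image]; exact ⟨j, hj, rfl⟩)).symm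
    have h1 := hj1 (fun i => α (q i)) (fun i _ => (le_max_left _ _).trans (hαj _)) hm a
    have h2 := hj2 (fun i => α (q i)) (fun i _ => (le_max_right _ _).trans (hαj _))
      (fun i hi j hj => (hqq i hi j hj).symm.trans (hm i hi j hj)) a
    rw [abs_le] at h1 h2 ⊢
    constructor <;> linarith [h1.1, h1.2, h2.1, h2.2]
  have h0 : |N (∑ i ∈ s, a i • T (q i) x) - N (∑ i ∈ s, a i • T (q' i) x)| ≤ 0 := by
    refine le_of_forall_pos_le_add fun δ hδ => ?_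
    rw [zero_add]
    have hS : 0 ≤ ∑ i ∈ s, |a i| := Finset.sum_nonneg fun i _ => abs_nonneg _
    refine (key (δ / (2 * (∑ i ∈ s, |a i| + 1))) (by positivity)).trans ?_
    rw [div_mul_eq_mul_div, ← mul_div_assoc, div_le_iff₀ (by positivity)]
    nlinarith
  have h1 := abs_nonpos_iff.mp h0
  linarith

end Ops

end Pool.Agent.Comb7f333f
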