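import Pool.Agent.Lib.MP_7f333f_an.RP.FiniteIndex
import Pool.Agent.Lib.MP_7f333f_an.RP.NoNull
import Pool.Agent.Lib.MP_7f333f_an.RP.Converse

set_option autoImplicit false

/-!
The Roelcke precompact closed subgroups of `SYM(ℕ)` which are topologically displayable on a
combinatorial space.
-/

namespace Pool.Agent.Comb7f333f

open Equiv

/-- If a Roelcke precompact group acts isometrically for an equivalent norm, and `z` acts as `-1`,
then `z` is outside of some open subgroup of finite index. -/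
theorem exists_finiteIndex_of_hom {𝓕 : Set (Finset ℕ)} {X : Type*} [NormedAddCommGroup X]
    [NormedSpace ℝ X] [CompleteSpace X] {e : ℕ → X} (h : IsRegular 𝓕) (hX : IsCombSpace 𝓕 e)
    (hU : ∀ r : ℕ, ∃ F ∈ 𝓕, r ≤ F.card) (hF : FarUnions 𝓕)
    {G : Subgroup (Perm ℕ)} (hR : RoelckePrecompact G)
    {N : Seminorm ℝ X} {c C : ℝ} (hc : 0 < c)
    (hN : ∀ x, c * ‖x‖ ≤ N x ∧ N x ≤ C * ‖x‖) (Φ : G →* isomGroup N) (hΦ : ContHom Φ)
    (z : G) (hz : ∀ x, (Φ z : X ≃ₗ[ℝ] X) x = -x) :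
    ∃ L : Subgroup G, L.FiniteIndex ∧
      (∃ F : Finset ℕ, ∀ g : G, (∀ n ∈ F, (g : Perm ℕ) n = n) → g ∈ L) ∧ z ∉ L := by
  classical
  -- a nonzero vector, and the constants
  have hne : e 0 ≠ 0 := by
    intro h0
    have h1 := ef_basis h hX 0 0
    rw [h0, map_zero, if_pos rfl] at h1
    exact zero_ne_one h1
  have hcC : c ≤ C := by
    have h1 := hN (e 0)
    have h2 : 0 < ‖e 0‖ := norm_pos_iff.mpr hne
    by_contra hcon
    push Not at hcon
    nlinarith
  have hC : 0 < C := lt_of_lt_of_le hc hcC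
  by_cases hTB : ∃ y, TBOrbit Φ y ∧ y ≠ 0
  · obtain ⟨y, hy1, hy2⟩ := hTB
    refine exists_finiteIndex hR hΦ ?_ hy1 z (hz y)
    have h1 := (hN y).1
    have h2 : 0 < ‖y‖ := norm_pos_iff.mpr hy2
    have h3 : 0 < c * ‖y‖ := by positivity
    linarith
  · push Not at hTB
    obtain ⟨γ, hγ⟩ := exists_null_sequence h hX hc hC hN hR hΦ hTB
    exact (no_null_sequence h hX hc hC hN hcC hU hF hR hΦ γ hγ).elim

end Pool.Agent.Comb7f333f
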