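import Pool.Agent.Lib.MP_7f333f_an.RP.Ramsey

set_option autoImplicit false

/-!
Types of tuples of elements of a group of permutations; extraction of indiscernible sequences in
Roelcke precompact groups.
-/

namespace Pool.Agent.Comb7f333f

open Filter Equiv

/-- A group of permutations is Roelcke precompact: for each finite set `F` there are finitely many
double cosets of the pointwise stabiliser of `F`. -/
def RoelckePrecompact (G : Subgroup (Perm ℕ)) : Prop :=
  ∀ F : Finset ℕ, ∃ S : Set (Perm ℕ), S.Finite ∧ ∀ g ∈ G, ∃ s ∈ S, ∃ v ∈ G, ∃ w ∈ G,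
    (∀ n ∈ F, v n = n) ∧ (∀ n ∈ F, w n = n) ∧ g = v * s * w

variable {G : Subgroup (Perm ℕ)}

/-- The two tuples of elements of the group have the same type on `F`. -/
def SameType (F : Finset ℕ) {k : ℕ} (t t' : Fin k → G) : Prop :=
  ∃ u : G, ∀ i, ∀ m ∈ F, (u : Perm ℕ) ((t i : Perm ℕ) m) = (t' i : Perm ℕ) m

theorem SameType.refl (F : Finset ℕ) {k : ℕ} (t : Fin k → G) : SameType F t t :=
  ⟨1, fun _ _ _ => rfl⟩

theorem SameType.symm {F : Finset ℕ} {k : ℕ} {t t' : Fin k → G} (h : SameType F t t') :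
    SameType F t' t := by
  obtain ⟨u, hu⟩ := h
  refine ⟨u⁻¹, fun i m hm => ?_⟩
  rw [← hu i m hm]
  simp

theorem SameType.trans {F : Finset ℕ} {k : ℕ} {t t' t'' : Fin k → G} (h : SameType F t t')
    (h' : SameType F t' t'') : SameType F t t'' := by
  obtain ⟨u, hu⟩ := h
  obtain ⟨u', hu'⟩ := h'
  refine ⟨u' * u, fun i m hm => ?_⟩
  rw [← hu' i m hm, ← hu i m hm]
  rfl

theorem SameType.mono {F F' : Finset ℕ} (hF : F ⊆ F') {k : ℕ} {t t' : Fin k → G}
    (h : SameType F' t t') : SameType F t t' := by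
  obtain ⟨u, hu⟩ := h
  exact ⟨u, fun i m hm => hu i m (hF hm)⟩

theorem SameType.comp {F : Finset ℕ} {k r : ℕ} {t t' : Fin k → G} (h : SameType F t t')
    (φ : Fin r → Fin k) : SameType F (fun i => t (φ i)) (fun i => t' (φ i)) := by
  obtain ⟨u, hu⟩ := h
  exact ⟨u, fun i m hm => hu (φ i) m hm⟩

theorem SameType.mul_left (F : Finset ℕ) {k : ℕ} (t : Fin k → G) (u : G) :
    SameType F t (fun i => u * t i) := ⟨u, fun _ _ _ => rfl⟩

/-- There are finitely many types of tuples. -/
theorem finite_types (hR : RoelckePrecompact G) (k : ℕ) : ∀ F : Finset ℕ,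
    ∃ S : Set (Fin k → G), S.Finite ∧ ∀ t : Fin k → G, ∃ s ∈ S, SameType F t s := by
  classical
  induction k with
  | zero =>
    intro F
    exact ⟨{fun i => i.elim0}, Set.finite_singleton _, fun t =>
      ⟨_, rfl, 1, fun i => i.elim0⟩⟩
  | succ k ih =>
    intro F
    obtain ⟨S, hS, hS2⟩ := ih F
    set Fs : (Fin k → G) → Finset ℕ := fun s =>
      F ∪ Finset.univ.biUnion fun i => F.image fun m => (s i : Perm ℕ) m with hFs
    choose S' hS' hS'2 using fun s => hR (Fs s)
    refine ⟨⋃ s ∈ S, (fun σ : Perm ℕ => Fin.snoc (α := fun _ => G) s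
      (if h : σ ∈ G then (⟨σ, h⟩ : G) else 1)) '' S' s,
      hS.biUnion fun s _ => (hS' s).image _, fun t => ?_⟩
    obtain ⟨s, hs, u, hu⟩ := hS2 fun i => t i.castSucc
    obtain ⟨σ, hσ, v, hv, w, hw, hvF, hwF, hg⟩ := hS'2 s ((u * t (Fin.last k) : G) : Perm ℕ)
      (u * t (Fin.last k)).2
    have hσG : σ ∈ G := by
      have : σ = v⁻¹ * ((u * t (Fin.last k) : G) : Perm ℕ) * w⁻¹ := by
        rw [hg]; group
      rw [this]
      exact G.mul_mem (G.mul_mem (G.inv_mem hv) (u * t (Fin.last k)).2) (G.inv_mem hw)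
    refine ⟨_, Set.mem_biUnion hs ⟨σ, hσ, rfl⟩, ⟨v, hv⟩⁻¹ * u, fun i m hm => ?_⟩
    refine Fin.lastCases ?_ (fun i => ?_) i
    · beta_reduce
      rw [Fin.snoc_last, dif_pos hσG]
      have h1 : ((u * t (Fin.last k) : G) : Perm ℕ) m = v (σ (w m)) := by
        rw [hg]; rfl
      have h2 : w m = m := hwF m (Finset.mem_union_left _ hm)
      rw [h2] at h1
      have h3 : (((⟨v, hv⟩⁻¹ * u : G) : Perm ℕ) ((t (Fin.last k) : Perm ℕ) m)) =
          v⁻¹ (((u * t (Fin.last k) : G) : Perm ℕ) m) := rfl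
      rw [h3, h1]
      simp
    · beta_reduce
      rw [Fin.snoc_castSucc]
      have h3 : (((⟨v, hv⟩⁻¹ * u : G) : Perm ℕ) ((t i.castSucc : Perm ℕ) m)) =
          v⁻¹ ((u : Perm ℕ) ((t i.castSucc : Perm ℕ) m)) := rfl
      rw [h3, hu i m hm, Equiv.Perm.inv_eq_iff_eq]
      refine (hvF _ ?_).symm
      exact Finset.mem_union_right _ (Finset.mem_biUnion.mpr ⟨i, Finset.mem_univ i,
        Finset.mem_image_of_mem _ hm⟩)

/-- Every sequence has a subsequence which is asymptotically indiscernible. -/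
theorem exists_indiscernible (hR : RoelckePrecompact G) (γ : ℕ → G) :
    ∃ ψ : ℕ → ℕ, StrictMono ψ ∧ ∀ (k : ℕ) (F : Finset ℕ), ∃ j0, ∀ α β : Fin k → ℕ,
      StrictMono α → StrictMono β → (∀ i, j0 ≤ α i) → (∀ i, j0 ≤ β i) →
      SameType F (fun i => γ (ψ (α i))) (fun i => γ (ψ (β i))) := by
  classical
  set U : Ultrafilter ℕ := Filter.hyperfilter ℕ with hU
  have hUIoi : ∀ n : ℕ, Set.Ioi n ∈ U := fun n =>
    Filter.mem_hyperfilter_of_finite_compl (by
      rw [Set.compl_Ioi]; exact Set.finite_Iic n)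
  obtain ⟨en, hen⟩ := exists_surjective_nat (ℕ × Finset ℕ)
  have hcol : ∀ p : ℕ × Finset ℕ, ∃ c : Fin p.1 → G, AEl U p.1
      (fun t => SameType p.2 (fun i : Fin p.1 => γ (t.getD i 0)) c) [] := by
    intro p
    obtain ⟨S, hS, hS2⟩ := finite_types hR p.1 p.2
    obtain ⟨c, _, hc⟩ := AEl_exists U S hS p.1
      (fun c t => SameType p.2 (fun i : Fin p.1 => γ (t.getD i 0)) c) []
      (AEl_of_forall U _ _ _ fun t _ => hS2 _)
    exact ⟨c, hc⟩
  choose c hc using hcol
  obtain ⟨a, ha, hbr⟩ := exists_hereditary_branch U hUIoi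
    (fun n s => s.length ≤ (en n).1 → AEl U ((en n).1 - s.length)
      (fun t => SameType (en n).2 (fun i : Fin (en n).1 => γ (t.getD i 0)) (c (en n))) s)
    (fun n _ => hc (en n)) (by
      intro n s hs
      by_cases hlt : s.length < (en n).1
      · have h1 := hs hlt.le
        obtain ⟨d, hd⟩ : ∃ d, (en n).1 - s.length = d + 1 := ⟨(en n).1 - s.length - 1, by omega⟩
        rw [hd] at h1
        refine Eventually.mono h1 fun x hx _ => ?_
        rw [List.length_append, List.length_singleton]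
        rw [show (en n).1 - (s.length + 1) = d by omega]
        exact hx
      · refine Eventually.of_forall fun x hx => ?_
        rw [List.length_append, List.length_singleton] at hx
        omega)
  refine ⟨a, ha, fun k F => ?_⟩
  obtain ⟨n, hn⟩ := hen (k, F)
  refine ⟨n, ?_⟩
  have key : ∀ α : Fin k → ℕ, StrictMono α → (∀ i, n ≤ α i) →
      SameType F (fun i => γ (a (α i))) (c (k, F)) := by
    intro α hα hαn
    set M := (Finset.univ.sup α) + 1 + n with hM
    set β : ℕ → ℕ := fun i => if h : i < k then α ⟨i, h⟩ else M + i with hβ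
    have hβ1 : ∀ (i : ℕ) (h : i < k), β i = α ⟨i, h⟩ := fun i h => by
      simp only [hβ, dif_pos h]
    have hβ2 : ∀ (i : ℕ), ¬ i < k → β i = M + i := fun i h => by
      simp only [hβ, dif_neg h]
    have hsup : ∀ i, α i ≤ Finset.univ.sup α := fun i => Finset.le_sup (Finset.mem_univ i)
    have hβm : StrictMono β := by
      intro i j hij
      by_cases hj : j < k
      · rw [hβ1 i (hij.trans hj), hβ1 j hj]
        exact hα hij
      · rw [hβ2 j hj]
        by_cases hi : i < k
        · rw [hβ1 i hi]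
          have := hsup ⟨i, hi⟩
          omega
        · rw [hβ2 i hi]; omega
    have hβ0 : n ≤ β 0 := by
      by_cases h0 : 0 < k
      · rw [hβ1 0 h0]; exact hαn _
      · rw [hβ2 0 h0]; omega
    have h1 := hbr n β hβm hβ0 k
    rw [hn] at h1
    have h2 := h1 (by simp)
    rw [show k - ((List.range k).map fun i => a (β i)).length = 0 by simp] at h2
    have h3 : (fun i : Fin k => γ (((List.range k).map fun i => a (β i)).getD i 0)) =
        fun i => γ (a (α i)) := by
      funext i
      have h4 : ((List.range k).map fun i => a (β i)).getD i 0 = a (β i) := by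
        rw [List.getD_eq_getElem?_getD, List.getElem?_map, List.getElem?_range i.2]
        rfl
      rw [h4, hβ1 i i.2]
    have h4 : SameType F (fun i : Fin k => γ (((List.range k).map fun i => a (β i)).getD i 0))
      (c (k, F)) := h2
    rw [h3] at h4
    exact h4
  exact fun α β hα hβ hαn hβn => (key α hα hαn).trans (key β hβ hβn).symm

end Pool.Agent.Comb7f333f
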